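import Pool.Agent.TH594.KP.Bas

/-!
# Two-level exchangeable arrays: definitions and statements of the parts

`ι` is the set of the coordinates (the type of arrays is `V (ι × Fin 1)`), `b : ι → β` gives the
block of a coordinate.
-/

set_option autoImplicit false

namespace Pool.Agent.TH597.HX

open MeasureTheory Set
open scoped ENNReal InnerProductSpace
open Pool.Agent.H212R2.KLS (mu Bdd)
open Pool.Agent.H888R2.KT (LC St tw)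
open Pool.Agent.TH594.KP (V GD GG swp P Bs ev)

/-- sum of the distances of the coordinates of the block `s` -/
noncomputable def dev {ι β : Type} [Fintype ι] [DecidableEq β] (b : ι → β) (s : β)
    (x : V (ι × Fin 1)) : ℝ :=
  ∑ i ∈ Bs b s, ∑ j ∈ Bs b s, |x (i, 0) - x (j, 0)|

/-- HARDY0. Hardy inequality for functions which are odd under an exchange inside a block, for
densities invariant under the exchanges inside the blocks, when the distances in the block are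
bounded on average. -/
def S_HARDY0 : Prop := ∃ C : ℝ, 0 < C ∧ ∀ {ι β : Type} [Fintype ι] [DecidableEq ι] [Fintype β]
  [DecidableEq β] {b : ι → β} {ρ : V (ι × Fin 1) → ℝ}, GD (GG (Fin 1) b) ρ →
  LC ρ → ∀ a : ℝ, 0 < a → ∀ k l : ι, k ≠ l → b k = b l →
  (∀ x, ρ x ≠ 0 → dev b (b k) x ≤ a * ((Bs b (b k)).card : ℝ) ^ 2) →
  ∀ f : V (ι × Fin 1) → ℝ, ContDiff ℝ 1 f → (∀ x, f (swp k l x) = - f x) →
  ∫ x, f x ^ 2 ∂(mu ρ) ≤ C * a ^ 2 * ∫ x, ‖fderiv ℝ f x‖ ^ 2 ∂(mu ρ)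

/-- TAIL0. Exponential tail with rate `m` for the sum of the distances of `m` exchangeable
coordinates. -/
def S_TAIL0 : Prop := ∃ C : ℝ, 0 < C ∧ ∀ {κ : Type} [Fintype κ] [DecidableEq κ] (S : Finset κ)
  (ρ : V κ → ℝ), (∀ x, 0 ≤ ρ x) → Measurable ρ →
  (∀ x y : V κ, ∀ t : ℝ, 0 < t → t < 1 → ρ x ^ (1 - t) * ρ y ^ t ≤ ρ ((1 - t) • x + t • y)) →
  (∀ k ∈ S, ∀ l ∈ S, ∀ x y : V κ, (∀ i, y i = x (Equiv.swap k l i)) → ρ y = ρ x) →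
  Bdd ρ → mu ρ univ = 1 → ∀ s : ℝ, 0 < s → (∀ i ∈ S, ∫ x, x i ^ 2 ∂(mu ρ) ≤ s) →
  ∀ l : ℝ, 1 ≤ l →
  mu ρ {x : V κ | l * (C * Real.sqrt s) * (S.card : ℝ) ^ 2 < ∑ i ∈ S, ∑ j ∈ S, |x i - x j|} ≤
    ENNReal.ofReal (Real.exp (-(S.card * l)))

/-- SEQ0. From functions odd under an exchange inside a block and functions symmetric inside the
blocks to all functions: `KP.Seq.seq` for a general finite index type. -/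
def S_SEQ0 : Prop := ∀ {ι δ β : Type} [Fintype ι] [DecidableEq ι] [Fintype δ] [DecidableEq δ]
  [DecidableEq β] {b : ι → β} {ρ : V (ι × δ) → ℝ}, GD (GG δ b) ρ → LC ρ →
  ∀ L : ℝ, 0 < L →
  (∀ (k l : ι) (f : V (ι × δ) → ℝ), k ≠ l → b k = b l → ContDiff ℝ 1 f →
    (∀ x, f (swp k l x) = - f x) →
    ∫ x, f x ^ 2 ∂(mu ρ) ≤ L * ∫ x, ‖fderiv ℝ f x‖ ^ 2 ∂(mu ρ)) →
  (∀ v : V (ι × δ) → ℝ, ContDiff ℝ 1 v →
    (∀ k l, b k = b l → ∀ x, v (swp k l x) = v x) →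
    ∃ c : ℝ, ∫ x, (v x - c) ^ 2 ∂(mu ρ) ≤ L * ∫ x, ‖fderiv ℝ v x‖ ^ 2 ∂(mu ρ)) →
  ∀ f : V (ι × δ) → ℝ, ContDiff ℝ 1 f →
  ∃ c : ℝ, ∫ x, (f x - c) ^ 2 ∂(mu ρ) ≤ L * ∫ x, ‖fderiv ℝ f x‖ ^ 2 ∂(mu ρ)

/-- UNT. Removing the Gaussian tilt in the directions `e j`, when a Poincare inequality is known for
the law of the centre of the tilt on a bounded set `U`. -/
def S_UNT : Prop := ∀ {κ : Type} [Fintype κ] {q : ℕ} (μ : Measure (V κ)) [IsFiniteMeasure μ]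
  [NeZero μ], (∃ R, μ (Metric.closedBall 0 R)ᶜ = 0) →
  ∀ e : Fin q → V κ, Orthonormal ℝ e → ∀ K : ℝ, 0 < K →
  ∀ U : Set (V (Fin q)), MeasurableSet U → ∀ D : ℝ, 0 ≤ D →
  (∀ M : V (Fin q) → ℝ, ContDiff ℝ 1 M → ∃ c : ℝ,
    ∫ τ in U, (M τ - c) ^ 2 * (∫ x, tw e K τ x ∂μ) ≤
      D * ∫ τ in U, ‖fderiv ℝ M τ‖ ^ 2 * (∫ x, tw e K τ x ∂μ)) →
  (∀ᵐ x ∂μ, Real.sqrt (2 * Real.pi * K) ^ q / 2 ≤ ∫ τ in U, tw e K τ x) →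
  (∀ (τ : V (Fin q)) (f : V κ → ℝ), ContDiff ℝ 1 f →
    ∃ c : ℝ, ∫ x, (f x - c) ^ 2 * tw e K τ x ∂μ ≤
      5 * K * ∫ x, ‖fderiv ℝ f x‖ ^ 2 * tw e K τ x ∂μ) →
  ∀ f : V κ → ℝ, ContDiff ℝ 1 f →
  ∃ c : ℝ, ∫ x, (f x - c) ^ 2 ∂μ ≤ 2 * (5 * K + 25 * D) * ∫ x, ‖fderiv ℝ f x‖ ^ 2 ∂μ

/-- OUT. If the directions `e j` can be permuted without changing the density, then the law of the
centre of the Gaussian tilt is exchangeable, hence satisfies a local Poincare inequality. -/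
def S_OUT : Prop := ∃ C : ℝ, 0 < C ∧ ∀ {κ : Type} [Fintype κ] {n : ℕ}, 1 ≤ n →
  ∀ ρ : V κ → ℝ, LC ρ → ∀ e : Fin n → V κ, Orthonormal ℝ e →
  (∀ π : Equiv.Perm (Fin n), ∃ g : V κ ≃ₗᵢ[ℝ] V κ, (∀ x, ρ (g x) = ρ x) ∧
    ∀ j, g (e j) = e (π j)) →
  ∀ K s c : ℝ, 0 < K → 0 < s → 0 < c →
  (∀ θ : V κ, ∫ x, ⟪θ, x⟫_ℝ ^ 2 ∂(mu ρ) ≤ s * ‖θ‖ ^ 2 * (mu ρ univ).toReal) →
  (∀ x, ρ x ≠ 0 → 2 * ∑ j, |⟪e j, x⟫_ℝ| ≤ c * n) → 8 * K ≤ c ^ 2 →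
  (∀ x, ρ x ≠ 0 → Real.sqrt (2 * Real.pi * K) ^ n / 2 ≤
    ∫ τ in {τ : V (Fin n) | ∑ j, |τ j| ≤ c * n}, tw e K τ x) ∧
  ∀ M : V (Fin n) → ℝ, ContDiff ℝ 1 M → ∃ c₀ : ℝ,
    ∫ τ in {τ : V (Fin n) | ∑ j, |τ j| ≤ c * n}, (M τ - c₀) ^ 2 *
        (∫ x, tw e K τ x ∂(mu ρ)) ≤
      C * (c ^ 2 + s + K) * ∫ τ in {τ : V (Fin n) | ∑ j, |τ j| ≤ c * n},
        ‖fderiv ℝ M τ‖ ^ 2 * (∫ x, tw e K τ x ∂(mu ρ))

end Pool.Agent.TH597.HX
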