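import Pool.Agent.TH597.HX.Tr2
import Pool.Agent.TH368.HX_HARDY0
import Pool.Agent.TH720.HX_SEQ0
import Pool.Agent.TH148.HX_TAIL0

/-!
# KLS for densities invariant under the automorphisms of a rooted tree: the final forms
-/

set_option autoImplicit false

namespace Pool.Agent.TH597.HX

open MeasureTheory Set Filter
open scoped ENNReal InnerProductSpace Topology
open Pool.Agent.H212R2.KLS (mu Bdd)
open Pool.Agent.TH594.KP (V GD SC full mainc)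
open Wr Tr

namespace Fin'

/-- the automorphisms of the tree, as isometries of the space of functions on the leaves -/
def AG {k : ℕ} (m : Fin k → ℕ) : Set (V (Leaf m) ≃ₗᵢ[ℝ] V (Leaf m)) :=
  {g | ∃ ψ : Equiv.Perm (Leaf m), IsAut m ψ ∧ g = pm ψ}

theorem sct : ∃ C : ℝ, 0 < C ∧ ∀ (k : ℕ) (m : Fin k → ℕ), 1 ≤ k → (∀ j, 1 ≤ m j) →
    SC (AG m) (C ^ (k ^ 2) * F m) := by
  obtain ⟨C₁, hC₁, hin⟩ := Loc.inner Pool.Agent.TH368.hardy0 Pool.Agent.TH720.seq0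
  obtain ⟨C₂, hC₂, hT⟩ := Pool.Agent.TH148.HX.tail0
  obtain ⟨C, hC, H⟩ := tree (C₁ := C₁) (C₂ := C₂) hC₁ (fun {_ _ _ _ _} => hin) hC₂
    (fun {_} _ _ => hT)
  have hC0 : 0 < C := by linarith
  refine ⟨120000 * C ^ 8, by positivity, ?_⟩
  intro k m hk hm
  obtain ⟨Q, hQ, N, hN⟩ := H k m hm
  have hF := F_one hm
  obtain ⟨B, hB⟩ : ∃ B : ℝ, B = C ^ (k + 1) := ⟨_, rfl⟩
  have hB1 : 1 ≤ B := by rw [hB]; exact one_le_pow₀ hC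
  rw [← hB] at hN
  have h1 := lpp_sc hN (by positivity) (by linarith)
  intro ρ hρ hbd hmass s hs hmom f hf hf1
  have hρ' : GD (pm '' Q) ρ := ⟨hρ.nonneg, hρ.meas, hρ.logc, by
    rintro g ⟨ψ, hψ, rfl⟩ x
    exact hρ.inv _ ⟨ψ, hQ ψ hψ, rfl⟩ x⟩
  refine (h1 ρ hρ' hbd hmass s hs hmom f hf hf1).trans (mul_le_mul_of_nonneg_right ?_ hs.le)
  have e1 : B ^ 2 + 2 ≤ 3 * B ^ 2 := by
    have : 1 ≤ B ^ 2 := one_le_pow₀ hB1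
    linarith
  have e2 : 40000 * (C ^ ((k + 1) ^ 2) * F m * (B ^ 2 + 2)) ≤
      120000 * (C ^ ((k + 1) ^ 2) * B ^ 2) * F m := by
    have h2 : C ^ ((k + 1) ^ 2) * F m * (B ^ 2 + 2) ≤ C ^ ((k + 1) ^ 2) * F m * (3 * B ^ 2) :=
      mul_le_mul_of_nonneg_left e1 (by positivity)
    calc 40000 * (C ^ ((k + 1) ^ 2) * F m * (B ^ 2 + 2))
        ≤ 40000 * (C ^ ((k + 1) ^ 2) * F m * (3 * B ^ 2)) :=
          mul_le_mul_of_nonneg_left h2 (by norm_num)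
      _ = _ := by ring
  refine e2.trans (mul_le_mul_of_nonneg_right ?_ (by linarith))
  have e3 : C ^ ((k + 1) ^ 2) * B ^ 2 = C ^ ((k + 1) ^ 2 + (k + 1) * 2) := by
    rw [hB, ← pow_mul, ← pow_add]
  rw [e3, mul_pow, ← pow_mul]
  have hk2 : 1 ≤ k ^ 2 := Nat.one_le_pow _ _ hk
  have e4 : C ^ ((k + 1) ^ 2 + (k + 1) * 2) ≤ C ^ (8 * k ^ 2) := by
    refine pow_le_pow_right₀ hC ?_
    nlinarith
  have e5 : (120000 : ℝ) ≤ 120000 ^ (k ^ 2) := by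
    calc (120000 : ℝ) = 120000 ^ 1 := (pow_one _).symm
      _ ≤ 120000 ^ (k ^ 2) := pow_le_pow_right₀ (by norm_num) hk2
  exact mul_le_mul e5 e4 (by positivity) (by positivity)

theorem fac_pos {k : ℕ} {m : Fin k → ℕ} (hm : ∀ j, 1 ≤ m j) {C : ℝ} (hC : 0 < C) :
    0 < C ^ (k ^ 2) * F m := by
  have := F_one hm
  positivity

/-- the density does not change under the automorphisms -/
theorem gd_of {k : ℕ} {m : Fin k → ℕ} {ρ : V (Leaf m) → ℝ} (hnn : ∀ x, 0 ≤ ρ x)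
    (hmeas : Measurable ρ)
    (hlc : ∀ x y, ∀ t : ℝ, 0 < t → t < 1 → ρ x ^ (1 - t) * ρ y ^ t ≤ ρ ((1 - t) • x + t • y))
    (hinv : ∀ ψ : Equiv.Perm (Leaf m), IsAut m ψ → ∀ x y : V (Leaf m),
      (∀ p, y p = x (ψ p)) → ρ y = ρ x) : GD (AG m) ρ :=
  ⟨hnn, hmeas, hlc, by
    rintro g ⟨ψ, hψ, rfl⟩ x
    exact hinv ψ.symm (aut_symm hψ) x (pm ψ x) fun p => pm_apply ψ x p⟩

/-- sets invariant under the automorphisms -/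
theorem set_of {k : ℕ} {m : Fin k → ℕ} {D : Set (V (Leaf m))}
    (hinv : ∀ ψ : Equiv.Perm (Leaf m), IsAut m ψ → ∀ x y : V (Leaf m),
      (∀ p, y p = x (ψ p)) → x ∈ D → y ∈ D) :
    ∀ g ∈ AG m, ∀ x, g x ∈ D ↔ x ∈ D := by
  rintro g ⟨ψ, hψ, rfl⟩ x
  refine ⟨fun h => ?_, fun h => hinv ψ.symm (aut_symm hψ) x (pm ψ x) (fun p => pm_apply ψ x p) h⟩
  refine hinv ψ hψ (pm ψ x) x (fun p => ?_) h
  rw [pm_apply, Equiv.symm_apply_apply]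

/-- the weak Poincare inequality, second moments, invariance under all isometries which preserve a
set `D` invariant under the automorphisms -/
theorem weakD : ∃ C : ℝ, 0 < C ∧ ∀ (k : ℕ) (m : Fin k → ℕ), 1 ≤ k → (∀ j, 1 ≤ m j) →
    ∀ D : Set (V (Leaf m)), (∀ g ∈ AG m, ∀ x, g x ∈ D ↔ x ∈ D) →
    ∀ ρ : V (Leaf m) → ℝ, (∀ x, 0 ≤ ρ x) → Measurable ρ →
    (∀ x y, ∀ t : ℝ, 0 < t → t < 1 → ρ x ^ (1 - t) * ρ y ^ t ≤ ρ ((1 - t) • x + t • y)) →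
    (∀ e : V (Leaf m) ≃ₗᵢ[ℝ] V (Leaf m), (∀ x, e x ∈ D ↔ x ∈ D) → ∀ x, ρ (e x) = ρ x) →
    mu ρ univ = 1 → ∀ s : ℝ, 0 < s → (∀ θ : V (Leaf m),
      ∫⁻ x, ENNReal.ofReal (⟪θ, x⟫_ℝ ^ 2) ∂(mu ρ) ≤ ENNReal.ofReal (s * ‖θ‖ ^ 2)) →
    ∀ v : V (Leaf m) → ℝ, ContDiff ℝ 1 v → (∀ x, |v x| ≤ 1) →
    ENNReal.ofReal ((∫ x, (v x - ∫ y, v y ∂(mu ρ)) ^ 2 ∂(mu ρ)) ^ 2) ≤
      ENNReal.ofReal (C ^ (k ^ 2) * F m * s) *
        ∫⁻ x, ENNReal.ofReal (‖fderiv ℝ v x‖ ^ 2) ∂(mu ρ) := by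
  obtain ⟨C, hC, H⟩ := sct
  refine ⟨8 * C, by positivity, ?_⟩
  intro k m hk hm D hD ρ hnn hmeas hlc hiso h1 s hs hmom v hv hvb
  have hG : GD (AG m) ρ := ⟨hnn, hmeas, hlc, fun g hg x => hiso g (hD g hg) x⟩
  refine (mainc (fac_pos hm hC) (H k m hk hm) ρ hG h1 s hs hmom v hv hvb).trans ?_
  refine mul_le_mul_left (ENNReal.ofReal_le_ofReal ?_) _
  refine mul_le_mul_of_nonneg_right ?_ hs.le
  have hF := F_one hm
  have hk2 : 1 ≤ k ^ 2 := Nat.one_le_pow _ _ hk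
  have e5 : (8 : ℝ) ≤ 8 ^ (k ^ 2) := by
    calc (8 : ℝ) = 8 ^ 1 := (pow_one _).symm
      _ ≤ 8 ^ (k ^ 2) := pow_le_pow_right₀ (by norm_num) hk2
  rw [mul_pow, ← mul_assoc]
  exact mul_le_mul_of_nonneg_right (mul_le_mul_of_nonneg_right e5 (by positivity)) (by linarith)

/-- the Poincare type bounds, covariance -/
theorem fullA : ∃ C : ℝ, 0 < C ∧ ∀ (k : ℕ) (m : Fin k → ℕ), 1 ≤ k → (∀ j, 1 ≤ m j) →
    ∀ ρ : V (Leaf m) → ℝ, GD (AG m) ρ → mu ρ univ = 1 → ∀ s : ℝ, 0 < s →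
    (∀ θ : V (Leaf m), ProbabilityTheory.evariance (fun x => ⟪θ, x⟫_ℝ) (mu ρ) ≤
      ENNReal.ofReal (s * ‖θ‖ ^ 2)) → ∀ f : V (Leaf m) → ℝ, ContDiff ℝ 1 f →
    ((∀ x, ‖fderiv ℝ f x‖ ≤ 1) → MemLp f 2 (mu ρ) ∧
      ProbabilityTheory.variance f (mu ρ) ≤ C ^ (k ^ 2) * F m * s) ∧
    ((∀ x, |f x| ≤ 1) → ENNReal.ofReal (ProbabilityTheory.variance f (mu ρ) ^ 2) ≤
      ENNReal.ofReal (C ^ (k ^ 2) * F m * s) *
        ∫⁻ x, ENNReal.ofReal (‖fderiv ℝ f x‖ ^ 2) ∂(mu ρ)) := by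
  obtain ⟨C, hC, H⟩ := sct
  refine ⟨8 * C, by positivity, ?_⟩
  intro k m hk hm ρ hρ h1 s hs hcov f hf
  have key := full (fac_pos hm hC) (H k m hk hm) ρ hρ h1 s hs hcov f hf
  have hF := F_one hm
  have hk2 : 1 ≤ k ^ 2 := Nat.one_le_pow _ _ hk
  have e5 : (8 : ℝ) ≤ 8 ^ (k ^ 2) := by
    calc (8 : ℝ) = 8 ^ 1 := (pow_one _).symm
      _ ≤ 8 ^ (k ^ 2) := pow_le_pow_right₀ (by norm_num) hk2
  have e6 : 8 * (C ^ (k ^ 2) * F m) * s ≤ (8 * C) ^ (k ^ 2) * F m * s := by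
    refine mul_le_mul_of_nonneg_right ?_ hs.le
    rw [mul_pow, ← mul_assoc]
    exact mul_le_mul_of_nonneg_right (mul_le_mul_of_nonneg_right e5 (by positivity)) (by linarith)
  refine ⟨fun h => ?_, fun h => ?_⟩
  · obtain ⟨k1, k2⟩ := key.1 h
    exact ⟨k1, k2.trans e6⟩
  · exact (key.2 h).trans (mul_le_mul_left (ENNReal.ofReal_le_ofReal e6) _)

end Fin'

end Pool.Agent.TH597.HX
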