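import Pool.Agent.TH597.HX.Loc
import Pool.Agent.W380.SX.Borell

/-!
# Arrays: blocks, level sets, tail
-/

set_option autoImplicit false

namespace Pool.Agent.TH597.HX

open MeasureTheory Set
open scoped ENNReal InnerProductSpace
open Pool.Agent.H212R2.KLS (mu Bdd)
open Pool.Agent.H888R2.KT (LC St tw)
open Pool.Agent.H888R2.KT.G2x (mu_indicator integral_mu_mul mu_mono intg)
open Pool.Agent.TH594.KP (V GD GG swp P Bs ev mem_Bs gd_indicator swp_apply)
open Loc (ee)

namespace Arr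

/-! ### general blocks -/

section gen

variable {ι β : Type} [Fintype ι] [DecidableEq β]

theorem dev_nonneg (b : ι → β) (s : β) (x : V (ι × Fin 1)) : 0 ≤ dev b s x :=
  Finset.sum_nonneg fun _ _ => Finset.sum_nonneg fun _ _ => abs_nonneg _

theorem dev_cont (b : ι → β) (s : β) : Continuous (dev b s) := by
  unfold dev
  fun_prop

theorem dev_add (b : ι → β) (s : β) (x y : V (ι × Fin 1)) :
    dev b s (x + y) ≤ dev b s x + dev b s y := by
  unfold dev
  rw [← Finset.sum_add_distrib]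
  refine Finset.sum_le_sum fun i _ => ?_
  rw [← Finset.sum_add_distrib]
  refine Finset.sum_le_sum fun j _ => ?_
  have : (x + y) (i, 0) - (x + y) (j, 0) = (x (i, 0) - x (j, 0)) + (y (i, 0) - y (j, 0)) := by
    simp only [PiLp.add_apply]
    ring
  rw [this]
  exact abs_add_le _ _

theorem dev_smul (b : ι → β) (s : β) (c : ℝ) (x : V (ι × Fin 1)) :
    dev b s (c • x) = |c| * dev b s x := by
  unfold dev
  rw [Finset.mul_sum]
  refine Finset.sum_congr rfl fun i _ => ?_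
  rw [Finset.mul_sum]
  refine Finset.sum_congr rfl fun j _ => ?_
  have : (c • x) (i, 0) - (c • x) (j, 0) = c * (x (i, 0) - x (j, 0)) := by
    simp only [PiLp.smul_apply, smul_eq_mul]
    ring
  rw [this, abs_mul]

theorem dev_swp [DecidableEq ι] (b : ι → β) (s : β) (k l : ι) (hkl : b k = b l)
    (x : V (ι × Fin 1)) : dev b s (swp k l x) = dev b s x := by
  unfold dev
  have hb : ∀ i, b (Equiv.swap k l i) = b i := by
    intro i
    by_cases h2 : i = k
    · rw [h2, Equiv.swap_apply_left, hkl]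
    · by_cases h3 : i = l
      · rw [h3, Equiv.swap_apply_right, hkl]
      · rw [Equiv.swap_apply_of_ne_of_ne h2 h3]
  refine Finset.sum_equiv (Equiv.swap k l) (fun i => ?_) (fun i _ => ?_)
  · rw [mem_Bs, mem_Bs, hb]
  · refine Finset.sum_equiv (Equiv.swap k l) (fun j => ?_) (fun j _ => ?_)
    · rw [mem_Bs, mem_Bs, hb]
    · rw [swp_apply, swp_apply]

/-- sublevel sets of a seminorm are convex -/
theorem conv {F : Type} [AddCommGroup F] [Module ℝ F] (N : F → ℝ)
    (hadd : ∀ x y, N (x + y) ≤ N x + N y) (hsm : ∀ (c : ℝ) (x : F), N (c • x) = |c| * N x)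
    (r : ℝ) : Convex ℝ {x | N x ≤ r} := by
  intro x hx y hy t t' ht ht' htt
  have hx' : N x ≤ r := hx
  have hy' : N y ≤ r := hy
  show N (t • x + t' • y) ≤ r
  refine (hadd _ _).trans ?_
  rw [hsm, hsm, abs_of_nonneg ht, abs_of_nonneg ht']
  have h1 := mul_le_mul_of_nonneg_left hx' ht
  have h2 := mul_le_mul_of_nonneg_left hy' ht'
  calc t * N x + t' * N y ≤ t * r + t' * r := by linarith
    _ = (t + t') * r := by ring
    _ = r := by rw [htt, one_mul]

/-- tail of a seminorm -/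
theorem btail {F : Type*} [NormedAddCommGroup F] [InnerProductSpace ℝ F]
    [FiniteDimensional ℝ F] [MeasurableSpace F] [BorelSpace F] (ρ : F → ℝ)
    (h0 : ∀ x, 0 ≤ ρ x) (hm : Measurable ρ)
    (hlc : ∀ x y : F, ∀ t : ℝ, 0 < t → t < 1 →
      ρ x ^ (1 - t) * ρ y ^ t ≤ ρ ((1 - t) • x + t • y))
    (h1 : mu ρ univ = 1) (N : F → ℝ) (hN : Measurable N)
    (hadd : ∀ x y, N (x + y) ≤ N x + N y) (hsm : ∀ (c : ℝ) (x : F), N (c • x) = |c| * N x)
    (hi : Integrable (fun x => N x ^ 2) (mu ρ)) (hN0 : ∀ x, 0 ≤ N x) (R : ℝ) (hR : 0 < R)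
    (hI : ∫ x, N x ^ 2 ∂(mu ρ) ≤ R ^ 2) (t : ℝ) (ht : 1 < t) :
    (mu ρ).real {x | t * (4 * R) < N x} ≤ Real.exp (-(t + 1) / 2) := by
  have hprob : IsProbabilityMeasure (mu ρ) := ⟨h1⟩
  refine Pool.Agent.W380.SX.borell ρ h0 hm hlc h1 N hN hadd hsm (4 * R) ?_ t ht
  have hbad : (mu ρ).real {x : F | 4 * R < N x} ≤ 1 / 16 := by
    have h2 := mul_meas_ge_le_integral_of_nonneg (μ := mu ρ) (f := fun x : F => N x ^ 2)
      (Filter.Eventually.of_forall fun x => sq_nonneg _) hi ((4 * R) ^ 2)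
    have h3 : (mu ρ).real {x : F | 4 * R < N x} ≤
        (mu ρ).real {x : F | (4 * R) ^ 2 ≤ N x ^ 2} := by
      refine measureReal_mono fun x hx => ?_
      have hx' : 4 * R < N x := hx
      show (4 * R) ^ 2 ≤ N x ^ 2
      exact pow_le_pow_left₀ (by positivity) hx'.le 2
    have h4 : (4 * R) ^ 2 * (mu ρ).real {x : F | 4 * R < N x} ≤ R ^ 2 :=
      (mul_le_mul_of_nonneg_left h3 (sq_nonneg _)).trans (h2.trans hI)
    have h5 : 0 < R ^ 2 := by positivity
    nlinarith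
  have hms : MeasurableSet {x : F | N x ≤ 4 * R} := measurableSet_le hN measurable_const
  have h2 := probReal_compl_eq_one_sub (μ := mu ρ) hms
  have h3 : {x : F | N x ≤ 4 * R}ᶜ = {x : F | 4 * R < N x} := by
    ext x; simp
  rw [h3] at h2
  linarith

end gen

/-! ### arrays -/

/-- the index set of the coordinates: block, position -/
abbrev I (n m : ℕ) : Type := Fin n × Fin m

/-- arrays of `n` blocks of `m` coordinates -/
abbrev W (n m : ℕ) : Type := V (I n m × Fin 1)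

/-- the block of a coordinate -/
def bl (n m : ℕ) : I n m → Fin n := Prod.fst

/-- permutation of the blocks -/
noncomputable def bp {n m : ℕ} (π : Equiv.Perm (Fin n)) : W n m ≃ₗᵢ[ℝ] W n m :=
  LinearIsometryEquiv.piLpCongrLeft 2 ℝ ℝ
    ((π.prodCongr (Equiv.refl (Fin m))).prodCongr (Equiv.refl (Fin 1)))

variable {n m : ℕ}

theorem bp_apply (π : Equiv.Perm (Fin n)) (x : W n m) (β : Fin n) (i : Fin m) (c : Fin 1) :
    bp π x ((β, i), c) = x ((π.symm β, i), c) := by
  unfold bp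
  rw [LinearIsometryEquiv.piLpCongrLeft_apply]
  rfl

theorem bl_surj (hm : 1 ≤ m) : Function.Surjective (bl n m) := fun β => ⟨(β, ⟨0, hm⟩), rfl⟩

theorem sum_Bs (β : Fin n) (F : I n m → ℝ) :
    ∑ p ∈ Bs (bl n m) β, F p = ∑ i : Fin m, F (β, i) := by
  unfold Bs bl
  rw [Finset.sum_filter, Fintype.sum_prod_type, Finset.sum_eq_single β]
  · simp
  · intro γ _ hγ
    simp [hγ]
  · intro h
    exact absurd (Finset.mem_univ _) h

theorem card_Bs (β : Fin n) : (Bs (bl n m) β).card = m := by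
  have h := sum_Bs (m := m) β fun _ => (1 : ℝ)
  simp only [Finset.sum_const, nsmul_eq_mul, mul_one, Finset.card_univ, Fintype.card_fin] at h
  exact_mod_cast h

theorem dev_eq (β : Fin n) (x : W n m) : dev (bl n m) β x =
    ∑ i : Fin m, ∑ j : Fin m, |x ((β, i), 0) - x ((β, j), 0)| := by
  unfold dev
  rw [sum_Bs β fun p => ∑ q ∈ Bs (bl n m) β, |x (p, 0) - x (q, 0)|]
  refine Finset.sum_congr rfl fun i _ => ?_
  rw [sum_Bs β fun q => |x ((β, i), 0) - x (q, 0)|]

theorem dev_bp (π : Equiv.Perm (Fin n)) (β : Fin n) (x : W n m) :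
    dev (bl n m) β (bp π x) = dev (bl n m) (π.symm β) x := by
  rw [dev_eq, dev_eq]
  simp only [bp_apply]

theorem ee_apply (j : Fin n) (β : Fin n) (i : Fin m) (c : Fin 1) :
    ee (bl n m) j ((β, i), c) = if β = j then 1 / Real.sqrt m else 0 := by
  show (if bl n m (β, i) = j ∧ c = 0 then 1 / Real.sqrt (Bs (bl n m) j).card else 0 : ℝ) = _
  rw [card_Bs]
  have h1 : c = 0 := Subsingleton.elim _ _
  simp only [h1, and_true]
  rfl

theorem bp_ee (π : Equiv.Perm (Fin n)) (j : Fin n) :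
    bp π (ee (bl n m) j) = ee (bl n m) (π j) := by
  ext p
  obtain ⟨⟨β, i⟩, c⟩ := p
  rw [bp_apply, ee_apply, ee_apply]
  have h : π.symm β = j ↔ β = π j := by
    rw [Equiv.symm_apply_eq]
  by_cases h1 : β = π j
  · rw [if_pos h1, if_pos (h.2 h1)]
  · rw [if_neg h1, if_neg fun h2 => h1 (h.1 h2)]

/-- sum of the absolute values of the normalised block sums -/
noncomputable def nb (x : W n m) : ℝ := ∑ j, |⟪ee (bl n m) j, x⟫_ℝ|

theorem nb_nonneg (x : W n m) : 0 ≤ nb x := Finset.sum_nonneg fun _ _ => abs_nonneg _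

theorem nb_cont : Continuous (nb (n := n) (m := m)) := by
  unfold nb
  fun_prop

theorem nb_add (x y : W n m) : nb (x + y) ≤ nb x + nb y := by
  unfold nb
  rw [← Finset.sum_add_distrib]
  refine Finset.sum_le_sum fun j _ => ?_
  rw [inner_add_right]
  exact abs_add_le _ _

theorem nb_smul (c : ℝ) (x : W n m) : nb (c • x) = |c| * nb x := by
  unfold nb
  rw [Finset.mul_sum]
  refine Finset.sum_congr rfl fun j _ => ?_
  rw [real_inner_smul_right, abs_mul]

theorem nb_swp (k l : I n m) (hkl : bl n m k = bl n m l) (x : W n m) :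
    nb (swp k l x) = nb x := by
  unfold nb
  refine Finset.sum_congr rfl fun j _ => ?_
  have h1 := (swp (δ := Fin 1) k l).inner_map_map (ee (bl n m) j) x
  have h2 : swp k l (ee (bl n m) j) = ee (bl n m) j :=
    Pool.Agent.TH594.KP.swp_ev (bl n m) _ k l hkl
  rw [h2] at h1
  rw [h1]

theorem nb_bp (π : Equiv.Perm (Fin n)) (x : W n m) : nb (bp π x) = nb x := by
  unfold nb
  rw [← Equiv.sum_comp π]
  refine Finset.sum_congr rfl fun j _ => ?_
  rw [← bp_ee, (bp π).inner_map_map]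

/-- the exchanges inside the blocks and the permutations of the blocks -/
def GH (n m : ℕ) : Set (W n m ≃ₗᵢ[ℝ] W n m) := GG (Fin 1) (bl n m) ∪ Set.range bp

theorem gd_gg {ρ : W n m → ℝ} (h : GD (GH n m) ρ) : GD (GG (Fin 1) (bl n m)) ρ :=
  ⟨h.nonneg, h.meas, h.logc, fun g hg => h.inv g (Or.inl hg)⟩

theorem gd_ex {ρ : W n m → ℝ} (h : GD (GH n m) ρ) (π : Equiv.Perm (Fin n)) :
    ∃ g : W n m ≃ₗᵢ[ℝ] W n m, (∀ x, ρ (g x) = ρ x) ∧
      ∀ j, g (ee (bl n m) j) = ee (bl n m) (π j) :=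
  ⟨bp π, h.inv _ (Or.inr ⟨π, rfl⟩), fun j => bp_ee π j⟩

/-- the level sets -/
def lvl (n m : ℕ) (a c : ℝ) : Set (W n m) :=
  {x | ∀ β, dev (bl n m) β x ≤ a * (m : ℝ) ^ 2} ∩ {x | nb x ≤ c * n}

theorem lvl_closed (a c : ℝ) : IsClosed (lvl n m a c) := by
  have h1 : {x : W n m | ∀ β, dev (bl n m) β x ≤ a * (m : ℝ) ^ 2} =
      ⋂ β, {x | dev (bl n m) β x ≤ a * (m : ℝ) ^ 2} := by
    ext x
    simp only [mem_ofPred_eq, mem_iInter]
  unfold lvl
  rw [h1]
  exact (isClosed_iInter fun β => isClosed_le (dev_cont _ β) continuous_const).inter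
    (isClosed_le nb_cont continuous_const)

theorem lvl_convex (a c : ℝ) : Convex ℝ (lvl n m a c) := by
  have h1 : {x : W n m | ∀ β, dev (bl n m) β x ≤ a * (m : ℝ) ^ 2} =
      ⋂ β, {x | dev (bl n m) β x ≤ a * (m : ℝ) ^ 2} := by
    ext x
    simp only [mem_ofPred_eq, mem_iInter]
  unfold lvl
  rw [h1]
  exact (convex_iInter fun β => conv _ (dev_add _ β) (dev_smul _ β) _).inter
    (conv _ nb_add nb_smul _)

theorem lvl_inv (a c : ℝ) : ∀ g ∈ GH n m, ∀ x, g x ∈ lvl n m a c ↔ x ∈ lvl n m a c := by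
  rintro g (⟨k, l, hkl, rfl⟩ | ⟨π, rfl⟩) x
  · refine and_congr (forall_congr' fun β => ?_) ?_
    · rw [dev_swp _ β k l hkl]
    · show nb (swp k l x) ≤ _ ↔ nb x ≤ _
      rw [nb_swp k l hkl]
  · refine and_congr ?_ ?_
    · show (∀ β, dev (bl n m) β (bp π x) ≤ a * (m : ℝ) ^ 2) ↔ ∀ β, dev (bl n m) β x ≤ a * (m : ℝ) ^ 2
      simp only [dev_bp]
      constructor
      · intro h β
        have := h (π β)
        rwa [Equiv.symm_apply_apply] at this
      · intro h β
        exact h (π.symm β)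
    · show nb (bp π x) ≤ _ ↔ nb x ≤ _
      rw [nb_bp]

theorem lvl_mono {a a' c c' : ℝ} (h : a ≤ a') (h' : c ≤ c') : lvl n m a c ⊆ lvl n m a' c' := by
  rintro x ⟨h1, h2⟩
  refine ⟨fun β => (h1 β).trans (mul_le_mul_of_nonneg_right h (sq_nonneg _)), ?_⟩
  have h2' : nb x ≤ c * n := h2
  show nb x ≤ c' * n
  exact h2'.trans (mul_le_mul_of_nonneg_right h' (Nat.cast_nonneg _))

theorem gd_lvl {ρ : W n m → ℝ} (hρ : GD (GH n m) ρ) (a c : ℝ) :
    GD (GH n m) ((lvl n m a c).indicator ρ) :=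
  gd_indicator hρ _ (lvl_convex a c) (lvl_closed a c).measurableSet (lvl_inv a c)

end Arr

end Pool.Agent.TH597.HX
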