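import Pool.Agent.TH597.HX.Arr
import Pool.Agent.TH594.KP.Main

/-!
# Arrays: tail of the level sets, the variance bound for densities of bounded support
-/

set_option autoImplicit false

namespace Pool.Agent.TH597.HX

open MeasureTheory Set
open scoped ENNReal InnerProductSpace
open Pool.Agent.H212R2.KLS (mu Bdd)
open Pool.Agent.H888R2.KT (LC St tw)
open Pool.Agent.H888R2.KT.G2x (mu_indicator integral_mu_mul mu_mono intg)
open Pool.Agent.TH594.KP (V GD GG swp P Bs ev mem_Bs gd_indicator swp_apply SC)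
open Loc (ee)
open Arr

namespace Core

variable {n m : ℕ}

/-- `S_TAIL0` with the constant `C` -/
def T0 (C : ℝ) : Prop := ∀ {κ : Type} [Fintype κ] [DecidableEq κ] (S : Finset κ)
  (ρ : V κ → ℝ), (∀ x, 0 ≤ ρ x) → Measurable ρ →
  (∀ x y : V κ, ∀ t : ℝ, 0 < t → t < 1 → ρ x ^ (1 - t) * ρ y ^ t ≤ ρ ((1 - t) • x + t • y)) →
  (∀ k ∈ S, ∀ l ∈ S, ∀ x y : V κ, (∀ i, y i = x (Equiv.swap k l i)) → ρ y = ρ x) →
  Bdd ρ → mu ρ univ = 1 → ∀ s : ℝ, 0 < s → (∀ i ∈ S, ∫ x, x i ^ 2 ∂(mu ρ) ≤ s) →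
  ∀ l : ℝ, 1 ≤ l →
  mu ρ {x : V κ | l * (C * Real.sqrt s) * (S.card : ℝ) ^ 2 < ∑ i ∈ S, ∑ j ∈ S, |x i - x j|} ≤
    ENNReal.ofReal (Real.exp (-(S.card * l)))

theorem swap_prod {ι : Type} [DecidableEq ι] (k l : ι) (p : ι × Fin 1) :
    Equiv.swap (k, (0 : Fin 1)) (l, (0 : Fin 1)) p = (Equiv.swap k l p.1, p.2) := by
  obtain ⟨i, c⟩ := p
  have hc : c = 0 := Subsingleton.elim _ _
  subst hc
  by_cases h1 : i = k
  · subst h1
    rw [Equiv.swap_apply_left, Equiv.swap_apply_left]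
  · by_cases h2 : i = l
    · subst h2
      rw [Equiv.swap_apply_right, Equiv.swap_apply_right]
    · rw [Equiv.swap_apply_of_ne_of_ne, Equiv.swap_apply_of_ne_of_ne h1 h2]
      · intro h
        exact h1 (congrArg Prod.fst h)
      · intro h
        exact h2 (congrArg Prod.fst h)

theorem ball (ρ : W n m → ℝ) (hm : Measurable ρ) (hb : Bdd ρ) :
    ∃ R, (mu ρ) (Metric.closedBall 0 R)ᶜ = 0 := by
  obtain ⟨R, hR⟩ := hb
  refine ⟨R, ?_⟩
  rw [mu, withDensity_apply_eq_zero' (hm.ennreal_ofReal.aemeasurable)]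
  refine measure_mono_null ?_ (measure_empty (μ := (volume : Measure (W n m))))
  intro x hx
  refine hx.1 ?_
  have : R < ‖x‖ := by simpa using hx.2
  simp [hR x this]

/-- tail of the level sets, one block -/
theorem tail1 {C : ℝ} (hT : T0 C) (ρ : W n m → ℝ) (hρ : GD (GG (Fin 1) (bl n m)) ρ)
    (hB : Bdd ρ) (h1 : mu ρ univ = 1) (s : ℝ) (hs : 0 < s)
    (hmom : ∀ θ : W n m, ∫ x, ⟪θ, x⟫_ℝ ^ 2 ∂(mu ρ) ≤ s * ‖θ‖ ^ 2) (β : Fin n) (l : ℝ)
    (hl : 1 ≤ l) :
    (mu ρ).real {x : W n m | l * (C * Real.sqrt s) * (m : ℝ) ^ 2 < dev (bl n m) β x} ≤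
      Real.exp (-(m * l)) := by
  have hcoord : ∀ p : I n m × Fin 1, ∫ x, x p ^ 2 ∂(mu ρ) ≤ s := by
    intro p
    have h2 := hmom (EuclideanSpace.single p 1)
    have h3 : ∀ x : W n m, ⟪EuclideanSpace.single p (1:ℝ), x⟫_ℝ = x p := by
      intro x
      rw [EuclideanSpace.inner_single_left]
      simp
    simp_rw [h3] at h2
    simpa using h2
  obtain ⟨S, hS⟩ : ∃ S : Finset (I n m × Fin 1), S = (Bs (bl n m) β).map
      ⟨fun i => (i, (0 : Fin 1)), fun i j h => congrArg Prod.fst h⟩ := ⟨_, rfl⟩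
  have hcard : S.card = m := by rw [hS, Finset.card_map, card_Bs]
  have hsum : ∀ x : W n m, ∑ i ∈ S, ∑ j ∈ S, |x i - x j| = dev (bl n m) β x := by
    intro x
    rw [hS]
    simp only [Finset.sum_map, Function.Embedding.coeFn_mk]
    rfl
  have hinv : ∀ k ∈ S, ∀ l ∈ S, ∀ x y : W n m, (∀ i, y i = x (Equiv.swap k l i)) →
      ρ y = ρ x := by
    intro k hk l hl x y hxy
    rw [hS, Finset.mem_map] at hk hl
    obtain ⟨k', hk', rfl⟩ := hk
    obtain ⟨l', hl', rfl⟩ := hl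
    have e1 : y = swp k' l' x := by
      ext p
      rw [hxy p, swp_apply]
      exact congrArg (fun q => x q) (swap_prod k' l' p)
    rw [e1]
    refine hρ.inv _ ⟨k', l', ?_, rfl⟩ x
    rw [(mem_Bs _ _ _).1 hk', (mem_Bs _ _ _).1 hl']
  have h2 := hT S ρ hρ.nonneg hρ.meas hρ.logc hinv hB h1 s hs (fun i _ => hcoord i) l hl
  simp only [hsum, hcard] at h2
  rw [measureReal_def]
  exact ENNReal.toReal_le_of_le_ofReal (Real.exp_pos _).le h2

theorem int_nb (ρ : W n m → ℝ) (hρ : GD (GH n m) ρ)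
    (hB : Bdd ρ) (h1 : mu ρ univ = 1) (hm : 1 ≤ m) (s : ℝ)
    (hmom : ∀ θ : W n m, ∫ x, ⟪θ, x⟫_ℝ ^ 2 ∂(mu ρ) ≤ s * ‖θ‖ ^ 2) :
    ∫ x, nb x ^ 2 ∂(mu ρ) ≤ (n : ℝ) ^ 2 * s := by
  have hprob : IsProbabilityMeasure (mu ρ) := ⟨h1⟩
  have hball := ball ρ hρ.meas hB
  have hi : ∀ j, Integrable (fun x : W n m => ⟪ee (bl n m) j, x⟫_ℝ ^ 2) (mu ρ) := fun j =>
    intg (mu ρ) hball _ (by fun_prop)
  have h2 : ∀ x : W n m, nb x ^ 2 ≤ n * ∑ j, ⟪ee (bl n m) j, x⟫_ℝ ^ 2 := by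
    intro x
    have h3 := sq_sum_le_card_mul_sum_sq (s := (Finset.univ : Finset (Fin n)))
      (f := fun j => |⟪ee (bl n m) j, x⟫_ℝ|)
    simp only [sq_abs, Finset.card_univ, Fintype.card_fin] at h3
    exact h3
  have h3 : ∫ x, nb x ^ 2 ∂(mu ρ) ≤ ∫ x, n * ∑ j, ⟪ee (bl n m) j, x⟫_ℝ ^ 2 ∂(mu ρ) :=
    integral_mono (intg (mu ρ) hball _ (nb_cont.pow 2))
      ((integrable_finsetSum _ fun j _ => hi j).const_mul _) h2
  rw [integral_const_mul, integral_finsetSum _ fun j _ => hi j] at h3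
  have h4 : ∑ j, ∫ x, ⟪ee (bl n m) j, x⟫_ℝ ^ 2 ∂(mu ρ) ≤ ∑ _j : Fin n, s := by
    refine Finset.sum_le_sum fun j _ => (hmom _).trans (le_of_eq ?_)
    rw [(Loc.orth_ee (bl_surj hm)).1 j]
    ring
  rw [Finset.sum_const, Finset.card_univ, Fintype.card_fin, nsmul_eq_mul] at h4
  have hn0 : (0 : ℝ) ≤ n := Nat.cast_nonneg n
  calc ∫ x, nb x ^ 2 ∂(mu ρ) ≤ n * ∑ j, ∫ x, ⟪ee (bl n m) j, x⟫_ℝ ^ 2 ∂(mu ρ) := h3
    _ ≤ n * (n * s) := mul_le_mul_of_nonneg_left h4 hn0
    _ = _ := by ring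

/-- tail of the level sets -/
theorem tail {C : ℝ} (hT : T0 C) (hn : 1 ≤ n) (hm : 1 ≤ m) (ρ : W n m → ℝ)
    (hρ : GD (GH n m) ρ) (hB : Bdd ρ) (h1 : mu ρ univ = 1) (s : ℝ) (hs : 0 < s)
    (hmom : ∀ θ : W n m, ∫ x, ⟪θ, x⟫_ℝ ^ 2 ∂(mu ρ) ≤ s * ‖θ‖ ^ 2) (t : ℝ) (ht : 1 ≤ t) :
    (mu ρ).real (lvl n m ((1 + (t + Real.log n) / m) * (C * Real.sqrt s))
      (4 * (t + 2) * Real.sqrt s))ᶜ ≤ Real.exp (-(t / 2)) := by
  have hprob : IsProbabilityMeasure (mu ρ) := ⟨h1⟩
  have hn1 : (1 : ℝ) ≤ n := by exact_mod_cast hn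
  have hm1 : (1 : ℝ) ≤ m := by exact_mod_cast hm
  have hm0 : (0 : ℝ) < m := by linarith
  have hn0 : (0 : ℝ) < n := by linarith
  have hlog : 0 ≤ Real.log n := Real.log_nonneg hn1
  have hss : 0 < Real.sqrt s := Real.sqrt_pos.2 hs
  obtain ⟨l, hl⟩ : ∃ l : ℝ, l = 1 + (t + Real.log n) / m := ⟨_, rfl⟩
  have hl1 : 1 ≤ l := by
    rw [hl]
    have : 0 ≤ (t + Real.log n) / m := by positivity
    linarith
  rw [← hl]
  have hsub : (lvl n m (l * (C * Real.sqrt s)) (4 * (t + 2) * Real.sqrt s))ᶜ ⊆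
      (⋃ β ∈ (Finset.univ : Finset (Fin n)),
        {x : W n m | l * (C * Real.sqrt s) * (m : ℝ) ^ 2 < dev (bl n m) β x}) ∪
      {x : W n m | (t + 2) * (4 * (n * Real.sqrt s)) < nb x} := by
    intro x hx
    by_contra hc
    refine hx ⟨fun β => ?_, ?_⟩
    · by_contra h2
      rw [not_le] at h2
      refine hc (Or.inl ?_)
      simp only [mem_iUnion]
      exact ⟨β, Finset.mem_univ _, h2⟩
    · by_contra h2
      refine hc (Or.inr ?_)
      have h3 : 4 * (t + 2) * Real.sqrt s * n < nb x := not_le.1 h2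
      show (t + 2) * (4 * (n * Real.sqrt s)) < nb x
      calc (t + 2) * (4 * (n * Real.sqrt s)) = 4 * (t + 2) * Real.sqrt s * n := by ring
        _ < nb x := h3
  refine (measureReal_mono hsub).trans ((measureReal_union_le _ _).trans ?_)
  have hA : (mu ρ).real (⋃ β ∈ (Finset.univ : Finset (Fin n)),
        {x : W n m | l * (C * Real.sqrt s) * (m : ℝ) ^ 2 < dev (bl n m) β x}) ≤
      1 / 2 * Real.exp (-(t / 2)) := by
    refine (measureReal_biUnion_finset_le _ _).trans ?_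
    have h3 : ∀ β ∈ (Finset.univ : Finset (Fin n)),
        (mu ρ).real {x : W n m | l * (C * Real.sqrt s) * (m : ℝ) ^ 2 < dev (bl n m) β x} ≤
          Real.exp (-(m * l)) := fun β _ => tail1 hT ρ (gd_gg hρ) hB h1 s hs hmom β l hl1
    refine (Finset.sum_le_sum h3).trans ?_
    rw [Finset.sum_const, Finset.card_univ, Fintype.card_fin, nsmul_eq_mul]
    have e1 : -(m * l) = -(m + t) - Real.log n := by
      rw [hl]
      field_simp
      ring
    rw [e1, Real.exp_sub, Real.exp_log hn0, mul_div_cancel₀ _ hn0.ne']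
    have e2 : Real.exp (-(m + t)) ≤ Real.exp (-1) * Real.exp (-(t / 2)) := by
      rw [← Real.exp_add]
      exact Real.exp_le_exp.2 (by linarith)
    have e3 : Real.exp (-1) ≤ 1 / 2 := by
      rw [Real.exp_neg, inv_le_comm₀ (Real.exp_pos _) (by norm_num)]
      have := Real.add_one_le_exp (1 : ℝ)
      linarith
    exact e2.trans (mul_le_mul_of_nonneg_right e3 (Real.exp_pos _).le)
  have hBd : (mu ρ).real {x : W n m | (t + 2) * (4 * (n * Real.sqrt s)) < nb x} ≤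
      1 / 2 * Real.exp (-(t / 2)) := by
    have h3 := btail ρ hρ.nonneg hρ.meas hρ.logc h1 nb nb_cont.measurable nb_add nb_smul
      (intg (mu ρ) (ball ρ hρ.meas hB) _ (nb_cont.pow 2)) nb_nonneg (n * Real.sqrt s)
      (by positivity) (by
        refine (int_nb ρ hρ hB h1 hm s hmom).trans (le_of_eq ?_)
        rw [mul_pow, Real.sq_sqrt hs.le]) (t + 2) (by linarith)
    refine h3.trans ?_
    have e2 : Real.exp (-(t + 2 + 1) / 2) ≤ Real.exp (-1) * Real.exp (-(t / 2)) := by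
      rw [← Real.exp_add]
      exact Real.exp_le_exp.2 (by linarith)
    have e3 : Real.exp (-1) ≤ 1 / 2 := by
      rw [Real.exp_neg, inv_le_comm₀ (Real.exp_pos _) (by norm_num)]
      have := Real.add_one_le_exp (1 : ℝ)
      linarith
    exact e2.trans (mul_le_mul_of_nonneg_right e3 (Real.exp_pos _).le)
  linarith

theorem sc (hH : S_HARDY0) (hS : S_SEQ0) (hU : S_UNT) (hO : S_OUT) (hT : S_TAIL0) :
    ∃ C : ℝ, 0 < C ∧ ∀ n m : ℕ, 1 ≤ n → 1 ≤ m →
      SC (GH n m) (C * (1 + Real.log n / m) ^ 2) := by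
  obtain ⟨C₁, hC₁, hloc⟩ := Loc.loc hH hS hU hO
  obtain ⟨C₂, hC₂, hT⟩ := hT
  refine ⟨40000 * (C₁ * (4 * C₂ ^ 2 + 578)), by positivity, ?_⟩
  intro n m hn hm ρ hρ hbd h1 s hs hmom f hf hf1
  have hprob : IsProbabilityMeasure (mu ρ) := ⟨h1⟩
  have hn1 : (1 : ℝ) ≤ n := by exact_mod_cast hn
  have hm1 : (1 : ℝ) ≤ m := by exact_mod_cast hm
  have hm0 : (0 : ℝ) < m := by linarith
  have hlog : 0 ≤ Real.log n := Real.log_nonneg hn1
  have hss : 0 < Real.sqrt s := Real.sqrt_pos.2 hs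
  obtain ⟨Λ, hΛ⟩ : ∃ Λ : ℝ, Λ = 1 + Real.log n / m := ⟨_, rfl⟩
  have hΛ1 : 1 ≤ Λ := by
    rw [hΛ]
    have : 0 ≤ Real.log n / m := by positivity
    linarith
  rw [← hΛ]
  have hball := ball ρ hρ.meas hbd
  have htail : ∀ t : ℝ, 1 ≤ t → mu ρ (lvl n m ((1 + (t + Real.log n) / m) * (C₂ * Real.sqrt s))
      (4 * (t + 2) * Real.sqrt s))ᶜ ≤ ENNReal.ofReal (Real.exp (-(t / 2))) := by
    intro t ht
    have h2 := tail (C := C₂) (fun {κ} _ _ => hT) hn hm ρ hρ hbd h1 s hs hmom t ht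
    rw [← ENNReal.ofReal_toReal (measure_ne_top (mu ρ) _)]
    exact ENNReal.ofReal_le_ofReal h2
  have hmain := Pool.Agent.TH594.KP.Mul.multi0 (mu ρ) hball
    (fun t => lvl n m ((1 + (t + Real.log n) / m) * (C₂ * Real.sqrt s))
      (4 * (t + 2) * Real.sqrt s))
    (fun t => (lvl_closed _ _).measurableSet)
    (fun t t' htt => lvl_mono
      (mul_le_mul_of_nonneg_right (by
        have : (t + Real.log n) / m ≤ (t' + Real.log n) / m :=
          div_le_div_of_nonneg_right (by linarith) hm0.le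
        linarith) (by positivity))
      (mul_le_mul_of_nonneg_right (by linarith) hss.le))
    htail
    (C₁ * (4 * C₂ ^ 2 + 578) * Λ ^ 2 * s) (by positivity)
    (fun t ht h hh => by
      have ht1 : 1 ≤ t := by linarith
      obtain ⟨a, ha⟩ : ∃ a : ℝ, a = (1 + (t + Real.log n) / m) * (C₂ * Real.sqrt s) := ⟨_, rfl⟩
      obtain ⟨c, hc⟩ : ∃ c : ℝ, c = 4 * (t + 2) * Real.sqrt s := ⟨_, rfl⟩
      have hta := htail t ht1
      rw [← ha, ← hc] at hta ⊢
      have ha0 : 0 < a := by rw [ha]; positivity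
      have hc0 : 0 < c := by rw [hc]; positivity
      obtain ⟨U, hU'⟩ : ∃ U : Set (W n m), U = lvl n m a c := ⟨_, rfl⟩
      have hUm : MeasurableSet U := by rw [hU']; exact (lvl_closed _ _).measurableSet
      rw [← hU'] at hta ⊢
      have hhalf : 1 / 2 ≤ (mu ρ U).toReal := by
        have h3 : (mu ρ).real Uᶜ ≤ Real.exp (-(t / 2)) := by
          rw [measureReal_def]
          exact ENNReal.toReal_le_of_le_ofReal (Real.exp_pos _).le hta
        rw [probReal_compl_eq_one_sub hUm] at h3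
        have h4 : Real.exp (-(t / 2)) ≤ 1 / 2 := by
          rw [Real.exp_neg, inv_le_comm₀ (Real.exp_pos _) (by norm_num)]
          have := Real.add_one_le_exp (t / 2)
          linarith
        rw [← measureReal_def]
        linarith
      have hD : GD (GH n m) (U.indicator ρ) := by rw [hU']; exact gd_lvl hρ a c
      have hres : mu (U.indicator ρ) = (mu ρ).restrict U := mu_indicator ρ U hUm
      have hle : ∀ x, U.indicator ρ x ≤ ρ x :=
        fun x => Set.indicator_le_self' (fun _ _ => hρ.nonneg _) x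
      have hbU : Bdd (U.indicator ρ) := by
        obtain ⟨R, hR⟩ := hbd
        refine ⟨R, fun x hx => le_antisymm ?_ (hD.nonneg x)⟩
        rw [← hR x hx]
        exact hle x
      have hfinU : mu (U.indicator ρ) univ ≠ ⊤ := by
        have := (mu_mono ρ (U.indicator ρ) hle univ).trans_eq h1
        exact ne_top_of_le_ne_top ENNReal.one_ne_top this
      have hneU : mu (U.indicator ρ) ≠ 0 := by
        intro h0
        rw [hres] at h0
        have h2 : mu ρ U = 0 := by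
          rw [← Measure.restrict_apply_univ, h0]
          simp
        rw [h2] at hhalf
        norm_num at hhalf
      have hLC : LC (U.indicator ρ) := ⟨hD.nonneg, hD.meas, hD.logc, hbU, hfinU, hneU⟩
      have hsU : ∀ x, U.indicator ρ x ≠ 0 → x ∈ lvl n m a c := by
        intro x hx
        by_contra hc
        refine hx ?_
        have : x ∉ U := by rw [hU']; exact hc
        rw [Set.indicator_of_notMem this]
      obtain ⟨c₀, hc₀⟩ := hloc hn (bl_surj hm) (U.indicator ρ) (gd_gg hD) hLC (gd_ex hD)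
        a (2 * c) (2 * s) ha0 (by positivity) (by positivity)
        (by
          intro θ
          rw [hres, Measure.restrict_apply_univ]
          have h2 : ∫ x in U, ⟪θ, x⟫_ℝ ^ 2 ∂(mu ρ) ≤ ∫ x, ⟪θ, x⟫_ℝ ^ 2 ∂(mu ρ) :=
            setIntegral_le_integral (intg (mu ρ) hball _ (by fun_prop))
              (ae_of_all _ fun x => by positivity)
          refine h2.trans ((hmom θ).trans ?_)
          have h5 : s * ‖θ‖ ^ 2 * 1 ≤ s * ‖θ‖ ^ 2 * (2 * (mu ρ U).toReal) :=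
            mul_le_mul_of_nonneg_left (by linarith) (by positivity)
          linarith)
        (fun x hx β => by
          rw [card_Bs]
          exact (hsU x hx).1 β)
        (fun x hx => by
          have h2 : nb x ≤ c * n := (hsU x hx).2
          have h3 : ∑ j, |⟪ee (bl n m) j, x⟫_ℝ| = nb x := rfl
          rw [h3]
          linarith)
        h hh
      rw [hres] at hc₀
      refine ⟨c₀, hc₀.trans (mul_le_mul_of_nonneg_right ?_ (integral_nonneg fun x => by positivity))⟩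
      have hsq := Real.sq_sqrt hs.le
      have e1 : a ≤ 2 * t * Λ * (C₂ * Real.sqrt s) := by
        rw [ha]
        refine mul_le_mul_of_nonneg_right ?_ (by positivity)
        have h2 : (t + Real.log n) / m ≤ t + t * (Real.log n / m) := by
          rw [add_div]
          have h3 : t / m ≤ t := div_le_self (by linarith) hm1
          have h4 : 1 * (Real.log n / m) ≤ t * (Real.log n / m) :=
            mul_le_mul_of_nonneg_right ht1 (by positivity)
          linarith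
        have h5 : 0 ≤ t * (Real.log n / m) := by positivity
        rw [hΛ]
        nlinarith
      have e2 : a ^ 2 ≤ 4 * C₂ ^ 2 * (Λ ^ 2 * s * t ^ 2) := by
        calc a ^ 2 ≤ (2 * t * Λ * (C₂ * Real.sqrt s)) ^ 2 := pow_le_pow_left₀ ha0.le e1 2
          _ = 4 * C₂ ^ 2 * (Λ ^ 2 * Real.sqrt s ^ 2 * t ^ 2) := by ring
          _ = _ := by rw [hsq]
      have hΛs : s * t ^ 2 ≤ Λ ^ 2 * s * t ^ 2 := by
        have h2 : 1 ≤ Λ ^ 2 := one_le_pow₀ hΛ1
        have h3 : 0 ≤ s * t ^ 2 := by positivity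
        nlinarith
      have e3 : (2 * c) ^ 2 ≤ 576 * (Λ ^ 2 * s * t ^ 2) := by
        have h2 : 2 * c ≤ 24 * t * Real.sqrt s := by
          rw [hc]
          nlinarith
        calc (2 * c) ^ 2 ≤ (24 * t * Real.sqrt s) ^ 2 := pow_le_pow_left₀ (by positivity) h2 2
          _ = 576 * (Real.sqrt s ^ 2 * t ^ 2) := by ring
          _ = 576 * (s * t ^ 2) := by rw [hsq]
          _ ≤ _ := by linarith
      have e4 : 2 * s ≤ 2 * (Λ ^ 2 * s * t ^ 2) := by
        have h2 : 1 ≤ t ^ 2 := one_le_pow₀ ht1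
        nlinarith
      calc C₁ * (a ^ 2 + (2 * c) ^ 2 + 2 * s) ≤
            C₁ * (4 * C₂ ^ 2 * (Λ ^ 2 * s * t ^ 2) + 576 * (Λ ^ 2 * s * t ^ 2) +
              2 * (Λ ^ 2 * s * t ^ 2)) := mul_le_mul_of_nonneg_left (by linarith) hC₁.le
        _ = C₁ * (4 * C₂ ^ 2 + 578) * Λ ^ 2 * s * t ^ 2 := by ring)
    f hf hf1
  refine hmain.trans (le_of_eq ?_)
  ring

end Core

end Pool.Agent.TH597.HX
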