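import Pool.Agent.TH597.HX.Unt
import Pool.Agent.TH594.KP.Core

/-!
# The Poincaré inequality under the support conditions

Adapted from `TH594.KP.Core`.
-/

set_option autoImplicit false

namespace Pool.Agent.TH597.HX

open MeasureTheory Set
open scoped ENNReal InnerProductSpace
open Pool.Agent.H212R2.KLS (mu Bdd)
open Pool.Agent.H888R2.KT (LC St tw)
open Pool.Agent.H888R2.KT.G2x (mu_indicator integral_mu_mul mu_mono intg)
open Pool.Agent.TH594.KP (V GD GG swp P Bs ev ed gd_tilt tilt_st tw_cont ed_fix sum_ed orth sym)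

namespace Loc

variable {ι : Type} [Fintype ι] [DecidableEq ι] {n : ℕ}

/-- the directions of the blocks -/
noncomputable def ee (b : ι → Fin n) (j : Fin n) : V (ι × Fin 1) := ev (δ := Fin 1) b (j, 0)

theorem sum_ee (b : ι → Fin n) (F : V (ι × Fin 1) → ℝ) :
    ∑ j, F (ed (Fin 1) b j) = ∑ j, F (ee b j) := by
  rw [sum_ed b F, Fintype.sum_prod_type]
  refine Finset.sum_congr rfl fun j _ => ?_
  simp [ee]

theorem orth_ee {b : ι → Fin n} (hb : Function.Surjective b) : Orthonormal ℝ (ee b) := by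
  rw [orthonormal_iff_ite]
  intro i j
  unfold ee
  rw [Pool.Agent.TH594.KP.inner_ev_ev hb]
  by_cases h : i = j
  · subst h
    simp
  · rw [if_neg, if_neg h]
    intro h2
    exact h (congrArg Prod.fst h2)

theorem ee_fix (b : ι → Fin n) : ∀ g ∈ GG (Fin 1) b, ∀ j, g (ee b j) = ee b j := by
  rintro g ⟨k, l, hkl, rfl⟩ j
  exact Pool.Agent.TH594.KP.swp_ev b _ k l hkl

theorem st_ed {b : ι → Fin n} {K : ℝ} {ρ : V (ι × Fin 1) → ℝ} (h : St (ee b) K ρ) :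
    St (ed (Fin 1) b) K ρ := by
  intro x y
  rw [sum_ee b fun e => ⟪e, x - y⟫_ℝ ^ 2]
  exact h x y

/-- the Poincare inequality for the tilted densities -/
theorem inner (hH : S_HARDY0) (hS : S_SEQ0) : ∃ C : ℝ, 0 < C ∧
    ∀ {ι : Type} [Fintype ι] [DecidableEq ι] {n : ℕ} {b : ι → Fin n}, Function.Surjective b →
    ∀ ρ : V (ι × Fin 1) → ℝ, GD (GG (Fin 1) b) ρ → LC ρ → ∀ a : ℝ, 0 < a →
    (∀ x, ρ x ≠ 0 → ∀ s, dev b s x ≤ a * ((Bs b s).card : ℝ) ^ 2) →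
    ∀ K : ℝ, 0 < K → C * a ^ 2 ≤ K → ∀ (τ : V (Fin n)) (f : V (ι × Fin 1) → ℝ),
    ContDiff ℝ 1 f → ∃ c : ℝ, ∫ x, (f x - c) ^ 2 * tw (ee b) K τ x ∂(mu ρ) ≤
      5 * K * ∫ x, ‖fderiv ℝ f x‖ ^ 2 * tw (ee b) K τ x ∂(mu ρ) := by
  obtain ⟨C, hC, hHardy⟩ := hH
  refine ⟨C, hC, ?_⟩
  intro ι _ _ n b hb ρ hD hLC a ha hsupp K hK0 hLK τ g hg
  obtain ⟨L, hL⟩ : ∃ L : ℝ, L = C * a ^ 2 := ⟨_, rfl⟩
  have hL0 : 0 < L := by rw [hL]; positivity
  rw [← hL] at hLK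
  have hfix := ee_fix b
  have hD' : GD (GG (Fin 1) b) (fun x => ρ x * tw (ee b) K τ x) :=
    gd_tilt hD (ee b) hfix K hK0 τ
  have hT' : St (ee b) K (fun x => ρ x * tw (ee b) K τ x) := tilt_st hD (ee b) K hK0 τ
  have hw0 : ∀ x : V (ι × Fin 1), 0 ≤ tw (ee b) K τ x := fun x => (Real.exp_pos _).le
  have hwm : Measurable fun x : V (ι × Fin 1) => tw (ee b) K τ x := (tw_cont _ K τ).measurable
  have hw1 : ∀ x : V (ι × Fin 1), tw (ee b) K τ x ≤ 1 := fun x => by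
    unfold tw
    rw [Real.exp_le_one_iff, neg_nonpos]
    positivity
  have hle' : ∀ x, ρ x * tw (ee b) K τ x ≤ ρ x :=
    fun x => mul_le_of_le_one_right (hD.nonneg x) (hw1 x)
  have hb' : Bdd (fun x => ρ x * tw (ee b) K τ x) := by
    obtain ⟨R, hR⟩ := hLC.bdd
    exact ⟨R, fun x hx => by simp only [hR x hx, zero_mul]⟩
  have hfin' : mu (fun x => ρ x * tw (ee b) K τ x) univ ≠ ⊤ :=
    ne_top_of_le_ne_top hLC.fin (mu_mono ρ _ hle' univ)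
  have hne' : mu (fun x => ρ x * tw (ee b) K τ x) ≠ 0 := by
    intro h0
    refine hLC.ne ?_
    have h2 : (mu (fun x => ρ x * tw (ee b) K τ x)) univ = 0 := by
      rw [h0]; rfl
    rw [mu, withDensity_apply _ MeasurableSet.univ, Measure.restrict_univ,
      lintegral_eq_zero_iff (hD'.meas.ennreal_ofReal)] at h2
    rw [mu]
    have h3 : (fun x => ENNReal.ofReal (ρ x)) =ᵐ[volume] 0 := by
      filter_upwards [h2] with x hx
      have hx' : ENNReal.ofReal (ρ x * tw (ee b) K τ x) = 0 := hx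
      rw [ENNReal.ofReal_eq_zero] at hx'
      show ENNReal.ofReal (ρ x) = 0
      rw [ENNReal.ofReal_eq_zero]
      by_contra hc
      rw [not_le] at hc
      have : 0 < ρ x * tw (ee b) K τ x := mul_pos hc (Real.exp_pos _)
      linarith
    exact (withDensity_congr_ae h3).trans (by simp)
  have hLC' : LC (fun x => ρ x * tw (ee b) K τ x) :=
    ⟨hD'.nonneg, hD'.meas, hD'.logc, hb', hfin', hne'⟩
  have hsupp' : ∀ x, ρ x * tw (ee b) K τ x ≠ 0 → ρ x ≠ 0 := by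
    intro x hx h0
    refine hx ?_
    rw [h0, zero_mul]
  have hodd : ∀ (k l : ι) (f : V (ι × Fin 1) → ℝ), k ≠ l → b k = b l → ContDiff ℝ 1 f →
      (∀ x, f (swp k l x) = - f x) → ∫ x, f x ^ 2 ∂(mu (fun x => ρ x * tw (ee b) K τ x)) ≤
      L * ∫ x, ‖fderiv ℝ f x‖ ^ 2 ∂(mu (fun x => ρ x * tw (ee b) K τ x)) := by
    intro k l f hkl hbkl hf h
    rw [hL]
    exact hHardy hD' hLC' a ha k l hkl hbkl (fun x hx => hsupp x (hsupp' x hx) (b k)) f hf h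
  obtain ⟨c, hc⟩ := hS hD' hLC' (4 * K) (by positivity)
    (fun k l f hkl hbkl hf h => (hodd k l f hkl hbkl hf h).trans (mul_le_mul_of_nonneg_right
      (by linarith) (integral_nonneg fun x => by positivity)))
    (fun u hu hu' => sym hb hD' hLC' L hL0 hodd K hLK (st_ed hT') u hu hu') g hg
  rw [integral_mu_mul _ _ _ hD.nonneg hD.meas hw0 hwm,
    integral_mu_mul _ _ _ hD.nonneg hD.meas hw0 hwm] at hc
  refine ⟨c, hc.trans (mul_le_mul_of_nonneg_right (by linarith) ?_)⟩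
  exact integral_nonneg fun x => mul_nonneg (by positivity) (hw0 x)

/-- the Poincare inequality under the support conditions -/
theorem loc (hH : S_HARDY0) (hS : S_SEQ0) (hU : S_UNT) (hO : S_OUT) : ∃ C : ℝ, 0 < C ∧
    ∀ {ι : Type} [Fintype ι] [DecidableEq ι] {n : ℕ}, 1 ≤ n → ∀ {b : ι → Fin n},
    Function.Surjective b →
    ∀ ρ : V (ι × Fin 1) → ℝ, GD (GG (Fin 1) b) ρ → LC ρ →
    (∀ π : Equiv.Perm (Fin n), ∃ g : V (ι × Fin 1) ≃ₗᵢ[ℝ] V (ι × Fin 1),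
      (∀ x, ρ (g x) = ρ x) ∧ ∀ j, g (ee b j) = ee b (π j)) →
    ∀ a c s : ℝ, 0 < a → 0 < c → 0 < s →
    (∀ θ : V (ι × Fin 1), ∫ x, ⟪θ, x⟫_ℝ ^ 2 ∂(mu ρ) ≤ s * ‖θ‖ ^ 2 * (mu ρ univ).toReal) →
    (∀ x, ρ x ≠ 0 → ∀ s, dev b s x ≤ a * ((Bs b s).card : ℝ) ^ 2) →
    (∀ x, ρ x ≠ 0 → 2 * ∑ j, |⟪ee b j, x⟫_ℝ| ≤ c * n) →
    ∀ f : V (ι × Fin 1) → ℝ, ContDiff ℝ 1 f → ∃ c₀ : ℝ, ∫ x, (f x - c₀) ^ 2 ∂(mu ρ) ≤
      C * (a ^ 2 + c ^ 2 + s) * ∫ x, ‖fderiv ℝ f x‖ ^ 2 ∂(mu ρ) := by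
  obtain ⟨C₁, hC₁, hin⟩ := inner hH hS
  obtain ⟨C₂, hC₂, hout⟩ := hO
  refine ⟨10 * (C₁ + 1) + 50 * C₂ * (20 * (C₁ + 1)), by positivity, ?_⟩
  intro ι _ _ n hn b hb ρ hD hLC hex a c s ha hc hs hmom hs1 hs2 f hf
  have hne : NeZero (mu ρ) := ⟨hLC.ne⟩
  have hfi : IsFiniteMeasure (mu ρ) := ⟨lt_top_iff_ne_top.2 hLC.fin⟩
  have hbd : ∃ R, mu ρ (Metric.closedBall 0 R)ᶜ = 0 := by
    obtain ⟨R, hR⟩ := hLC.bdd
    refine ⟨R, ?_⟩
    rw [mu, withDensity_apply_eq_zero' (hLC.meas.ennreal_ofReal.aemeasurable)]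
    refine measure_mono_null ?_ (measure_empty (μ := (volume : Measure (V (ι × Fin 1)))))
    intro x hx
    refine hx.1 ?_
    have : R < ‖x‖ := by simpa using hx.2
    simp [hR x this]
  obtain ⟨K, hK⟩ : ∃ K : ℝ, K = C₁ * a ^ 2 + s := ⟨_, rfl⟩
  have hK0 : 0 < K := by rw [hK]; positivity
  obtain ⟨c', hc'⟩ : ∃ c' : ℝ, c' = c + Real.sqrt (8 * K) := ⟨_, rfl⟩
  have hsq : Real.sqrt (8 * K) ^ 2 = 8 * K := Real.sq_sqrt (by positivity)
  have hsq0 : 0 ≤ Real.sqrt (8 * K) := Real.sqrt_nonneg _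
  have hc'0 : 0 < c' := by rw [hc']; positivity
  have h8 : 8 * K ≤ c' ^ 2 := by
    rw [hc']
    nlinarith [mul_nonneg hc.le hsq0, sq_nonneg c]
  have hn0 : (0 : ℝ) ≤ n := Nat.cast_nonneg n
  obtain ⟨hlow, hZ⟩ := hout hn ρ hLC (ee b) (orth_ee hb) hex K s c' hK0 hs hc'0 hmom
    (fun x hx => (hs2 x hx).trans (mul_le_mul_of_nonneg_right (by rw [hc']; linarith) hn0)) h8
  have hUm : MeasurableSet {τ : V (Fin n) | ∑ j, |τ j| ≤ c' * n} :=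
    (isClosed_le (by fun_prop) continuous_const).measurableSet
  have h6 : ∀ᵐ x ∂(mu ρ), ρ x ≠ 0 := by
    rw [ae_iff, mu, withDensity_apply_eq_zero' (hLC.meas.ennreal_ofReal.aemeasurable)]
    refine measure_mono_null ?_ (measure_empty (μ := (volume : Measure (V (ι × Fin 1)))))
    intro x hx
    refine hx.1 ?_
    have h7 : ρ x = 0 := by
      have := hx.2
      simpa using this
    simp [h7]
  obtain ⟨c₀, hc₀⟩ := hU (mu ρ) hbd (ee b) (orth_ee hb) K hK0 _ hUm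
    (C₂ * (c' ^ 2 + s + K)) (by positivity) hZ
    (by filter_upwards [h6] with x hx; exact hlow x hx)
    (fun τ f hf => hin hb ρ hD hLC a ha hs1 K hK0 (by rw [hK]; linarith) τ f hf) f hf
  refine ⟨c₀, hc₀.trans (mul_le_mul_of_nonneg_right ?_ (integral_nonneg fun x => by positivity))⟩
  have e1 : K ≤ (C₁ + 1) * (a ^ 2 + c ^ 2 + s) := by
    rw [hK]
    nlinarith [sq_nonneg a, sq_nonneg c, mul_nonneg hC₁.le (sq_nonneg c), mul_nonneg hC₁.le hs.le]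
  have e2 : c' ^ 2 ≤ 2 * c ^ 2 + 16 * K := by
    rw [hc']
    nlinarith [sq_nonneg (c - Real.sqrt (8 * K))]
  have e3 : c' ^ 2 + s + K ≤ 20 * ((C₁ + 1) * (a ^ 2 + c ^ 2 + s)) := by
    have e4 : a ^ 2 + c ^ 2 + s ≤ (C₁ + 1) * (a ^ 2 + c ^ 2 + s) := by
      have : 0 ≤ C₁ * (a ^ 2 + c ^ 2 + s) := by positivity
      linarith
    nlinarith [sq_nonneg a, sq_nonneg c]
  have e5 : C₂ * (c' ^ 2 + s + K) ≤ C₂ * (20 * ((C₁ + 1) * (a ^ 2 + c ^ 2 + s))) :=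
    mul_le_mul_of_nonneg_left e3 hC₂.le
  calc 2 * (5 * K + 25 * (C₂ * (c' ^ 2 + s + K)))
      ≤ 2 * (5 * ((C₁ + 1) * (a ^ 2 + c ^ 2 + s)) +
        25 * (C₂ * (20 * ((C₁ + 1) * (a ^ 2 + c ^ 2 + s))))) := by linarith
    _ = (10 * (C₁ + 1) + 50 * C₂ * (20 * (C₁ + 1))) * (a ^ 2 + c ^ 2 + s) := by ring

end Loc

end Pool.Agent.TH597.HX
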