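import Pool.Agent.TH597.HX.Core

/-!
# Arrays `x (β, i)`, `β < n`, `i < m`: the final forms
-/

set_option autoImplicit false

namespace Pool.Agent.TH597.HX

open MeasureTheory Set
open scoped ENNReal InnerProductSpace
open Pool.Agent.H212R2.KLS (mu Bdd)
open Pool.Agent.H888R2.KT (LC St tw)
open Pool.Agent.TH594.KP (V GD GG swp SC full mainc swp_apply)
open Arr

namespace Main

/-! ### transport -/

section iso

variable {κ κ' : Type} [Fintype κ] [Fintype κ']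

theorem mu_map (T : V κ ≃ₗᵢ[ℝ] V κ') (ρ : V κ' → ℝ) (hm : Measurable ρ) :
    (mu (fun x => ρ (T x))).map T = mu ρ := by
  have hT : MeasurePreserving (T : V κ → V κ') volume volume := T.measurePreserving
  ext s hs
  rw [Measure.map_apply hT.measurable hs]
  unfold mu
  rw [withDensity_apply _ hs, withDensity_apply _ (hT.measurable hs)]
  exact hT.setLIntegral_comp_preimage hs (f := fun x => ENNReal.ofReal (ρ x)) hm.ennreal_ofReal

theorem int_map (T : V κ ≃ₗᵢ[ℝ] V κ') (ρ : V κ' → ℝ) (hm : Measurable ρ) (F : V κ' → ℝ) :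
    ∫ x, F x ∂(mu ρ) = ∫ x, F (T x) ∂(mu (fun x => ρ (T x))) := by
  conv_lhs => rw [← mu_map T ρ hm]
  exact T.toHomeomorph.measurableEmbedding.integral_map F

theorem norm_fd (T : V κ ≃ₗᵢ[ℝ] V κ') (f : V κ' → ℝ) (hf : ContDiff ℝ 1 f)
    (x : V κ) : ‖fderiv ℝ (fun y => f (T y)) x‖ = ‖fderiv ℝ f (T x)‖ := by
  have h1 : fderiv ℝ (fun y => f (T y)) x =
      (fderiv ℝ f (T x)).comp (T.toContinuousLinearEquiv : V κ →L[ℝ] V κ') := by
    have h2 : DifferentiableAt ℝ f (T x) := (hf.differentiable one_ne_zero).differentiableAt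
    have h3 : HasFDerivAt (fun y => T y) (T.toContinuousLinearEquiv : V κ →L[ℝ] V κ') x :=
      T.toContinuousLinearEquiv.hasFDerivAt
    exact (h2.hasFDerivAt.comp x h3).fderiv
  rw [h1]
  exact ContinuousLinearMap.opNorm_comp_linearIsometryEquiv _ T

theorem sc_iso (T : V κ ≃ₗᵢ[ℝ] V κ') (G : Set (V κ ≃ₗᵢ[ℝ] V κ)) (G' : Set (V κ' ≃ₗᵢ[ℝ] V κ'))
    (hG : ∀ g ∈ G, T.symm.trans (g.trans T) ∈ G') {C : ℝ} (h : SC G C) : SC G' C := by
  intro ρ hρ hbd h1 s hs hmom f hf hf1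
  have hρ' : GD G (fun x => ρ (T x)) := by
    refine ⟨fun x => hρ.nonneg _, hρ.meas.comp T.continuous.measurable, ?_, ?_⟩
    · intro x y t ht0 ht1
      have h2 := hρ.logc (T x) (T y) t ht0 ht1
      rw [← map_smul, ← map_smul, ← map_add] at h2
      exact h2
    · intro g hg x
      have h2 := hρ.inv _ (hG g hg) (T x)
      simp only [LinearIsometryEquiv.trans_apply, LinearIsometryEquiv.symm_apply_apply] at h2
      exact h2
  have hbd' : Bdd (fun x => ρ (T x)) := by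
    obtain ⟨R, hR⟩ := hbd
    refine ⟨R, fun x hx => hR (T x) ?_⟩
    rw [T.norm_map]
    exact hx
  have h1' : mu (fun x => ρ (T x)) univ = 1 := by
    have h2 := congrArg (fun m : Measure (V κ') => m univ) (mu_map T ρ hρ.meas)
    rw [Measure.map_apply T.continuous.measurable MeasurableSet.univ, preimage_univ, h1] at h2
    exact h2
  have hmom' : ∀ θ : V κ, ∫ x, ⟪θ, x⟫_ℝ ^ 2 ∂(mu fun x => ρ (T x)) ≤ s * ‖θ‖ ^ 2 := by
    intro θ
    have h2 := hmom (T θ)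
    rw [int_map T ρ hρ.meas, T.norm_map] at h2
    simpa only [T.inner_map_map] using h2
  have hf' : ContDiff ℝ 1 (fun x => f (T x)) := hf.comp T.toContinuousLinearEquiv.contDiff
  have h2 := h _ hρ' hbd' h1' s hs hmom' (fun x => f (T x)) hf'
    (fun x => by rw [norm_fd T f hf]; exact hf1 _)
  rw [int_map T ρ hρ.meas, int_map T ρ hρ.meas f]
  exact h2

end iso

/-! ### arrays -/

/-- arrays `x (β, i)` -/
abbrev A (n m : ℕ) : Type := V (Fin n × Fin m)

/-- permutations of the blocks and of the coordinates inside each block -/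
def GA (n m : ℕ) : Set (A n m ≃ₗᵢ[ℝ] A n m) :=
  {g | ∃ (π : Equiv.Perm (Fin n)) (σ : Fin n → Equiv.Perm (Fin m)),
    ∀ (x : A n m) (β : Fin n) (i : Fin m), g x (β, i) = x (π β, σ β i)}

/-- forgetting the trivial index -/
noncomputable def TT (n m : ℕ) : W n m ≃ₗᵢ[ℝ] A n m :=
  LinearIsometryEquiv.piLpCongrLeft 2 ℝ ℝ (Equiv.prodUnique (I n m) (Fin 1))

theorem TT_apply {n m : ℕ} (x : W n m) (p : I n m) : TT n m x p = x (p, 0) := by
  unfold TT
  rw [LinearIsometryEquiv.piLpCongrLeft_apply]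
  rfl

theorem TT_symm_apply {n m : ℕ} (x : A n m) (p : I n m) (c : Fin 1) :
    (TT n m).symm x (p, c) = x p := by
  have hc : c = 0 := Subsingleton.elim _ _
  subst hc
  rw [← TT_apply, LinearIsometryEquiv.apply_symm_apply]

theorem gh_ga {n m : ℕ} : ∀ g ∈ GH n m, (TT n m).symm.trans (g.trans (TT n m)) ∈ GA n m := by
  rintro g (⟨k, l, hkl, rfl⟩ | ⟨π, rfl⟩)
  · obtain ⟨β₀, i₀⟩ := k
    obtain ⟨β₁, j₀⟩ := l
    have hβ : β₀ = β₁ := hkl
    subst hβ
    refine ⟨1, fun β => if β = β₀ then Equiv.swap i₀ j₀ else 1, fun x β i => ?_⟩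
    simp only [LinearIsometryEquiv.trans_apply]
    rw [TT_apply, swp_apply, TT_symm_apply]
    refine congrArg (fun q => x q) ?_
    show Equiv.swap (β₀, i₀) (β₀, j₀) (β, i) = (β, (if β = β₀ then Equiv.swap i₀ j₀ else 1) i)
    by_cases h : β = β₀
    · subst h
      rw [if_pos rfl]
      by_cases h1 : i = i₀
      · subst h1
        rw [Equiv.swap_apply_left, Equiv.swap_apply_left]
      · by_cases h2 : i = j₀
        · subst h2
          rw [Equiv.swap_apply_right, Equiv.swap_apply_right]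
        · rw [Equiv.swap_apply_of_ne_of_ne h1 h2, Equiv.swap_apply_of_ne_of_ne]
          · intro h3
            exact h1 (congrArg Prod.snd h3)
          · intro h3
            exact h2 (congrArg Prod.snd h3)
    · rw [if_neg h, Equiv.swap_apply_of_ne_of_ne]
      · rfl
      · intro h3
        exact h (congrArg Prod.fst h3)
      · intro h3
        exact h (congrArg Prod.fst h3)
  · refine ⟨π.symm, fun _ => 1, fun x β i => ?_⟩
    simp only [LinearIsometryEquiv.trans_apply]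
    rw [TT_apply, bp_apply, TT_symm_apply]
    rfl

/-- the factor -/
noncomputable def fac (n m : ℕ) : ℝ := (1 + Real.log n / m) ^ 2

theorem fac_pos (n m : ℕ) : 0 < fac n m := by
  unfold fac
  have h : 0 ≤ Real.log n := Real.log_natCast_nonneg n
  positivity

theorem sqrt_fac (n m : ℕ) : Real.sqrt (fac n m) = 1 + Real.log n / m := by
  unfold fac
  have h : 0 ≤ Real.log n := Real.log_natCast_nonneg n
  rw [Real.sqrt_sq (by positivity)]

theorem sca (hH : S_HARDY0) (hS : S_SEQ0) (hU : S_UNT) (hO : S_OUT) (hT : S_TAIL0) :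
    ∃ C : ℝ, 0 < C ∧ ∀ n m : ℕ, 1 ≤ n → 1 ≤ m → SC (GA n m) (C * fac n m) := by
  obtain ⟨C, hC, H⟩ := Core.sc hH hS hU hO hT
  exact ⟨C, hC, fun n m hn hm => sc_iso (TT n m) (GH n m) (GA n m) gh_ga (H n m hn hm)⟩

/-- the density does not change under the permutations -/
theorem gd_of {n m : ℕ} {ρ : A n m → ℝ} (hnn : ∀ x, 0 ≤ ρ x) (hmeas : Measurable ρ)
    (hlc : ∀ x y, ∀ t : ℝ, 0 < t → t < 1 → ρ x ^ (1 - t) * ρ y ^ t ≤ ρ ((1 - t) • x + t • y))
    (hinv : ∀ (π : Equiv.Perm (Fin n)) (σ : Fin n → Equiv.Perm (Fin m)) (x y : A n m),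
      (∀ β i, y (β, i) = x (π β, σ β i)) → ρ y = ρ x) : GD (GA n m) ρ :=
  ⟨hnn, hmeas, hlc, by
    rintro g ⟨π, σ, hg⟩ x
    exact hinv π σ x (g x) (hg x)⟩

/-- sets invariant under the permutations -/
theorem set_of {n m : ℕ} {D : Set (A n m)}
    (hinv : ∀ (π : Equiv.Perm (Fin n)) (σ : Fin n → Equiv.Perm (Fin m)) (x y : A n m),
      (∀ β i, y (β, i) = x (π β, σ β i)) → x ∈ D → y ∈ D) :
    ∀ g ∈ GA n m, ∀ x, g x ∈ D ↔ x ∈ D := by
  rintro g ⟨π, σ, hg⟩ x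
  refine ⟨fun h => ?_, fun h => hinv π σ x (g x) (hg x) h⟩
  refine hinv π.symm (fun β => (σ (π.symm β)).symm) (g x) x (fun β i => ?_) h
  rw [hg, Equiv.apply_symm_apply, Equiv.apply_symm_apply]

/-- the weak Poincare inequality, second moments, invariance under all isometries which preserve a
set `D` invariant under the permutations -/
theorem weakD (hH : S_HARDY0) (hS : S_SEQ0) (hU : S_UNT) (hO : S_OUT) (hT : S_TAIL0) :
    ∃ C : ℝ, 0 < C ∧ ∀ n m : ℕ, 1 ≤ n → 1 ≤ m → ∀ D : Set (A n m),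
    (∀ g ∈ GA n m, ∀ x, g x ∈ D ↔ x ∈ D) →
    ∀ ρ : A n m → ℝ, (∀ x, 0 ≤ ρ x) → Measurable ρ →
    (∀ x y, ∀ t : ℝ, 0 < t → t < 1 → ρ x ^ (1 - t) * ρ y ^ t ≤ ρ ((1 - t) • x + t • y)) →
    (∀ e : A n m ≃ₗᵢ[ℝ] A n m, (∀ x, e x ∈ D ↔ x ∈ D) → ∀ x, ρ (e x) = ρ x) →
    mu ρ univ = 1 → ∀ s : ℝ, 0 < s → (∀ θ : A n m,
      ∫⁻ x, ENNReal.ofReal (⟪θ, x⟫_ℝ ^ 2) ∂(mu ρ) ≤ ENNReal.ofReal (s * ‖θ‖ ^ 2)) →
    ∀ v : A n m → ℝ, ContDiff ℝ 1 v → (∀ x, |v x| ≤ 1) →
    ENNReal.ofReal ((∫ x, (v x - ∫ y, v y ∂(mu ρ)) ^ 2 ∂(mu ρ)) ^ 2) ≤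
      ENNReal.ofReal (C * fac n m * s) * ∫⁻ x, ENNReal.ofReal (‖fderiv ℝ v x‖ ^ 2) ∂(mu ρ) := by
  obtain ⟨C, hC, H⟩ := sca hH hS hU hO hT
  refine ⟨8 * C, by positivity, ?_⟩
  intro n m hn hm D hD ρ hnn hmeas hlc hiso h1 s hs hmom v hv hvb
  have hG : GD (GA n m) ρ := ⟨hnn, hmeas, hlc, fun g hg x => hiso g (hD g hg) x⟩
  have key := mainc (mul_pos hC (fac_pos n m)) (H n m hn hm) ρ hG h1 s hs hmom v hv hvb
  have e : 8 * (C * fac n m) * s = 8 * C * fac n m * s := by ring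
  rw [e] at key
  exact key

end Main

end Pool.Agent.TH597.HX
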