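import Pool.Agent.TH597.HX.Out
import Pool.Agent.TH597.HX.Main

/-!
# The local Poincare property of a set of symmetries
-/

set_option autoImplicit false

namespace Pool.Agent.TH597.HX

open MeasureTheory Set Filter
open scoped ENNReal InnerProductSpace Topology
open Pool.Agent.H212R2.KLS (mu Bdd)
open Pool.Agent.H888R2.KT (LC St tw tw_deriv tw_fub tw_lc)
open Pool.Agent.H888R2.KT.V4bx (w)
open Pool.Agent.H888R2.KT.G2x (mu_indicator integral_mu_mul mu_mono intg)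
open Pool.Agent.TH594.KP (V GD GG gd_indicator gd_ball gd_smul SC)
open Out

/-- The local Poincare property of the set `G` of symmetries of `ℝ^κ`, with the norm `N` -/
structure LPP {κ : Type} [Fintype κ] (G : Set (V κ ≃ₗᵢ[ℝ] V κ)) (D B : ℝ) (N : V κ → ℝ) :
    Prop where
  add : ∀ x y, N (x + y) ≤ N x + N y
  smul : ∀ (c : ℝ) (x : V κ), N (c • x) = |c| * N x
  closed : ∀ r : ℝ, IsClosed {x | N x ≤ r}
  bdd : ∃ R : ℝ, ∀ x, ‖x‖ ≤ R * N x
  inv : ∀ g ∈ G, ∀ x, N (g x) = N x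
  poi : ∀ ρ : V κ → ℝ, GD G ρ → LC ρ → ∀ a s : ℝ, 0 < a → 0 < s →
    (∀ θ : V κ, ∫ x, ⟪θ, x⟫_ℝ ^ 2 ∂(mu ρ) ≤ s * ‖θ‖ ^ 2 * (mu ρ univ).toReal) →
    (∀ x, ρ x ≠ 0 → N x ≤ a) → ∀ f : V κ → ℝ, ContDiff ℝ 1 f →
    ∃ c : ℝ, ∫ x, (f x - c) ^ 2 ∂(mu ρ) ≤ D * (a ^ 2 + s) * ∫ x, ‖fderiv ℝ f x‖ ^ 2 ∂(mu ρ)
  tail : ∀ ρ : V κ → ℝ, GD G ρ → Bdd ρ → mu ρ univ = 1 → ∀ s : ℝ, 0 < s →
    (∀ θ : V κ, ∫ x, ⟪θ, x⟫_ℝ ^ 2 ∂(mu ρ) ≤ s * ‖θ‖ ^ 2) →
    3 / 4 ≤ (mu ρ).real {x | N x ≤ B * Real.sqrt s}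

namespace Lpp

variable {κ : Type} [Fintype κ] {G : Set (V κ ≃ₗᵢ[ℝ] V κ)} {D B : ℝ} {N : V κ → ℝ}

theorem meas (h : LPP G D B N) : Measurable N := measurable_of_Iic fun r => (h.closed r).measurableSet

theorem nonneg (h : LPP G D B N) (x : V κ) : 0 ≤ N x := by
  have h1 := h.add x ((-1 : ℝ) • x)
  rw [h.smul] at h1
  have h2 : N (x + (-1 : ℝ) • x) = 0 := by
    have e : x + (-1 : ℝ) • x = (0 : ℝ) • x := by
      rw [neg_one_smul, add_neg_cancel, zero_smul]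
    rw [e, h.smul, abs_zero, zero_mul]
  rw [h2, abs_neg, abs_one, one_mul] at h1
  linarith

theorem neg (h : LPP G D B N) (x : V κ) : N (-x) = N x := by
  have h1 := h.smul (-1) x
  rw [neg_one_smul, abs_neg, abs_one, one_mul] at h1
  exact h1

theorem convex (h : LPP G D B N) (r : ℝ) : Convex ℝ {x | N x ≤ r} := Arr.conv N h.add h.smul r

theorem ball_of {ρ : V κ → ℝ} (hm : Measurable ρ) (hb : Bdd ρ) :
    ∃ R, (mu ρ) (Metric.closedBall 0 R)ᶜ = 0 := by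
  obtain ⟨R, hR⟩ := hb
  refine ⟨R, ?_⟩
  rw [mu, withDensity_apply_eq_zero' (hm.ennreal_ofReal.aemeasurable)]
  refine measure_mono_null ?_ (measure_empty (μ := (volume : Measure (V κ))))
  intro x hx
  refine hx.1 ?_
  have : R < ‖x‖ := by simpa using hx.2
  simp [hR x this]

theorem ae_ne {ρ : V κ → ℝ} (hm : Measurable ρ) : ∀ᵐ x ∂(mu ρ), ρ x ≠ 0 := by
  rw [ae_iff, mu, withDensity_apply_eq_zero' (hm.ennreal_ofReal.aemeasurable)]
  refine measure_mono_null ?_ (measure_empty (μ := (volume : Measure (V κ))))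
  intro x hx
  refine hx.1 ?_
  have h7 : ρ x = 0 := by
    have := hx.2
    simpa using this
  simp [h7]

/-- integrals with respect to the normalised restriction -/
theorem int_norm (Z : V κ → ℝ) (hZ0 : ∀ x, 0 ≤ Z x) (hZm : Measurable Z) (U : Set (V κ))
    (hUm : MeasurableSet U) (c : ℝ) (hc : 0 ≤ c) (h : V κ → ℝ) :
    ∫ x, h x ∂(mu fun x => c * U.indicator Z x) = c * ∫ x in U, h x * Z x := by
  rw [Pool.Agent.H212R2.KLS.g2_mu Z hZ0 hZm U hUm c hc, integral_smul_measure,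
    ENNReal.toReal_ofReal hc, smul_eq_mul]
  have hmZ : (mu Z).restrict U = ((volume : Measure (V κ)).restrict U).withDensity
      (fun τ => ENNReal.ofReal (Z τ)) := by
    rw [mu, restrict_withDensity hUm]
  rw [hmZ, integral_withDensity_eq_integral_toReal_smul hZm.ennreal_ofReal
        (ae_of_all _ fun x => ENNReal.ofReal_lt_top)]
  congr 1
  refine integral_congr_ae (ae_of_all _ fun x => ?_)
  simp only [ENNReal.toReal_ofReal (hZ0 x), smul_eq_mul]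
  ring

theorem mass_norm (Z : V κ → ℝ) (hZ0 : ∀ x, 0 ≤ Z x) (hZm : Measurable Z) (hZi : Integrable Z)
    (U : Set (V κ)) (hUm : MeasurableSet U) (A : ℝ) (hA : A = ∫ x in U, Z x) (hA0 : 0 < A) :
    mu (fun x => A⁻¹ * U.indicator Z x) univ = 1 := by
  have hAi : 0 ≤ A⁻¹ := (inv_pos.2 hA0).le
  have h1 : mu Z U = ENNReal.ofReal A := by
    rw [mu, withDensity_apply _ hUm, hA,
      ofReal_integral_eq_lintegral_ofReal hZi.integrableOn (ae_of_all _ hZ0)]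
  rw [Pool.Agent.H212R2.KLS.g2_mu Z hZ0 hZm U hUm _ hAi, Measure.smul_apply,
    Measure.restrict_apply_univ, smul_eq_mul, h1, ← ENNReal.ofReal_mul hAi,
    inv_mul_cancel₀ hA0.ne', ENNReal.ofReal_one]

/-- tail of `N` for a density `Z` without bounded support -/
theorem ztail (h : LPP G D B N) (Z : V κ → ℝ) (hG : GD G Z) (hZi : Integrable Z) (M : ℝ)
    (hM : ∫ x, Z x = M) (hM0 : 0 < M) (S : ℝ) (hS : 0 < S)
    (hi2 : ∀ θ : V κ, Integrable fun x => ⟪θ, x⟫_ℝ ^ 2 * Z x)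
    (hmom : ∀ θ : V κ, ∫ x, ⟪θ, x⟫_ℝ ^ 2 * Z x ≤ S * ‖θ‖ ^ 2 * M) (t : ℝ) (ht : 1 < t) :
    ∫ x in {x | t * (B * Real.sqrt (2 * S)) < N x}, Z x ≤ Real.exp (-(t + 1) / 2) * M := by
  obtain ⟨E, hE⟩ : ∃ E : Set (V κ), E = {x | t * (B * Real.sqrt (2 * S)) < N x} := ⟨_, rfl⟩
  have hEm : MeasurableSet E := by
    rw [hE]
    exact measurableSet_lt measurable_const (meas h)
  rw [← hE]
  have hcov : ∀ μ : Measure (V κ), AECover μ atTop fun k : ℕ => Metric.closedBall (0 : V κ) k :=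
    fun μ => aecover_closedBall tendsto_natCast_atTop_atTop
  have hlim1 := (hcov (volume : Measure (V κ))).integral_tendsto_of_countably_generated hZi
  have hlim2 := (hcov ((volume : Measure (V κ)).restrict E)).integral_tendsto_of_countably_generated
    hZi.integrableOn
  rw [hM] at hlim1
  have hev : ∀ᶠ k : ℕ in atTop, M / 2 < ∫ x in Metric.closedBall (0 : V κ) k, Z x :=
    hlim1.eventually (lt_mem_nhds (by linarith))
  refine le_of_tendsto hlim2 ?_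
  filter_upwards [hev] with k hk
  obtain ⟨U, hU⟩ : ∃ U : Set (V κ), U = {x : V κ | ‖x‖ ≤ k} := ⟨_, rfl⟩
  have hUb : Metric.closedBall (0 : V κ) k = U := by
    rw [hU]
    ext x
    simp
  rw [hUb] at hk ⊢
  have hUm : MeasurableSet U := by rw [← hUb]; exact Metric.isClosed_closedBall.measurableSet
  obtain ⟨A, hA⟩ : ∃ A : ℝ, A = ∫ x in U, Z x := ⟨_, rfl⟩
  rw [← hA] at hk
  have hA0 : 0 < A := by linarith
  have hAi : 0 ≤ A⁻¹ := (inv_pos.2 hA0).le
  have hAM : A ≤ M := by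
    rw [hA, ← hM]
    exact setIntegral_le_integral hZi (ae_of_all _ hG.nonneg)
  obtain ⟨ρ, hρ⟩ : ∃ ρ : V κ → ℝ, ρ = fun x => A⁻¹ * U.indicator Z x := ⟨_, rfl⟩
  have hint : ∀ g : V κ → ℝ, ∫ x, g x ∂(mu ρ) = A⁻¹ * ∫ x in U, g x * Z x := by
    intro g
    rw [hρ]
    exact int_norm Z hG.nonneg hG.meas U hUm A⁻¹ hAi g
  have h1 : mu ρ univ = 1 := by
    rw [hρ]
    exact mass_norm Z hG.nonneg hG.meas hZi U hUm A hA hA0
  have hGρ : GD G ρ := by
    rw [hρ]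
    have hb1 : GD G (U.indicator Z) := by
      rw [hU]
      exact gd_ball hG k
    exact gd_smul hb1 _ hAi
  have hB : Bdd ρ := by
    refine ⟨k, fun x hx => ?_⟩
    rw [hρ]
    show A⁻¹ * U.indicator Z x = 0
    rw [indicator_of_notMem, mul_zero]
    rw [hU]
    exact not_le.2 hx
  have h34 := h.tail ρ hGρ hB h1 (2 * S) (by positivity) (by
    intro θ
    rw [hint]
    have h2 : ∫ x in U, ⟪θ, x⟫_ℝ ^ 2 * Z x ≤ S * ‖θ‖ ^ 2 * M :=
      (setIntegral_le_integral (hi2 θ) (ae_of_all _ fun x =>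
        mul_nonneg (sq_nonneg _) (hG.nonneg x))).trans (hmom θ)
    rw [inv_mul_le_iff₀ hA0]
    refine h2.trans ?_
    have h3 : M ≤ 2 * A := by linarith
    have h4 : 0 ≤ S * ‖θ‖ ^ 2 := by positivity
    calc S * ‖θ‖ ^ 2 * M ≤ S * ‖θ‖ ^ 2 * (2 * A) := mul_le_mul_of_nonneg_left h3 h4
      _ = A * (2 * S * ‖θ‖ ^ 2) := by ring)
  have hbor := Pool.Agent.W380.SX.borell ρ hGρ.nonneg hGρ.meas hGρ.logc h1 N (meas h) h.add h.smul
    (B * Real.sqrt (2 * S)) h34 t ht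
  rw [← hE] at hbor
  have hreal : (mu ρ).real E = A⁻¹ * ∫ x in U, E.indicator Z x := by
    have h2 := hint (E.indicator fun _ => (1 : ℝ))
    rw [integral_indicator_const _ hEm, smul_eq_mul, mul_one] at h2
    rw [h2]
    congr 1
    refine integral_congr_ae (ae_of_all _ fun x => ?_)
    show E.indicator (fun _ => (1 : ℝ)) x * Z x = E.indicator Z x
    by_cases hx : x ∈ E
    · rw [indicator_of_mem hx, indicator_of_mem hx, one_mul]
    · rw [indicator_of_notMem hx, indicator_of_notMem hx, zero_mul]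
  rw [hreal, inv_mul_le_iff₀ hA0, integral_indicator hEm, Measure.restrict_restrict hEm] at hbor
  rw [Measure.restrict_restrict hUm, inter_comm]
  refine hbor.trans ?_
  rw [mul_comm]
  exact mul_le_mul_of_nonneg_left hAM (Real.exp_pos _).le

end Lpp

end Pool.Agent.TH597.HX
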