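import Pool.Agent.TH597.HX.Unt
import Pool.Agent.H888R2.KT.V5
import Pool.Agent.H888R2.KT.V4c
import Pool.Agent.H888R2.KT.N10
import Pool.Agent.H212R2.KLS.G2
import Pool.Agent.W586.SK.CoreX
import Pool.Agent.W876.SK.IBP
import Pool.Agent.W193.SK.Lim
import Pool.Agent.W474.SX.Dir
import Pool.Agent.W133.SX.ZZ
import Pool.Agent.W398.SX.Field
import Pool.Agent.W891.SX.Flow
import Pool.Agent.W40.SX.Half
import Pool.Agent.W99.SX.Cut
import Pool.Agent.W852.SX.Hardy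
import Pool.Agent.W124.SX.Iter
import Pool.Agent.W586.SK.SymX
import Pool.Agent.W62.SX.Seq
import Pool.Agent.W586.SK.BasX

/-!
# The law of the centre of the tilt
-/

set_option autoImplicit false

namespace Pool.Agent.TH597.HX

open MeasureTheory Set
open scoped ENNReal InnerProductSpace
open Pool.Agent.H212R2.KLS (mu Bdd)
open Pool.Agent.H888R2.KT (LC St tw tw_deriv tw_fub tw_lc)
open Pool.Agent.H888R2.KT.V5x (tw_pos tw_cont intg norm_comb inner_comb)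
open Pool.Agent.H888R2.KT.V4bx (w w1 w2 fub)
open Pool.Agent.H888R2.KT.G2x (integral_mu_mul)
open Pool.Agent.TH594.KP (V)
open Pool.Agent.W586.SX (Sx)

namespace Out

variable {κ : Type} [Fintype κ] {n : ℕ}

theorem w_pos (K : ℝ) (s : Fin n → ℝ) (τ : V (Fin n)) : 0 < w K s τ := Real.exp_pos _

theorem w_cont (K : ℝ) (s : Fin n → ℝ) : Continuous (w K s) := by
  unfold w
  fun_prop

/-- translation of the Gaussian weight -/
theorem w_shift (K : ℝ) (s : Fin n → ℝ) (τ : V (Fin n)) :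
    w K s (τ + WithLp.toLp 2 s) = w K 0 τ := by
  unfold w
  congr 3
  refine Finset.sum_congr rfl fun j _ => ?_
  simp only [PiLp.add_apply, Pi.zero_apply]
  ring

theorem w_zero (K : ℝ) (τ : V (Fin n)) :
    w K (0 : Fin n → ℝ) τ = Real.exp (-(‖τ‖ ^ 2 / (2 * K))) := by
  unfold w
  rw [EuclideanSpace.real_norm_sq_eq]
  congr 3
  refine Finset.sum_congr rfl fun j _ => ?_
  simp

theorem int_shift (K : ℝ) (s : Fin n → ℝ) (F : V (Fin n) → ℝ) :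
    ∫ τ, F τ * w K s τ = ∫ τ, F (τ + WithLp.toLp 2 s) * w K 0 τ := by
  rw [← integral_add_right_eq_self (fun τ => F τ * w K s τ) (WithLp.toLp 2 s)]
  simp only [w_shift]

theorem integrable_shift (K : ℝ) (s : Fin n → ℝ) (F : V (Fin n) → ℝ)
    (h : Integrable fun τ => F (τ + WithLp.toLp 2 s) * w K 0 τ) :
    Integrable fun τ => F τ * w K s τ := by
  have h1 := h.comp_sub_right (WithLp.toLp 2 s)
  refine h1.congr (Filter.Eventually.of_forall fun τ => ?_)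
  show F (τ - WithLp.toLp 2 s + WithLp.toLp 2 s) * w K 0 (τ - WithLp.toLp 2 s) = _
  rw [sub_add_cancel, ← w_shift K s, sub_add_cancel]

/-- the Gaussian normalisation -/
noncomputable def GG (n : ℕ) (K : ℝ) : ℝ := Real.sqrt (2 * Real.pi * K) ^ n

theorem GG_pos (n : ℕ) {K : ℝ} (hK : 0 < K) : 0 < GG n K :=
  pow_pos (Real.sqrt_pos.2 (by positivity)) _

theorem n2 (K : ℝ) (hK : 0 < K) :
    (Integrable fun τ : V (Fin n) => ‖τ‖ ^ 2 * w K 0 τ) ∧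
    ∫ τ : V (Fin n), ‖τ‖ ^ 2 * w K 0 τ = GG n K * (n * K) := by
  obtain ⟨h1, h2⟩ := w2 (q := n) K hK 0
  refine ⟨h1, ?_⟩
  rw [h2]
  unfold GG
  simp

theorem n1 (K : ℝ) (hK : 0 < K) (s : Fin n → ℝ) :
    (Integrable fun τ : V (Fin n) => w K s τ) ∧ ∫ τ : V (Fin n), w K s τ = GG n K := by
  obtain ⟨h1, h2⟩ := w1 (q := n) K hK s
  simp only [one_mul] at h1 h2
  exact ⟨h1, h2⟩

/-- the Gaussian weight of a linear function -/
theorem i2 (K : ℝ) (hK : 0 < K) (θ : V (Fin n)) :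
    Integrable fun τ : V (Fin n) => ⟪θ, τ⟫_ℝ ^ 2 * w K 0 τ := by
  refine Integrable.mono' ((n2 (n := n) K hK).1.const_mul (‖θ‖ ^ 2)) ?_ ?_
  · exact (Continuous.mul (by fun_prop) (w_cont K 0)).aestronglyMeasurable
  · refine Filter.Eventually.of_forall fun τ => ?_
    rw [norm_mul, Real.norm_of_nonneg (sq_nonneg _), Real.norm_of_nonneg (w_pos K 0 τ).le,
      ← mul_assoc]
    refine mul_le_mul_of_nonneg_right ?_ (w_pos K 0 τ).le
    rw [← mul_pow, ← sq_abs]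
    exact pow_le_pow_left₀ (abs_nonneg _) (abs_real_inner_le_norm _ _) 2

theorem rot (K : ℝ) (θ θ' : V (Fin n)) (h : ‖θ‖ = ‖θ'‖) :
    ∫ τ : V (Fin n), ⟪θ, τ⟫_ℝ ^ 2 * w K 0 τ = ∫ τ : V (Fin n), ⟪θ', τ⟫_ℝ ^ 2 * w K 0 τ := by
  obtain ⟨R, hR⟩ : ∃ R : V (Fin n) ≃ₗᵢ[ℝ] V (Fin n), R θ = θ' :=
    ⟨((ℝ ∙ (θ - θ'))ᗮ).reflection, Submodule.reflection_sub h⟩
  rw [← Pool.Agent.H888R2.KT.N10x.int_comp_vol R (fun τ => ⟪θ', τ⟫_ℝ ^ 2 * w K 0 τ)]
  refine integral_congr_ae (Filter.Eventually.of_forall fun τ => ?_)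
  show ⟪θ, τ⟫_ℝ ^ 2 * w K 0 τ = ⟪θ', R τ⟫_ℝ ^ 2 * w K 0 (R τ)
  rw [w_zero, w_zero, R.norm_map, ← hR, R.inner_map_map]

theorem insg (i : Fin n) (τ : V (Fin n)) : ⟪EuclideanSpace.single i (1 : ℝ), τ⟫_ℝ = τ i := by
  rw [EuclideanSpace.inner_single_left]
  simp

theorem q0 (K : ℝ) (hK : 0 < K) (θ : V (Fin n)) :
    ∫ τ : V (Fin n), ⟪θ, τ⟫_ℝ ^ 2 * w K 0 τ = GG n K * (K * ‖θ‖ ^ 2) := by
  rcases Nat.eq_zero_or_pos n with h0 | h0
  · subst h0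
    have : θ = 0 := Subsingleton.elim _ _
    subst this
    simp
  obtain ⟨j₀⟩ : Nonempty (Fin n) := ⟨⟨0, h0⟩⟩
  have hn0 : (0 : ℝ) < n := by exact_mod_cast h0
  have h1 : ∀ i : Fin n, ∫ τ : V (Fin n), (τ i) ^ 2 * w K 0 τ =
      ∫ τ : V (Fin n), (τ j₀) ^ 2 * w K 0 τ := by
    intro i
    have h2 := rot K (EuclideanSpace.single i (1 : ℝ)) (EuclideanSpace.single j₀ (1 : ℝ)) (by simp)
    simpa only [insg] using h2
  have h2 : ∑ i : Fin n, ∫ τ : V (Fin n), (τ i) ^ 2 * w K 0 τ = GG n K * (n * K) := by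
    rw [← (n2 (n := n) K hK).2, ← integral_finsetSum]
    · refine integral_congr_ae (Filter.Eventually.of_forall fun τ => ?_)
      show ∑ i, (τ i) ^ 2 * w K 0 τ = ‖τ‖ ^ 2 * w K 0 τ
      rw [← Finset.sum_mul, EuclideanSpace.real_norm_sq_eq]
    · intro i _
      have h3 := i2 K hK (EuclideanSpace.single i (1 : ℝ))
      simpa only [insg] using h3
  simp only [h1] at h2
  rw [Finset.sum_const, Finset.card_univ, Fintype.card_fin, nsmul_eq_mul] at h2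
  have h3 : ∫ τ : V (Fin n), (τ j₀) ^ 2 * w K 0 τ = GG n K * K := by
    have h4 : (n : ℝ) * ∫ τ : V (Fin n), (τ j₀) ^ 2 * w K 0 τ = n * (GG n K * K) := by
      rw [h2]; ring
    exact mul_left_cancel₀ hn0.ne' h4
  have h4 := rot K θ (‖θ‖ • EuclideanSpace.single j₀ (1 : ℝ)) (by simp [norm_smul])
  rw [h4]
  have h5 : ∀ τ : V (Fin n), ⟪‖θ‖ • EuclideanSpace.single j₀ (1 : ℝ), τ⟫_ℝ ^ 2 * w K 0 τ =
      ‖θ‖ ^ 2 * ((τ j₀) ^ 2 * w K 0 τ) := by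
    intro τ
    rw [real_inner_smul_left, insg]
    ring
  simp only [h5]
  rw [integral_const_mul, h3]
  ring

theorem odd (K : ℝ) (θ : V (Fin n)) : ∫ τ : V (Fin n), ⟪θ, τ⟫_ℝ * w K 0 τ = 0 := by
  have h1 := integral_neg_eq_self (fun τ : V (Fin n) => ⟪θ, τ⟫_ℝ * w K 0 τ) volume
  have h2 : ∀ τ : V (Fin n), ⟪θ, -τ⟫_ℝ * w K 0 (-τ) = -(⟪θ, τ⟫_ℝ * w K 0 τ) := by
    intro τ
    rw [w_zero, w_zero, norm_neg, inner_neg_right]
    ring
  simp only [h2] at h1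
  rw [integral_neg] at h1
  linarith

theorem q1 (K : ℝ) (hK : 0 < K) (θ : V (Fin n)) (s : Fin n → ℝ) :
    (Integrable fun τ : V (Fin n) => ⟪θ, τ⟫_ℝ ^ 2 * w K s τ) ∧
    ∫ τ : V (Fin n), ⟪θ, τ⟫_ℝ ^ 2 * w K s τ =
      GG n K * (⟪θ, WithLp.toLp 2 s⟫_ℝ ^ 2 + K * ‖θ‖ ^ 2) := by
  have e1 : ∀ τ : V (Fin n), ⟪θ, τ + WithLp.toLp 2 s⟫_ℝ ^ 2 * w K 0 τ =
      ⟪θ, τ⟫_ℝ ^ 2 * w K 0 τ + (2 * ⟪θ, WithLp.toLp 2 s⟫_ℝ) * (⟪θ, τ⟫_ℝ * w K 0 τ) +
        ⟪θ, WithLp.toLp 2 s⟫_ℝ ^ 2 * w K 0 τ := by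
    intro τ
    rw [inner_add_right]
    ring
  have i1 : Integrable fun τ : V (Fin n) => ⟪θ, τ⟫_ℝ * w K 0 τ := by
    refine Integrable.mono' ((i2 K hK θ).add (n1 K hK 0).1) ?_ ?_
    · exact (Continuous.mul (by fun_prop) (w_cont K 0)).aestronglyMeasurable
    · refine Filter.Eventually.of_forall fun τ => ?_
      show ‖⟪θ, τ⟫_ℝ * w K 0 τ‖ ≤ ⟪θ, τ⟫_ℝ ^ 2 * w K 0 τ + w K 0 τ
      rw [norm_mul, Real.norm_of_nonneg (w_pos K 0 τ).le, Real.norm_eq_abs]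
      have h1 : |⟪θ, τ⟫_ℝ| ≤ ⟪θ, τ⟫_ℝ ^ 2 + 1 := by
        rw [← sq_abs]
        nlinarith [sq_nonneg (|⟪θ, τ⟫_ℝ| - 1), abs_nonneg ⟪θ, τ⟫_ℝ]
      have := mul_le_mul_of_nonneg_right h1 (w_pos K 0 τ).le
      linarith
  have ia : Integrable fun τ : V (Fin n) => ⟪θ, τ⟫_ℝ ^ 2 * w K 0 τ +
      (2 * ⟪θ, WithLp.toLp 2 s⟫_ℝ) * (⟪θ, τ⟫_ℝ * w K 0 τ) := (i2 K hK θ).add (i1.const_mul _)
  have ib : Integrable fun τ : V (Fin n) => ⟪θ, WithLp.toLp 2 s⟫_ℝ ^ 2 * w K 0 τ :=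
    (n1 K hK 0).1.const_mul _
  constructor
  · refine integrable_shift K s (fun τ => ⟪θ, τ⟫_ℝ ^ 2) ?_
    simp only [e1]
    exact ia.add ib
  · rw [int_shift K s (fun τ => ⟪θ, τ⟫_ℝ ^ 2)]
    simp only [e1]
    rw [integral_add ia ib, integral_add (i2 K hK θ) (i1.const_mul _), integral_const_mul,
      integral_const_mul, q0 K hK, odd, (n1 K hK 0).2]
    ring

/-- most of the mass of the Gaussian weight is in the set `∑ |τ j| ≤ c n` -/
theorem low (K c : ℝ) (hK : 0 < K) (hc : 0 < c) (hn : 1 ≤ n) (s : Fin n → ℝ)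
    (hs : 2 * ∑ j, |s j| ≤ c * n) (h8 : 8 * K ≤ c ^ 2) :
    GG n K / 2 ≤ ∫ τ in {τ : V (Fin n) | ∑ j, |τ j| ≤ c * n}, w K s τ := by
  have hn0 : (0 : ℝ) < n := by exact_mod_cast hn
  obtain ⟨U, hU⟩ : ∃ U : Set (V (Fin n)), U = {τ : V (Fin n) | ∑ j, |τ j| ≤ c * n} := ⟨_, rfl⟩
  have hUm : MeasurableSet U := by
    rw [hU]
    exact (isClosed_le (by fun_prop) continuous_const).measurableSet
  rw [← hU]
  obtain ⟨hi, hI⟩ := n1 (n := n) K hK s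
  have h1 := integral_add_compl hUm hi
  rw [hI] at h1
  have hi2 : Integrable fun τ : V (Fin n) => ‖τ - WithLp.toLp 2 s‖ ^ 2 * w K s τ := by
    refine integrable_shift K s (fun τ => ‖τ - WithLp.toLp 2 s‖ ^ 2) ?_
    simp only [add_sub_cancel_right]
    exact (n2 K hK).1
  have hI2 : ∫ τ : V (Fin n), ‖τ - WithLp.toLp 2 s‖ ^ 2 * w K s τ = GG n K * (n * K) := by
    rw [int_shift K s (fun τ => ‖τ - WithLp.toLp 2 s‖ ^ 2)]
    simp only [add_sub_cancel_right]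
    exact (n2 K hK).2
  have h2 : ∫ τ in Uᶜ, w K s τ ≤
      ∫ τ in Uᶜ, (4 / (c ^ 2 * n)) * (‖τ - WithLp.toLp 2 s‖ ^ 2 * w K s τ) := by
    refine setIntegral_mono_on hi.integrableOn (hi2.const_mul _).integrableOn hUm.compl ?_
    intro τ hτ
    rw [← mul_assoc]
    have h3 : 1 ≤ 4 / (c ^ 2 * n) * ‖τ - WithLp.toLp 2 s‖ ^ 2 := by
      have h4 : c * n < ∑ j, |τ j| := by
        rw [hU] at hτ
        simpa using hτ
      have h5 : ∑ j, |τ j| ≤ ∑ j, |τ j - s j| + ∑ j, |s j| := by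
        rw [← Finset.sum_add_distrib]
        refine Finset.sum_le_sum fun j _ => ?_
        have := abs_add_le (τ j - s j) (s j)
        rwa [sub_add_cancel] at this
      have h6 : c * n / 2 ≤ ∑ j, |τ j - s j| := by linarith
      have h7 : (∑ j, |τ j - s j|) ^ 2 ≤ n * ∑ j, |τ j - s j| ^ 2 := by
        have := sq_sum_le_card_mul_sum_sq (s := (Finset.univ : Finset (Fin n)))
          (f := fun j => |τ j - s j|)
        simpa using this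
      have h9 : ‖τ - WithLp.toLp 2 s‖ ^ 2 = ∑ j, |τ j - s j| ^ 2 := by
        rw [EuclideanSpace.real_norm_sq_eq]
        refine Finset.sum_congr rfl fun j _ => ?_
        rw [sq_abs]
        rfl
      rw [h9]
      have h10 : (c * n / 2) ^ 2 ≤ (∑ j, |τ j - s j|) ^ 2 :=
        pow_le_pow_left₀ (by positivity) h6 2
      have h11 : c ^ 2 * n ≤ 4 * ∑ j, |τ j - s j| ^ 2 := by
        have h12 : (n : ℝ) * (c ^ 2 * n) ≤ n * (4 * ∑ j, |τ j - s j| ^ 2) := by nlinarith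
        exact le_of_mul_le_mul_left h12 hn0
      rw [div_mul_eq_mul_div, le_div_iff₀ (by positivity), one_mul]
      exact h11
    have := mul_le_mul_of_nonneg_right h3 (w_pos K s τ).le
    linarith
  have h3 : ∫ τ in Uᶜ, (4 / (c ^ 2 * n)) * (‖τ - WithLp.toLp 2 s‖ ^ 2 * w K s τ) ≤
      4 / (c ^ 2 * n) * (GG n K * (n * K)) := by
    rw [integral_const_mul, ← hI2]
    refine mul_le_mul_of_nonneg_left ?_ (by positivity)
    exact setIntegral_le_integral hi2 (Filter.Eventually.of_forall fun τ =>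
      mul_nonneg (sq_nonneg _) (w_pos K s τ).le)
  have h4 : 4 / (c ^ 2 * n) * (GG n K * (n * K)) ≤ GG n K / 2 := by
    have hG := GG_pos n hK
    have h5 : 4 / (c ^ 2 * n) * (GG n K * (n * K)) = GG n K * (4 * K / c ^ 2) := by
      field_simp
    rw [h5]
    have h6 : 4 * K / c ^ 2 ≤ 1 / 2 := by
      rw [div_le_iff₀ (by positivity)]
      linarith
    calc GG n K * (4 * K / c ^ 2) ≤ GG n K * (1 / 2) := mul_le_mul_of_nonneg_left h6 hG.le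
      _ = _ := by ring
  linarith

/-- the second moments of the law of the centre -/
theorem mom (μ : Measure (V κ)) [IsFiniteMeasure μ] (hb : ∃ R, μ (Metric.closedBall 0 R)ᶜ = 0)
    (e : Fin n → V κ) (he : Orthonormal ℝ e) (K : ℝ) (hK : 0 < K) (s : ℝ)
    (hs : ∀ θ : V κ, ∫ x, ⟪θ, x⟫_ℝ ^ 2 ∂μ ≤ s * ‖θ‖ ^ 2 * (μ univ).toReal) (θ : V (Fin n)) :
    (Integrable fun τ : V (Fin n) => ⟪θ, τ⟫_ℝ ^ 2 * ∫ x, tw e K τ x ∂μ) ∧
    ∫ τ : V (Fin n), ⟪θ, τ⟫_ℝ ^ 2 * ∫ x, tw e K τ x ∂μ ≤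
      GG n K * ((s + K) * ‖θ‖ ^ 2 * (μ univ).toReal) := by
  obtain ⟨h1, h2⟩ := fub μ hb e K (fun _ => (1 : ℝ)) continuous_const
    (fun τ => ⟪θ, τ⟫_ℝ ^ 2) (by fun_prop) (fun τ => sq_nonneg _)
    (fun s => GG n K * (⟪θ, WithLp.toLp 2 s⟫_ℝ ^ 2 + K * ‖θ‖ ^ 2)) (by fun_prop)
    (fun s => (q1 K hK θ s).1) (fun s => (q1 K hK θ s).2)
  simp only [one_mul, integral_const_mul] at h1 h2
  refine ⟨h1, ?_⟩
  rw [h2]
  have e1 : ∀ x : V κ, ⟪θ, WithLp.toLp 2 fun j => ⟪e j, x⟫_ℝ⟫_ℝ = ⟪∑ j, θ j • e j, x⟫_ℝ := by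
    intro x
    rw [inner_comb, PiLp.inner_apply]
    refine Finset.sum_congr rfl fun j _ => ?_
    simp [mul_comm]
  simp only [e1]
  refine mul_le_mul_of_nonneg_left ?_ (GG_pos n hK).le
  rw [integral_add (intg μ hb _ (by fun_prop)) (integrable_const _), integral_const, smul_eq_mul]
  have h3 := hs (∑ j, θ j • e j)
  rw [norm_comb e he] at h3
  have h4 : μ.real univ = (μ univ).toReal := rfl
  rw [h4]
  linarith

/-- the local Poincare inequality for exchangeable densities -/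
theorem locx : ∃ C : ℝ, 0 < C ∧ ∀ {n : ℕ}, 1 ≤ n → ∀ ρ : V (Fin n) → ℝ, Sx ρ → Bdd ρ →
    mu ρ univ = 1 → ∀ s : ℝ, 0 < s →
    (∀ θ : V (Fin n), ∫ x, ⟪θ, x⟫_ℝ ^ 2 ∂(mu ρ) ≤ s * ‖θ‖ ^ 2) → ∀ a : ℝ, 0 < a →
    1 / 2 ≤ (mu ρ {x : V (Fin n) | ∑ j, |x j| ≤ a * n}).toReal →
    ∀ f : V (Fin n) → ℝ, ContDiff ℝ 1 f →
    ∃ c : ℝ, ∫ x in {x : V (Fin n) | ∑ j, |x j| ≤ a * n}, (f x - c) ^ 2 ∂(mu ρ) ≤
      C * (a ^ 2 + s) * ∫ x in {x : V (Fin n) | ∑ j, |x j| ≤ a * n}, ‖fderiv ℝ f x‖ ^ 2 ∂(mu ρ) := by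
  obtain ⟨C₁, hC₁, huntilt⟩ := Pool.Agent.H888R2.KT.untiltq
  have hbas : W586.SX.S_BAS := W586.SXBas.bas
  have hflow : W586.SX.S_FLOW := W891.SX.Flow.flow W474.SX.dir W133.SX.zzsx W876.SK.ibp
    W193.SK.lim W398.SX.field
  have hhardy : W586.SX.S_HARDY := W852.SX.hardy hflow W398.SX.field W40.SX.half W99.SX.cut
  have hsym : W586.SX.S_SYM := W586.SXSym.sym W124.SX.iter
  refine ⟨C₁ * 2 * 24576 ^ 2, by positivity, ?_⟩
  intro n hn ρ hρ hb h1 s hs hmom a ha hhalf f hf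
  have hball : ∃ R, (mu ρ) (Metric.closedBall 0 R)ᶜ = 0 := by
    obtain ⟨R, hR⟩ := hb
    refine ⟨R, ?_⟩
    rw [mu, withDensity_apply_eq_zero' (hρ.meas.ennreal_ofReal.aemeasurable)]
    refine measure_mono_null ?_ (measure_empty (μ := (volume : Measure (V (Fin n)))))
    intro x hx
    refine hx.1 ?_
    have : R < ‖x‖ := by simpa using hx.2
    simp [hR x this]
  obtain ⟨c, hc⟩ := W586.SX.CoreXx.loc huntilt hhardy hsym W62.SX.Seq.seq hbas hn ρ hρ hb h1 hball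
    s hs hmom a ha _ rfl hhalf f hf
  refine ⟨c, hc.trans (mul_le_mul_of_nonneg_right ?_ (integral_nonneg fun x => by positivity))⟩
  have h2 : (24576 * a) ^ 2 + 2 * s ≤ 24576 ^ 2 * (a ^ 2 + s) := by nlinarith
  calc C₁ * 2 * ((24576 * a) ^ 2 + 2 * s) ≤ C₁ * 2 * (24576 ^ 2 * (a ^ 2 + s)) :=
        mul_le_mul_of_nonneg_left h2 (by positivity)
    _ = _ := by ring

/-- the law of the centre is exchangeable -/
theorem exch (ρ : V κ → ℝ) (hm : Measurable ρ) (e : Fin n → V κ) (K : ℝ)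
    (hex : ∀ π : Equiv.Perm (Fin n), ∃ g : V κ ≃ₗᵢ[ℝ] V κ, (∀ x, ρ (g x) = ρ x) ∧
      ∀ j, g (e j) = e (π j))
    (σ : Equiv.Perm (Fin n)) (a b : V (Fin n)) (hab : ∀ i, b i = a (σ i)) :
    ∫ x, tw e K b x ∂(mu ρ) = ∫ x, tw e K a x ∂(mu ρ) := by
  obtain ⟨g, hg1, hg2⟩ := hex σ
  rw [← Pool.Agent.H888R2.KT.N10x.int_comp hm g hg1 (fun x => tw e K a x)]
  refine integral_congr_ae (Filter.Eventually.of_forall fun x => ?_)
  show tw e K b x = tw e K a (g x)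
  unfold tw
  congr 3
  rw [← Equiv.sum_comp σ fun j => (⟪e j, g x⟫_ℝ - a j) ^ 2]
  refine Finset.sum_congr rfl fun j _ => ?_
  rw [hab j, ← hg2 j, g.inner_map_map]

theorem out : ∃ C : ℝ, 0 < C ∧ ∀ {κ : Type} [Fintype κ] {n : ℕ}, 1 ≤ n →
    ∀ ρ : V κ → ℝ, LC ρ → ∀ e : Fin n → V κ, Orthonormal ℝ e →
    (∀ π : Equiv.Perm (Fin n), ∃ g : V κ ≃ₗᵢ[ℝ] V κ, (∀ x, ρ (g x) = ρ x) ∧
      ∀ j, g (e j) = e (π j)) →
    ∀ K s c : ℝ, 0 < K → 0 < s → 0 < c →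
    (∀ θ : V κ, ∫ x, ⟪θ, x⟫_ℝ ^ 2 ∂(mu ρ) ≤ s * ‖θ‖ ^ 2 * (mu ρ univ).toReal) →
    (∀ x, ρ x ≠ 0 → 2 * ∑ j, |⟪e j, x⟫_ℝ| ≤ c * n) → 8 * K ≤ c ^ 2 →
    (∀ x, ρ x ≠ 0 → Real.sqrt (2 * Real.pi * K) ^ n / 2 ≤
      ∫ τ in {τ : V (Fin n) | ∑ j, |τ j| ≤ c * n}, tw e K τ x) ∧
    ∀ M : V (Fin n) → ℝ, ContDiff ℝ 1 M → ∃ c₀ : ℝ,
      ∫ τ in {τ : V (Fin n) | ∑ j, |τ j| ≤ c * n}, (M τ - c₀) ^ 2 *
          (∫ x, tw e K τ x ∂(mu ρ)) ≤
        C * (c ^ 2 + s + K) * ∫ τ in {τ : V (Fin n) | ∑ j, |τ j| ≤ c * n},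
          ‖fderiv ℝ M τ‖ ^ 2 * (∫ x, tw e K τ x ∂(mu ρ)) := by
  obtain ⟨C₁, hC₁, hloc⟩ := locx
  have hbas : W586.SX.S_BAS := W586.SXBas.bas
  refine ⟨2 * C₁, by positivity, ?_⟩
  intro κ _ n hn ρ hρ e he hex K s c hK hs hc hmom hsupp h8
  have hne : NeZero (mu ρ) := ⟨hρ.ne⟩
  have hfi : IsFiniteMeasure (mu ρ) := ⟨lt_top_iff_ne_top.2 hρ.fin⟩
  have hbd : ∃ R, mu ρ (Metric.closedBall 0 R)ᶜ = 0 := by
    obtain ⟨R, hR⟩ := hρ.bdd
    refine ⟨R, ?_⟩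
    rw [mu, withDensity_apply_eq_zero' (hρ.meas.ennreal_ofReal.aemeasurable)]
    refine measure_mono_null ?_ (measure_empty (μ := (volume : Measure (V κ))))
    intro x hx
    refine hx.1 ?_
    have : R < ‖x‖ := by simpa using hx.2
    simp [hR x this]
  have part1 : ∀ x, ρ x ≠ 0 → Real.sqrt (2 * Real.pi * K) ^ n / 2 ≤
      ∫ τ in {τ : V (Fin n) | ∑ j, |τ j| ≤ c * n}, tw e K τ x :=
    fun x hx => low K c hK hc hn (fun j => ⟪e j, x⟫_ℝ) (hsupp x hx) h8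
  refine ⟨part1, fun M hM => ?_⟩
  have hG : 0 < GG n K := GG_pos n hK
  obtain ⟨m₀, hm₀⟩ : ∃ m₀ : ℝ, m₀ = (mu ρ univ).toReal := ⟨_, rfl⟩
  have hm0 : 0 < m₀ := by
    rw [hm₀]
    exact ENNReal.toReal_pos (by simpa using hρ.ne) hρ.fin
  obtain ⟨Z, hZdef⟩ : ∃ Z : V (Fin n) → ℝ, Z = fun τ => ∫ x, tw e K τ x ∂(mu ρ) := ⟨_, rfl⟩
  have hZpos : ∀ τ, 0 < Z τ := fun τ => by
    rw [hZdef]
    exact integral_exp_pos (intg (mu ρ) hbd (tw e K τ) (tw_cont e K τ))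
  obtain ⟨hZ1, -⟩ := tw_deriv (mu ρ) hbd e K hK (fun _ => (1 : ℝ)) continuous_const
  simp only [one_mul] at hZ1
  rw [← hZdef] at hZ1
  have hZc : Continuous Z := hZ1.continuous
  obtain ⟨hZi, -, -, -⟩ := tw_fub (mu ρ) hbd e K hK (fun _ => (1 : ℝ)) continuous_const
  simp only [one_mul] at hZi
  rw [← hZdef] at hZi
  have hSx : Sx Z := by
    refine ⟨fun τ => (hZpos τ).le, hZc.measurable, ?_, ?_⟩
    · intro a b t ht0 ht1
      rw [hZdef]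
      exact tw_lc ρ hρ.nonneg hρ.meas hρ.logc hρ.fin e K hK a b t ht0 ht1
    · intro σ a b hab
      rw [hZdef]
      exact exch ρ hρ.meas e K hex σ a b hab
  obtain ⟨U, hU⟩ : ∃ U : Set (V (Fin n)), U = {τ : V (Fin n) | ∑ j, |τ j| ≤ c * n} := ⟨_, rfl⟩
  have hUm : MeasurableSet U := by
    rw [hU]
    exact (isClosed_le (by fun_prop) continuous_const).measurableSet
  -- the mass of `U`
  obtain ⟨A, hA⟩ : ∃ A : ℝ, A = ∫ τ in U, Z τ := ⟨_, rfl⟩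
  have hAlow : GG n K / 2 * m₀ ≤ A := by
    have h1 := Unt.fubU (mu ρ) hbd e K hK (fun _ => (1 : ℝ)) continuous_const U
    simp only [one_mul] at h1
    rw [hA, hZdef, h1]
    have hcont : Continuous (fun p : V κ × V (Fin n) => tw e K p.2 p.1) := by
      unfold tw
      refine Real.continuous_exp.comp (Continuous.neg (Continuous.div_const ?_ _))
      refine continuous_finsetSum _ fun j _ => ?_
      have h1 : Continuous fun p : V κ × V (Fin n) =>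
          ⟪e j, p.1⟫_ℝ := continuous_const.inner continuous_fst
      have h2 : Continuous fun p : V κ × V (Fin n) => p.2 j := by
        fun_prop
      exact (h1.sub h2).pow 2
    have hmeas : AEStronglyMeasurable (fun x => ∫ τ in U, tw e K τ x) (mu ρ) :=
      (hcont.stronglyMeasurable.integral_prod_right'
        (ν := (volume : Measure (V (Fin n))).restrict U)).aestronglyMeasurable
    have hi : Integrable (fun x => ∫ τ in U, tw e K τ x) (mu ρ) := by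
      refine Integrable.of_bound hmeas (GG n K) (Filter.Eventually.of_forall fun x => ?_)
      obtain ⟨h3, h4⟩ := n1 (n := n) K hK fun j => ⟪e j, x⟫_ℝ
      rw [Real.norm_of_nonneg (integral_nonneg fun τ => (tw_pos e K τ x).le), ← h4]
      exact setIntegral_le_integral h3
        (Filter.Eventually.of_forall fun τ => (tw_pos e K τ x).le)
    have h5 : ∫ _x, GG n K / 2 ∂(mu ρ) = GG n K / 2 * m₀ := by
      rw [integral_const, smul_eq_mul, mul_comm, hm₀]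
      rfl
    rw [← h5]
    refine integral_mono_ae (integrable_const _) hi ?_
    have h6 : ∀ᵐ x ∂(mu ρ), ρ x ≠ 0 := by
      rw [ae_iff, mu, withDensity_apply_eq_zero' (hρ.meas.ennreal_ofReal.aemeasurable)]
      refine measure_mono_null ?_ (measure_empty (μ := (volume : Measure (V κ))))
      intro x hx
      refine hx.1 ?_
      have h7 : ρ x = 0 := by
        have := hx.2
        simpa using this
      simp [h7]
    filter_upwards [h6] with x hx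
    have h7 := part1 x hx
    rw [← hU] at h7
    exact h7
  have hA0 : 0 < A := lt_of_lt_of_le (by positivity) hAlow
  have hAi : 0 ≤ A⁻¹ := (inv_pos.2 hA0).le
  obtain ⟨ρ', hρ'⟩ : ∃ ρ' : V (Fin n) → ℝ, ρ' = fun τ => A⁻¹ * U.indicator Z τ := ⟨_, rfl⟩
  have hSx' : Sx ρ' := by
    rw [hρ']
    have h1 : Sx (U.indicator Z) := by
      rw [hU]
      exact (hbas Z hSx).1 (c * n)
    exact (hbas _ h1).2.2.1 A⁻¹ hAi
  have hmu := Pool.Agent.H212R2.KLS.g2_mu Z (fun τ => (hZpos τ).le) hZc.measurable U hUm A⁻¹ hAi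
  rw [← hρ'] at hmu
  have hmZ : (mu Z).restrict U = ((volume : Measure (V (Fin n))).restrict U).withDensity
      (fun τ => ENNReal.ofReal (Z τ)) := by
    rw [mu, restrict_withDensity hUm]
  have hint : ∀ h : V (Fin n) → ℝ, ∫ τ, h τ ∂(mu ρ') = A⁻¹ * ∫ τ in U, h τ * Z τ := by
    intro h
    rw [hmu, integral_smul_measure, ENNReal.toReal_ofReal hAi, smul_eq_mul, hmZ,
      integral_withDensity_eq_integral_toReal_smul hZc.measurable.ennreal_ofReal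
        (ae_of_all _ fun x => ENNReal.ofReal_lt_top)]
    congr 1
    refine integral_congr_ae (ae_of_all _ fun x => ?_)
    simp only [ENNReal.toReal_ofReal (hZpos x).le, smul_eq_mul]
    ring
  have hmuU : (mu ρ').restrict U = mu ρ' := by
    rw [hmu, Measure.restrict_smul, Measure.restrict_restrict hUm, inter_self]
  have hmass : mu ρ' univ = 1 := by
    have h1 : mu Z U = ENNReal.ofReal A := by
      rw [mu, withDensity_apply _ hUm, hA,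
        ofReal_integral_eq_lintegral_ofReal hZi.integrableOn
          (ae_of_all _ fun τ => (hZpos τ).le)]
    rw [hmu, Measure.smul_apply, Measure.restrict_apply_univ, smul_eq_mul, h1,
      ← ENNReal.ofReal_mul hAi, inv_mul_cancel₀ hA0.ne', ENNReal.ofReal_one]
  have hBdd : Bdd ρ' := by
    refine ⟨c * n, fun τ hτ => ?_⟩
    have h1 : τ ∉ U := by
      intro h2
      rw [hU] at h2
      have h3 : ‖τ‖ ≤ ∑ j, |τ j| := by
        have h4 : ‖τ‖ ^ 2 ≤ (∑ j, |τ j|) ^ 2 := by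
          rw [EuclideanSpace.real_norm_sq_eq]
          have h5 := Finset.sum_sq_le_sq_sum_of_nonneg (s := (Finset.univ : Finset (Fin n)))
            (f := fun j => |τ j|) (fun j _ => abs_nonneg _)
          simpa only [sq_abs] using h5
        exact abs_le_of_sq_le_sq' h4 (Finset.sum_nonneg fun j _ => abs_nonneg _) |>.2
      have h4 : ∑ j, |τ j| ≤ c * n := h2
      linarith
    rw [hρ']
    show A⁻¹ * U.indicator Z τ = 0
    rw [indicator_of_notMem h1, mul_zero]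
  have hmom' : ∀ θ : V (Fin n), ∫ τ, ⟪θ, τ⟫_ℝ ^ 2 ∂(mu ρ') ≤ (2 * (s + K)) * ‖θ‖ ^ 2 := by
    intro θ
    rw [hint]
    obtain ⟨h1, h2⟩ := mom (mu ρ) hbd e he K hK s hmom θ
    rw [← hm₀] at h2
    have h3 : ∫ τ in U, ⟪θ, τ⟫_ℝ ^ 2 * Z τ ≤ GG n K * ((s + K) * ‖θ‖ ^ 2 * m₀) := by
      refine le_trans ?_ h2
      rw [hZdef]
      exact setIntegral_le_integral h1 (Filter.Eventually.of_forall fun τ => by
        have := (hZpos τ).le
        rw [hZdef] at this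
        exact mul_nonneg (sq_nonneg _) this)
    rw [inv_mul_le_iff₀ hA0]
    refine h3.trans ?_
    have h4 := mul_le_mul_of_nonneg_right hAlow (by positivity : 0 ≤ 2 * (s + K) * ‖θ‖ ^ 2)
    calc GG n K * ((s + K) * ‖θ‖ ^ 2 * m₀) = GG n K / 2 * m₀ * (2 * (s + K) * ‖θ‖ ^ 2) := by ring
      _ ≤ A * (2 * (s + K) * ‖θ‖ ^ 2) := h4
  have hhalf : 1 / 2 ≤ (mu ρ' {x : V (Fin n) | ∑ j, |x j| ≤ c * n}).toReal := by
    rw [← hU, ← Measure.restrict_apply_univ, hmuU, hmass]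
    norm_num
  obtain ⟨c₀, hc₀⟩ := hloc hn ρ' hSx' hBdd hmass (2 * (s + K)) (by positivity) hmom' c hc hhalf M hM
  refine ⟨c₀, ?_⟩
  rw [← hU, hmuU, hint, hint] at hc₀
  rw [← hU]
  have hE : ∀ h : V (Fin n) → ℝ, ∫ τ in U, h τ * (∫ x, tw e K τ x ∂(mu ρ)) =
      ∫ τ in U, h τ * Z τ := by
    intro h
    rw [hZdef]
  rw [hE, hE]
  have h1 := mul_le_mul_of_nonneg_left hc₀ hA0.le
  rw [← mul_assoc, mul_inv_cancel₀ hA0.ne', one_mul] at h1
  refine h1.trans (le_of_eq_of_le ?_ (mul_le_mul_of_nonneg_right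
    (?_ : C₁ * (c ^ 2 + 2 * (s + K)) ≤ 2 * C₁ * (c ^ 2 + s + K)) (integral_nonneg fun τ =>
      mul_nonneg (sq_nonneg _) (hZpos τ).le)))
  · rw [← mul_assoc, mul_comm A, mul_assoc, ← mul_assoc A, mul_inv_cancel₀ hA0.ne', one_mul]
  · have h2 : c ^ 2 + 2 * (s + K) ≤ 2 * (c ^ 2 + s + K) := by nlinarith [sq_nonneg c]
    calc C₁ * (c ^ 2 + 2 * (s + K)) ≤ C₁ * (2 * (c ^ 2 + s + K)) :=
          mul_le_mul_of_nonneg_left h2 hC₁.le
      _ = _ := by ring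

end Out

theorem outU : S_OUT := Out.out

end Pool.Agent.TH597.HX
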