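import Pool.Agent.TH597.HX.Lpp

/-!
# The outer part: the law of the centre of the tilt for symmetries with the local Poincare property
-/

set_option autoImplicit false

namespace Pool.Agent.TH597.HX

open MeasureTheory Set Filter
open scoped ENNReal InnerProductSpace Topology
open Pool.Agent.H212R2.KLS (mu Bdd)
open Pool.Agent.H888R2.KT (LC St tw tw_deriv tw_fub tw_lc)
open Pool.Agent.H888R2.KT.V5x (tw_pos tw_cont norm_comb inner_comb)
open Pool.Agent.H888R2.KT.V4bx (w)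
open Pool.Agent.H888R2.KT.G2x (mu_indicator integral_mu_mul mu_mono intg)
open Pool.Agent.TH594.KP (V GD gd_indicator gd_ball gd_smul SC)
open Out Lpp

namespace Step

variable {q : ℕ} {G : Set (V (Fin q) ≃ₗᵢ[ℝ] V (Fin q))} {D B : ℝ} {N : V (Fin q) → ℝ}

theorem exp_two (k : ℕ) : Real.exp (-(k : ℝ)) ≤ 1 / 2 ^ k := by
  have h1 : (2 : ℝ) ≤ Real.exp 1 := by
    have := Real.add_one_le_exp (1 : ℝ)
    linarith
  have h2 : (2 : ℝ) ^ k ≤ Real.exp k := by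
    have h3 := pow_le_pow_left₀ (by norm_num) h1 k
    rwa [← Real.exp_nat_mul, mul_one] at h3
  rw [Real.exp_neg, one_div]
  exact inv_anti₀ (by positivity) h2

theorem gauss_gd (G : Set (V (Fin q) ≃ₗᵢ[ℝ] V (Fin q))) {K : ℝ} (hK : 0 < K) :
    GD G (w K (0 : Fin q → ℝ)) where
  nonneg x := (w_pos K 0 x).le
  meas := (w_cont K 0).measurable
  logc x y t ht0 ht1 := by
    rw [w_zero, w_zero, w_zero, ← Real.exp_mul, ← Real.exp_mul, ← Real.exp_add]
    refine Real.exp_le_exp.2 ?_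
    have e1 : ‖(1 - t) • x + t • y‖ ^ 2 =
        (1 - t) * ‖x‖ ^ 2 + t * ‖y‖ ^ 2 - t * (1 - t) * ‖x - y‖ ^ 2 := by
      rw [norm_add_sq_real, norm_sub_sq_real, norm_smul, norm_smul, inner_smul_left,
        inner_smul_right, mul_pow, mul_pow, Real.norm_eq_abs, Real.norm_eq_abs, sq_abs, sq_abs]
      simp
      ring
    have h1 : 0 ≤ t * (1 - t) * ‖x - y‖ ^ 2 := by
      have : 0 ≤ 1 - t := by linarith
      positivity
    have h2 : ‖(1 - t) • x + t • y‖ ^ 2 ≤ (1 - t) * ‖x‖ ^ 2 + t * ‖y‖ ^ 2 := by linarith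
    have h3 := div_le_div_of_nonneg_right h2 (by positivity : (0 : ℝ) ≤ 2 * K)
    have h4 : ((1 - t) * ‖x‖ ^ 2 + t * ‖y‖ ^ 2) / (2 * K) =
        ‖x‖ ^ 2 / (2 * K) * (1 - t) + ‖y‖ ^ 2 / (2 * K) * t := by ring
    linarith
  inv g _ x := by rw [w_zero, w_zero, g.norm_map]

/-- the Gaussian weight is concentrated where `N` is small -/
theorem gtail (h : LPP G D B N) (K : ℝ) (hK : 0 < K) :
    3 / 4 * GG q K ≤ ∫ τ in {τ | N τ ≤ 3 * (B * Real.sqrt (2 * K))}, w K (0 : Fin q → ℝ) τ := by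
  have hG := GG_pos q hK
  obtain ⟨hi, hI⟩ := n1 (n := q) K hK 0
  have h1 := ztail h (w K 0) (gauss_gd G hK) hi (GG q K) hI hG K hK
    (fun θ => i2 K hK θ) (fun θ => by rw [q0 K hK θ]; exact le_of_eq (by ring)) 3 (by norm_num)
  have h2 : Real.exp (-(3 + 1) / 2) ≤ 1 / 4 := by
    have h3 := exp_two 2
    have e : (-(3 + 1) / 2 : ℝ) = -((2 : ℕ) : ℝ) := by norm_num
    rw [e]
    refine h3.trans (le_of_eq (by norm_num))
  have hm : MeasurableSet {τ : V (Fin q) | N τ ≤ 3 * (B * Real.sqrt (2 * K))} :=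
    (h.closed _).measurableSet
  have h4 := integral_add_compl hm hi
  rw [hI] at h4
  have h5 : {τ : V (Fin q) | N τ ≤ 3 * (B * Real.sqrt (2 * K))}ᶜ =
      {τ | 3 * (B * Real.sqrt (2 * K)) < N τ} := by
    ext τ
    simp
  rw [h5] at h4
  have h6 := h1.trans (mul_le_mul_of_nonneg_right h2 hG.le)
  linarith

/-- most of the mass of the Gaussian weight is where `N` is small -/
theorem lowN (h : LPP G D B N) (K : ℝ) (hK : 0 < K) (s : Fin q → ℝ) (a : ℝ)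
    (ha : N (WithLp.toLp 2 s) ≤ a) :
    3 / 4 * GG q K ≤ ∫ τ in {τ | N τ ≤ a + 3 * (B * Real.sqrt (2 * K))}, w K s τ := by
  refine (gtail h K hK).trans ?_
  have hm : MeasurableSet {τ : V (Fin q) | N τ ≤ a + 3 * (B * Real.sqrt (2 * K))} :=
    (h.closed _).measurableSet
  have hm' : MeasurableSet {τ : V (Fin q) | N τ ≤ 3 * (B * Real.sqrt (2 * K))} :=
    (h.closed _).measurableSet
  rw [← integral_indicator hm, ← integral_indicator hm']
  have e1 : ∫ τ, ({τ : V (Fin q) | N τ ≤ a + 3 * (B * Real.sqrt (2 * K))}).indicator (w K s) τ =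
      ∫ τ, ({τ : V (Fin q) | N τ ≤ a + 3 * (B * Real.sqrt (2 * K))}).indicator (fun _ => (1 : ℝ)) τ
        * w K s τ := by
    refine integral_congr_ae (ae_of_all _ fun τ => ?_)
    show _ = indicator _ (fun _ => (1 : ℝ)) τ * w K s τ
    by_cases hx : τ ∈ {τ : V (Fin q) | N τ ≤ a + 3 * (B * Real.sqrt (2 * K))}
    · rw [indicator_of_mem hx, indicator_of_mem hx, one_mul]
    · rw [indicator_of_notMem hx, indicator_of_notMem hx, zero_mul]
  rw [e1, int_shift]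
  obtain ⟨hi, -⟩ := n1 (n := q) K hK 0
  refine integral_mono (hi.indicator hm') ?_ fun τ => ?_
  · have hm2 : Measurable fun τ : V (Fin q) =>
        ({τ : V (Fin q) | N τ ≤ a + 3 * (B * Real.sqrt (2 * K))}).indicator (fun _ => (1 : ℝ))
          (τ + WithLp.toLp 2 s) :=
      (measurable_const.indicator hm).comp (measurable_add_const _)
    refine hi.bdd_mul (c := 1) hm2.aestronglyMeasurable (ae_of_all _ fun τ => ?_)
    by_cases hx : τ + WithLp.toLp 2 s ∈ {τ : V (Fin q) | N τ ≤ a + 3 * (B * Real.sqrt (2 * K))}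
    · rw [indicator_of_mem hx]; simp
    · rw [indicator_of_notMem hx]; simp
  · show indicator _ (w K 0) τ ≤ indicator _ (fun _ => (1 : ℝ)) (τ + WithLp.toLp 2 s) * w K 0 τ
    have hpos := (w_pos K 0 τ).le
    by_cases hx : τ ∈ {τ : V (Fin q) | N τ ≤ 3 * (B * Real.sqrt (2 * K))}
    · have hx' : N τ ≤ 3 * (B * Real.sqrt (2 * K)) := hx
      have hy : τ + WithLp.toLp 2 s ∈ {τ : V (Fin q) | N τ ≤ a + 3 * (B * Real.sqrt (2 * K))} := by
        show N (τ + WithLp.toLp 2 s) ≤ a + 3 * (B * Real.sqrt (2 * K))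
        have := h.add τ (WithLp.toLp 2 s)
        linarith
      rw [indicator_of_mem hx, indicator_of_mem hy, one_mul]
    · rw [indicator_of_notMem hx]
      refine mul_nonneg (indicator_nonneg (fun _ _ => zero_le_one) _) hpos

/-- the weight centred at `s` of a set containing the translate of `N ≤ 3 B √(2K)` -/
theorem lowE (h : LPP G D B N) (K : ℝ) (hK : 0 < K) (s : Fin q → ℝ) (E : Set (V (Fin q)))
    (hE : MeasurableSet E)
    (hs : ∀ τ, N τ ≤ 3 * (B * Real.sqrt (2 * K)) → τ + WithLp.toLp 2 s ∈ E) :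
    3 / 4 * GG q K ≤ ∫ τ in E, w K s τ := by
  refine (gtail h K hK).trans ?_
  have hm' : MeasurableSet {τ : V (Fin q) | N τ ≤ 3 * (B * Real.sqrt (2 * K))} :=
    (h.closed _).measurableSet
  rw [← integral_indicator hE, ← integral_indicator hm']
  have e1 : ∫ τ, E.indicator (w K s) τ = ∫ τ, E.indicator (fun _ => (1 : ℝ)) τ * w K s τ := by
    refine integral_congr_ae (ae_of_all _ fun τ => ?_)
    show _ = indicator _ (fun _ => (1 : ℝ)) τ * w K s τ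
    by_cases hx : τ ∈ E
    · rw [indicator_of_mem hx, indicator_of_mem hx, one_mul]
    · rw [indicator_of_notMem hx, indicator_of_notMem hx, zero_mul]
  rw [e1, int_shift]
  obtain ⟨hi, -⟩ := n1 (n := q) K hK 0
  refine integral_mono (hi.indicator hm') ?_ fun τ => ?_
  · have hm2 : Measurable fun τ : V (Fin q) =>
        E.indicator (fun _ => (1 : ℝ)) (τ + WithLp.toLp 2 s) :=
      (measurable_const.indicator hE).comp (measurable_add_const _)
    refine hi.bdd_mul (c := 1) hm2.aestronglyMeasurable (ae_of_all _ fun τ => ?_)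
    by_cases hx : τ + WithLp.toLp 2 s ∈ E
    · rw [indicator_of_mem hx]; simp
    · rw [indicator_of_notMem hx]; simp
  · show indicator _ (w K 0) τ ≤ indicator _ (fun _ => (1 : ℝ)) (τ + WithLp.toLp 2 s) * w K 0 τ
    have hpos := (w_pos K 0 τ).le
    by_cases hx : τ ∈ {τ : V (Fin q) | N τ ≤ 3 * (B * Real.sqrt (2 * K))}
    · rw [indicator_of_mem hx, indicator_of_mem (hs τ hx), one_mul]
    · rw [indicator_of_notMem hx]
      refine mul_nonneg (indicator_nonneg (fun _ _ => zero_le_one) _) hpos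

variable {κ : Type} [Fintype κ]

/-- facts on the law of the centre -/
theorem zfacts (ρ : V κ → ℝ) (hρ : LC ρ) (e : Fin q → V κ) (he : Orthonormal ℝ e) (K s : ℝ)
    (hK : 0 < K)
    (hmom : ∀ θ : V κ, ∫ x, ⟪θ, x⟫_ℝ ^ 2 ∂(mu ρ) ≤ s * ‖θ‖ ^ 2 * (mu ρ univ).toReal)
    (hinv : ∀ g ∈ G, ∀ τ, ∫ x, tw e K (g τ) x ∂(mu ρ) = ∫ x, tw e K τ x ∂(mu ρ)) :
    (∀ τ, 0 < ∫ x, tw e K τ x ∂(mu ρ)) ∧
    GD G (fun τ : V (Fin q) => ∫ x, tw e K τ x ∂(mu ρ)) ∧
    Continuous (fun τ : V (Fin q) => ∫ x, tw e K τ x ∂(mu ρ)) ∧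
    Integrable (fun τ : V (Fin q) => ∫ x, tw e K τ x ∂(mu ρ)) ∧
    (∫ τ : V (Fin q), ∫ x, tw e K τ x ∂(mu ρ) = GG q K * (mu ρ univ).toReal) ∧
    (∀ θ : V (Fin q), Integrable fun τ : V (Fin q) => ⟪θ, τ⟫_ℝ ^ 2 * ∫ x, tw e K τ x ∂(mu ρ)) ∧
    (∀ θ : V (Fin q), ∫ τ : V (Fin q), ⟪θ, τ⟫_ℝ ^ 2 * ∫ x, tw e K τ x ∂(mu ρ) ≤
      (s + K) * ‖θ‖ ^ 2 * (GG q K * (mu ρ univ).toReal)) := by
  have hne : NeZero (mu ρ) := ⟨hρ.ne⟩
  have hfi : IsFiniteMeasure (mu ρ) := ⟨lt_top_iff_ne_top.2 hρ.fin⟩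
  have hbd := ball_of hρ.meas hρ.bdd
  have hpos : ∀ τ, 0 < ∫ x, tw e K τ x ∂(mu ρ) := fun τ =>
    integral_exp_pos (Pool.Agent.H888R2.KT.V5x.intg (mu ρ) hbd (tw e K τ) (tw_cont e K τ))
  obtain ⟨hZ1, -⟩ := tw_deriv (mu ρ) hbd e K hK (fun _ => (1 : ℝ)) continuous_const
  simp only [one_mul] at hZ1
  obtain ⟨hZi, hZI, -, -⟩ := tw_fub (mu ρ) hbd e K hK (fun _ => (1 : ℝ)) continuous_const
  simp only [one_mul] at hZi hZI
  have hmo := fun θ => mom (mu ρ) hbd e he K hK s hmom θ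
  refine ⟨hpos, ⟨fun τ => (hpos τ).le, hZ1.continuous.measurable, ?_, hinv⟩, hZ1.continuous, hZi,
    ?_, fun θ => (hmo θ).1, fun θ => (hmo θ).2.trans (le_of_eq (by ring))⟩
  · intro a b t ht0 ht1
    exact tw_lc ρ hρ.nonneg hρ.meas hρ.logc hρ.fin e K hK a b t ht0 ht1
  · rw [hZI, integral_const, smul_eq_mul, mul_one]
    rfl

/-- the Poincare inequality for the law of the centre -/
theorem outN (h : LPP G D B N) (ρ : V κ → ℝ) (hρ : LC ρ) (e : Fin q → V κ)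
    (he : Orthonormal ℝ e) (K s c : ℝ) (hK : 0 < K) (hs : 0 < s) (hc : 0 < c)
    (hmom : ∀ θ : V κ, ∫ x, ⟪θ, x⟫_ℝ ^ 2 ∂(mu ρ) ≤ s * ‖θ‖ ^ 2 * (mu ρ univ).toReal)
    (hinv : ∀ g ∈ G, ∀ τ, ∫ x, tw e K (g τ) x ∂(mu ρ) = ∫ x, tw e K τ x ∂(mu ρ))
    (hlow : ∀ x, ρ x ≠ 0 → GG q K / 2 ≤ ∫ τ in {τ : V (Fin q) | N τ ≤ c}, tw e K τ x)
    (M : V (Fin q) → ℝ) (hM : ContDiff ℝ 1 M) :
    ∃ c₀ : ℝ, ∫ τ in {τ : V (Fin q) | N τ ≤ c}, (M τ - c₀) ^ 2 * (∫ x, tw e K τ x ∂(mu ρ)) ≤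
      D * (c ^ 2 + 2 * (s + K)) * ∫ τ in {τ : V (Fin q) | N τ ≤ c},
        ‖fderiv ℝ M τ‖ ^ 2 * (∫ x, tw e K τ x ∂(mu ρ)) := by
  have hne : NeZero (mu ρ) := ⟨hρ.ne⟩
  have hfi : IsFiniteMeasure (mu ρ) := ⟨lt_top_iff_ne_top.2 hρ.fin⟩
  have hbd := ball_of hρ.meas hρ.bdd
  obtain ⟨hZpos, hZG, hZc, hZi, hZI, hZ2i, hZ2⟩ := zfacts (G := G) ρ hρ e he K s hK hmom hinv
  have hG : 0 < GG q K := GG_pos q hK
  obtain ⟨m₀, hm₀⟩ : ∃ m₀ : ℝ, m₀ = (mu ρ univ).toReal := ⟨_, rfl⟩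
  have hm0 : 0 < m₀ := by
    rw [hm₀]
    exact ENNReal.toReal_pos (by simpa using hρ.ne) hρ.fin
  rw [← hm₀] at hZI hZ2
  obtain ⟨U, hU⟩ : ∃ U : Set (V (Fin q)), U = {τ : V (Fin q) | N τ ≤ c} := ⟨_, rfl⟩
  have hUm : MeasurableSet U := by
    rw [hU]
    exact (h.closed c).measurableSet
  -- the mass of `U`
  have hAlow : GG q K / 2 * m₀ ≤ ∫ τ in U, ∫ x, tw e K τ x ∂(mu ρ) := by
    have h1 := Unt.fubU (mu ρ) hbd e K hK (fun _ => (1 : ℝ)) continuous_const U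
    simp only [one_mul] at h1
    rw [h1]
    have hcont : Continuous (fun p : V κ × V (Fin q) => tw e K p.2 p.1) := by
      unfold tw
      refine Real.continuous_exp.comp (Continuous.neg (Continuous.div_const ?_ _))
      refine continuous_finsetSum _ fun j _ => ?_
      have h1 : Continuous fun p : V κ × V (Fin q) =>
          ⟪e j, p.1⟫_ℝ := continuous_const.inner continuous_fst
      have h2 : Continuous fun p : V κ × V (Fin q) => p.2 j := by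
        fun_prop
      exact (h1.sub h2).pow 2
    have hmeas : AEStronglyMeasurable (fun x => ∫ τ in U, tw e K τ x) (mu ρ) :=
      (hcont.stronglyMeasurable.integral_prod_right'
        (ν := (volume : Measure (V (Fin q))).restrict U)).aestronglyMeasurable
    have hi : Integrable (fun x => ∫ τ in U, tw e K τ x) (mu ρ) := by
      refine Integrable.of_bound hmeas (GG q K) (Filter.Eventually.of_forall fun x => ?_)
      obtain ⟨h3, h4⟩ := n1 (n := q) K hK fun j => ⟪e j, x⟫_ℝ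
      rw [Real.norm_of_nonneg (integral_nonneg fun τ => (tw_pos e K τ x).le), ← h4]
      exact setIntegral_le_integral h3
        (Filter.Eventually.of_forall fun τ => (tw_pos e K τ x).le)
    have h5 : ∫ _x, GG q K / 2 ∂(mu ρ) = GG q K / 2 * m₀ := by
      rw [integral_const, smul_eq_mul, mul_comm, hm₀]
      rfl
    rw [← h5]
    refine integral_mono_ae (integrable_const _) hi ?_
    filter_upwards [ae_ne hρ.meas] with x hx
    have h7 := hlow x hx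
    rw [← hU] at h7
    exact h7
  generalize hZdef : (fun τ : V (Fin q) => ∫ x, tw e K τ x ∂(mu ρ)) = Z at hZG hZc hZi
  have hZE : ∀ τ, ∫ x, tw e K τ x ∂(mu ρ) = Z τ := fun τ => congrFun hZdef τ
  simp only [hZE] at hZpos hZI hZ2i hZ2 hAlow ⊢
  obtain ⟨A, hA⟩ : ∃ A : ℝ, A = ∫ τ in U, Z τ := ⟨_, rfl⟩
  rw [← hA] at hAlow
  have hA0 : 0 < A := lt_of_lt_of_le (by positivity) hAlow
  have hAi : 0 ≤ A⁻¹ := (inv_pos.2 hA0).le
  obtain ⟨ρ', hρ'⟩ : ∃ ρ' : V (Fin q) → ℝ, ρ' = fun τ => A⁻¹ * U.indicator Z τ := ⟨_, rfl⟩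
  have hG' : GD G ρ' := by
    rw [hρ']
    refine gd_smul (gd_indicator hZG U ?_ hUm fun g hg x => ?_) _ hAi
    · rw [hU]
      exact convex h c
    · rw [hU]
      show N (g x) ≤ c ↔ N x ≤ c
      rw [h.inv g hg]
  have hint : ∀ h : V (Fin q) → ℝ, ∫ τ, h τ ∂(mu ρ') = A⁻¹ * ∫ τ in U, h τ * Z τ := by
    intro h
    rw [hρ']
    exact int_norm Z hZG.nonneg hZG.meas U hUm A⁻¹ hAi h
  have hmass : mu ρ' univ = 1 := by
    rw [hρ']
    exact mass_norm Z hZG.nonneg hZG.meas hZi U hUm A hA hA0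
  have hsupp : ∀ τ, ρ' τ ≠ 0 → τ ∈ U := by
    intro τ hτ
    by_contra h1
    refine hτ ?_
    rw [hρ']
    show A⁻¹ * U.indicator Z τ = 0
    rw [indicator_of_notMem h1, mul_zero]
  have hBdd : Bdd ρ' := by
    obtain ⟨R, hR⟩ := h.bdd
    refine ⟨|R| * c, fun τ hτ => ?_⟩
    by_contra h1
    have h2 : τ ∈ U := hsupp τ h1
    have h2' : N τ ≤ c := by rw [hU] at h2; exact h2
    have h3 := hR τ
    have h4 : R * N τ ≤ |R| * N τ := mul_le_mul_of_nonneg_right (le_abs_self R) (nonneg h τ)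
    have h5 : |R| * N τ ≤ |R| * c := mul_le_mul_of_nonneg_left h2' (abs_nonneg R)
    linarith
  have hLC' : LC ρ' := ⟨hG'.nonneg, hG'.meas, hG'.logc, hBdd, by rw [hmass]; exact ENNReal.one_ne_top,
    fun h0 => by rw [h0] at hmass; simp at hmass⟩
  have hmom' : ∀ θ : V (Fin q), ∫ τ, ⟪θ, τ⟫_ℝ ^ 2 ∂(mu ρ') ≤
      (2 * (s + K)) * ‖θ‖ ^ 2 * (mu ρ' univ).toReal := by
    intro θ
    rw [hint, hmass, ENNReal.toReal_one, mul_one]
    have h3 : ∫ τ in U, ⟪θ, τ⟫_ℝ ^ 2 * Z τ ≤ (s + K) * ‖θ‖ ^ 2 * (GG q K * m₀) :=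
      (setIntegral_le_integral (hZ2i θ) (Filter.Eventually.of_forall fun τ =>
        mul_nonneg (sq_nonneg _) (hZpos τ).le)).trans (hZ2 θ)
    rw [inv_mul_le_iff₀ hA0]
    refine h3.trans ?_
    have h4 := mul_le_mul_of_nonneg_right hAlow (by positivity : 0 ≤ 2 * (s + K) * ‖θ‖ ^ 2)
    calc (s + K) * ‖θ‖ ^ 2 * (GG q K * m₀) = GG q K / 2 * m₀ * (2 * (s + K) * ‖θ‖ ^ 2) := by ring
      _ ≤ A * (2 * (s + K) * ‖θ‖ ^ 2) := h4
  obtain ⟨c₀, hc₀⟩ := h.poi ρ' hG' hLC' c (2 * (s + K)) hc (by positivity) hmom'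
    (fun τ hτ => by have := hsupp τ hτ; rw [hU] at this; exact this) M hM
  refine ⟨c₀, ?_⟩
  rw [hint, hint] at hc₀
  rw [← hU]
  have h1 := mul_le_mul_of_nonneg_left hc₀ hA0.le
  rw [← mul_assoc, mul_inv_cancel₀ hA0.ne', one_mul] at h1
  refine h1.trans (le_of_eq ?_)
  rw [← mul_assoc, mul_comm A, mul_assoc, ← mul_assoc A, mul_inv_cancel₀ hA0.ne', one_mul]

end Step

end Pool.Agent.TH597.HX
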