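import Pool.Agent.TH597.HX.Wr2

/-!
# The local Poincare property: transport, one point, consequences
-/

set_option autoImplicit false

namespace Pool.Agent.TH597.HX

open MeasureTheory Set Filter
open scoped ENNReal InnerProductSpace Topology
open Pool.Agent.H212R2.KLS (mu Bdd)
open Pool.Agent.H888R2.KT (LC St tw)
open Pool.Agent.H888R2.KT.G2x (mu_indicator integral_mu_mul mu_mono intg)
open Pool.Agent.TH594.KP (V GD GG swp Bs mem_Bs gd_indicator gd_ball gd_smul SC)
open Pool.Agent.W586.SX (Sx)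
open Out Lpp Step Arr Wr

namespace Tr

/-- the bounds may be increased -/
theorem mono {κ : Type} [Fintype κ] {G : Set (V κ ≃ₗᵢ[ℝ] V κ)} {D B D' B' : ℝ} {N : V κ → ℝ}
    (h : LPP G D B N) (hD : D ≤ D') (hB : B ≤ B') : LPP G D' B' N where
  add := h.add
  smul := h.smul
  closed := h.closed
  bdd := h.bdd
  inv := h.inv
  poi ρ hρ hLC a s ha hs hmom hsupp f hf := by
    obtain ⟨c, hc⟩ := h.poi ρ hρ hLC a s ha hs hmom hsupp f hf
    refine ⟨c, hc.trans (mul_le_mul_of_nonneg_right ?_ (integral_nonneg fun x => by positivity))⟩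
    exact mul_le_mul_of_nonneg_right hD (by positivity)
  tail ρ hρ hb h1 s hs hmom := by
    have hprob : IsProbabilityMeasure (mu ρ) := ⟨h1⟩
    refine (h.tail ρ hρ hb h1 s hs hmom).trans (measureReal_mono fun x hx => ?_)
    have hx' : N x ≤ B * Real.sqrt s := hx
    exact hx'.trans (mul_le_mul_of_nonneg_right hB (Real.sqrt_nonneg _))

/-- transport of the conditions on the density -/
theorem trans_lc {κ κ' : Type} [Fintype κ] [Fintype κ'] (T : V κ ≃ₗᵢ[ℝ] V κ') (ρ : V κ' → ℝ)
    (h : LC ρ) : LC (fun x => ρ (T x)) := by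
  have hmass : mu (fun x => ρ (T x)) univ = mu ρ univ := by
    have h2 := congrArg (fun m : Measure (V κ') => m univ) (Main.mu_map T ρ h.meas)
    rw [Measure.map_apply T.continuous.measurable MeasurableSet.univ, preimage_univ] at h2
    exact h2
  refine ⟨fun x => h.nonneg _, h.meas.comp T.continuous.measurable, ?_, ?_, ?_, ?_⟩
  · intro x y t ht0 ht1
    have h2 := h.logc (T x) (T y) t ht0 ht1
    rw [← map_smul, ← map_smul, ← map_add] at h2
    exact h2
  · obtain ⟨R, hR⟩ := h.bdd
    refine ⟨R, fun x hx => hR (T x) ?_⟩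
    rw [T.norm_map]
    exact hx
  · rw [hmass]
    exact h.fin
  · intro h0
    have h2 : mu ρ univ = 0 := by
      rw [← hmass, h0]
      rfl
    exact h.ne (Measure.measure_univ_eq_zero.1 h2)

/-- transport of the local Poincare property -/
theorem iso {κ κ' : Type} [Fintype κ] [Fintype κ'] (T : V κ ≃ₗᵢ[ℝ] V κ')
    {G : Set (V κ ≃ₗᵢ[ℝ] V κ)} {D B : ℝ} {N : V κ → ℝ} (h : LPP G D B N) :
    LPP ((fun g => T.symm.trans (g.trans T)) '' G) D B (fun x => N (T.symm x)) where
  add x y := by
    rw [map_add]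
    exact h.add _ _
  smul c x := by
    rw [map_smul]
    exact h.smul _ _
  closed r := (h.closed r).preimage T.symm.continuous
  bdd := by
    obtain ⟨R, hR⟩ := h.bdd
    refine ⟨R, fun x => ?_⟩
    have := hR (T.symm x)
    rwa [T.symm.norm_map] at this
  inv := by
    rintro g' ⟨g, hg, rfl⟩ x
    simp only [LinearIsometryEquiv.trans_apply, LinearIsometryEquiv.symm_apply_apply]
    exact h.inv g hg _
  poi ρ hρ hLC a s ha hs hmom hsupp f hf := by
    have hG : GD G (fun x => ρ (T x)) := by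
      refine ⟨fun x => hρ.nonneg _, hρ.meas.comp T.continuous.measurable,
        (trans_lc T ρ hLC).logc, ?_⟩
      intro g hg x
      have h2 := hρ.inv _ ⟨g, hg, rfl⟩ (T x)
      simp only [LinearIsometryEquiv.trans_apply, LinearIsometryEquiv.symm_apply_apply] at h2
      exact h2
    have hmass : mu (fun x => ρ (T x)) univ = mu ρ univ := by
      have h2 := congrArg (fun m : Measure (V κ') => m univ) (Main.mu_map T ρ hρ.meas)
      rw [Measure.map_apply T.continuous.measurable MeasurableSet.univ, preimage_univ] at h2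
      exact h2
    obtain ⟨c, hc⟩ := h.poi (fun x => ρ (T x)) hG (trans_lc T ρ hLC) a s ha hs
      (by
        intro θ
        have h2 := hmom (T θ)
        rw [Main.int_map T ρ hρ.meas, T.norm_map] at h2
        rw [hmass]
        simpa only [T.inner_map_map] using h2)
      (by
        intro x hx
        have := hsupp (T x) hx
        rwa [T.symm_apply_apply] at this)
      (fun x => f (T x)) (hf.comp T.toContinuousLinearEquiv.contDiff)
    refine ⟨c, ?_⟩
    rw [Main.int_map T ρ hρ.meas, Main.int_map T ρ hρ.meas (fun x => ‖fderiv ℝ f x‖ ^ 2)]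
    simp only [Main.norm_fd T f hf] at hc
    exact hc
  tail ρ hρ hb h1 s hs hmom := by
    have hmap := Main.mu_map T ρ hρ.meas
    have hmass : mu (fun x => ρ (T x)) univ = 1 := by
      have h2 := congrArg (fun m : Measure (V κ') => m univ) hmap
      rw [Measure.map_apply T.continuous.measurable MeasurableSet.univ, preimage_univ, h1] at h2
      exact h2
    have hG : GD G (fun x => ρ (T x)) := by
      refine ⟨fun x => hρ.nonneg _, hρ.meas.comp T.continuous.measurable, ?_, ?_⟩
      · intro x y t ht0 ht1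
        have h2 := hρ.logc (T x) (T y) t ht0 ht1
        rw [← map_smul, ← map_smul, ← map_add] at h2
        exact h2
      · intro g hg x
        have h2 := hρ.inv _ ⟨g, hg, rfl⟩ (T x)
        simp only [LinearIsometryEquiv.trans_apply, LinearIsometryEquiv.symm_apply_apply] at h2
        exact h2
    have h34 := h.tail (fun x => ρ (T x)) hG (by
      obtain ⟨R, hR⟩ := hb
      refine ⟨R, fun x hx => hR (T x) ?_⟩
      rw [T.norm_map]
      exact hx) hmass s hs (by
        intro θ
        have h2 := hmom (T θ)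
        rw [Main.int_map T ρ hρ.meas, T.norm_map] at h2
        simpa only [T.inner_map_map] using h2)
    refine h34.trans (le_of_eq ?_)
    rw [← hmap, map_measureReal_apply T.continuous.measurable]
    · congr 1
      ext x
      show N x ≤ _ ↔ N (T.symm (T x)) ≤ _
      rw [T.symm_apply_apply]
    · exact ((h.closed _).preimage T.symm.continuous).measurableSet

/-- exchangeable densities -/
theorem base : ∃ D : ℝ, 0 < D ∧ ∀ n : ℕ, 1 ≤ n →
    LPP (pm '' (univ : Set (Equiv.Perm (Fin n)))) D 4 (fun x : V (Fin n) => (∑ j, |x j|) / n) := by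
  obtain ⟨D, hD, hloc⟩ := locx
  refine ⟨D, hD, fun n hn => ?_⟩
  have hn1 : (1 : ℝ) ≤ n := by exact_mod_cast hn
  have hn0 : (0 : ℝ) < n := by linarith
  have hle : ∀ (x : V (Fin n)) (r : ℝ), (∑ j, |x j|) / n ≤ r ↔ ∑ j, |x j| ≤ r * n :=
    fun x r => div_le_iff₀ hn0
  refine ⟨?_, ?_, ?_, ?_, ?_, ?_, ?_⟩
  · intro x y
    rw [← add_div]
    refine div_le_div_of_nonneg_right ?_ hn0.le
    rw [← Finset.sum_add_distrib]
    exact Finset.sum_le_sum fun j _ => abs_add_le _ _
  · intro c x
    rw [← mul_div_assoc, Finset.mul_sum]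
    congr 1
    refine Finset.sum_congr rfl fun j _ => ?_
    rw [← abs_mul]
    rfl
  · intro r
    exact isClosed_le (by fun_prop) continuous_const
  · refine ⟨n, fun x => ?_⟩
    rw [mul_div_cancel₀ _ hn0.ne']
    have h4 : ‖x‖ ^ 2 ≤ (∑ j, |x j|) ^ 2 := by
      rw [EuclideanSpace.real_norm_sq_eq]
      have h5 := Finset.sum_sq_le_sq_sum_of_nonneg (s := (Finset.univ : Finset (Fin n)))
        (f := fun j => |x j|) (fun j _ => abs_nonneg _)
      simpa only [sq_abs] using h5
    exact (abs_le_of_sq_le_sq' h4 (Finset.sum_nonneg fun j _ => abs_nonneg _)).2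
  · rintro g ⟨π, -, rfl⟩ x
    congr 1
    simp only [pm_apply]
    exact Equiv.sum_comp π.symm fun j => |x j|
  · intro ρ hρ hLC a s ha hs hmom hsupp f hf
    have hfi : IsFiniteMeasure (mu ρ) := ⟨lt_top_iff_ne_top.2 hLC.fin⟩
    obtain ⟨m₀, hm₀⟩ : ∃ m₀ : ℝ, m₀ = (mu ρ univ).toReal := ⟨_, rfl⟩
    have hm0 : 0 < m₀ := by
      rw [hm₀]
      exact ENNReal.toReal_pos (by simpa using hLC.ne) hLC.fin
    have hmi : 0 ≤ m₀⁻¹ := (inv_pos.2 hm0).le
    obtain ⟨ρ', hρ'⟩ : ∃ ρ' : V (Fin n) → ℝ, ρ' = fun x => m₀⁻¹ * ρ x := ⟨_, rfl⟩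
    have hG : GD (pm '' (univ : Set (Equiv.Perm (Fin n)))) ρ' := by
      rw [hρ']
      exact gd_smul hρ _ hmi
    have hmu : mu ρ' = ENNReal.ofReal m₀⁻¹ • mu ρ := by
      have h1 := Pool.Agent.H212R2.KLS.g2_mu ρ hρ.nonneg hρ.meas univ MeasurableSet.univ _ hmi
      rw [Measure.restrict_univ, indicator_univ, ← hρ'] at h1
      exact h1
    have hint : ∀ g : V (Fin n) → ℝ, ∫ x, g x ∂(mu ρ') = m₀⁻¹ * ∫ x, g x ∂(mu ρ) := by
      intro g
      rw [hmu, integral_smul_measure, ENNReal.toReal_ofReal hmi, smul_eq_mul]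
    have hmass : mu ρ' univ = 1 := by
      rw [hmu, Measure.smul_apply, smul_eq_mul]
      have h2 : mu ρ univ = ENNReal.ofReal m₀ := by
        rw [hm₀, ENNReal.ofReal_toReal (measure_ne_top _ _)]
      rw [h2, ← ENNReal.ofReal_mul hmi, inv_mul_cancel₀ hm0.ne', ENNReal.ofReal_one]
    have hSx : Sx ρ' := by
      refine ⟨hG.nonneg, hG.meas, hG.logc, fun σ x y hxy => ?_⟩
      have h1 := hG.inv _ ⟨σ.symm, mem_univ _, rfl⟩ x
      have h2 : y = pm σ.symm x := by
        ext i
        rw [pm_apply, hxy i]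
        rfl
      rw [h2]
      exact h1
    have hB' : Bdd ρ' := by
      obtain ⟨R, hR⟩ := hLC.bdd
      exact ⟨R, fun x hx => by rw [hρ']; simp only [hR x hx, mul_zero]⟩
    have hae : ∀ᵐ x ∂(mu ρ'), x ∈ {x : V (Fin n) | ∑ j, |x j| ≤ a * n} := by
      filter_upwards [ae_ne hG.meas] with x hx
      have h1 : ρ x ≠ 0 := by
        intro h0
        refine hx ?_
        rw [hρ']
        simp only [h0, mul_zero]
      exact (hle x a).1 (hsupp x h1)
    have hUm : MeasurableSet {x : V (Fin n) | ∑ j, |x j| ≤ a * n} :=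
      (isClosed_le (by fun_prop) continuous_const).measurableSet
    have hres : (mu ρ').restrict {x : V (Fin n) | ∑ j, |x j| ≤ a * n} = mu ρ' :=
      Measure.restrict_eq_self_of_ae_mem hae
    obtain ⟨c, hc⟩ := hloc hn ρ' hSx hB' hmass s hs (by
      intro θ
      rw [hint, inv_mul_le_iff₀ hm0]
      refine (hmom θ).trans (le_of_eq ?_)
      rw [← hm₀]
      ring) a ha (by
      rw [← Measure.restrict_apply_univ, hres, hmass]
      norm_num) f hf
    refine ⟨c, ?_⟩
    rw [hres, hint, hint] at hc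
    have h1 := mul_le_mul_of_nonneg_left hc hm0.le
    rw [← mul_assoc, mul_inv_cancel₀ hm0.ne', one_mul] at h1
    refine h1.trans (le_of_eq ?_)
    rw [← mul_assoc, mul_comm m₀, mul_assoc, ← mul_assoc m₀, mul_inv_cancel₀ hm0.ne', one_mul]
  · intro ρ hρ hb h1 s hs hmom
    have hprob : IsProbabilityMeasure (mu ρ) := ⟨h1⟩
    have hball := ball_of hρ.meas hb
    have hss : 0 < Real.sqrt s := Real.sqrt_pos.2 hs
    have hcont : Continuous fun x : V (Fin n) => (∑ j, |x j|) / n := by fun_prop
    have hcoord : ∀ j : Fin n, ∫ x, x j ^ 2 ∂(mu ρ) ≤ s := by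
      intro j
      have h2 := hmom (EuclideanSpace.single j 1)
      simp only [insg] at h2
      simpa using h2
    have hi : ∀ j : Fin n, Integrable (fun x : V (Fin n) => x j ^ 2) (mu ρ) := fun j =>
      intg (mu ρ) hball _ (by fun_prop)
    have hI : ∫ x : V (Fin n), ((∑ j, |x j|) / n) ^ 2 ∂(mu ρ) ≤ s := by
      have h2 : ∀ x : V (Fin n), ((∑ j, |x j|) / n) ^ 2 ≤ 1 / n * ∑ j, x j ^ 2 := by
        intro x
        have h3 := sq_sum_le_card_mul_sum_sq (s := (Finset.univ : Finset (Fin n)))
          (f := fun j => |x j|)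
        simp only [sq_abs, Finset.card_univ, Fintype.card_fin] at h3
        rw [div_pow, div_le_iff₀ (by positivity)]
        refine h3.trans (le_of_eq ?_)
        field_simp
      have h3 := integral_mono (μ := mu ρ) (intg (mu ρ) hball _ (hcont.pow 2))
        ((integrable_finsetSum _ fun j _ => hi j).const_mul (1 / (n : ℝ))) h2
      rw [integral_const_mul, integral_finsetSum _ fun j _ => hi j] at h3
      refine h3.trans ?_
      have h4 : ∑ j, ∫ x : V (Fin n), x j ^ 2 ∂(mu ρ) ≤ ∑ _j : Fin n, s :=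
        Finset.sum_le_sum fun j _ => hcoord j
      rw [Finset.sum_const, Finset.card_univ, Fintype.card_fin, nsmul_eq_mul] at h4
      calc 1 / (n : ℝ) * ∑ j, ∫ x : V (Fin n), x j ^ 2 ∂(mu ρ) ≤ 1 / n * (n * s) :=
            mul_le_mul_of_nonneg_left h4 (by positivity)
        _ = s := by field_simp
    have h2 := mul_meas_ge_le_integral_of_nonneg (μ := mu ρ)
      (f := fun x : V (Fin n) => ((∑ j, |x j|) / n) ^ 2)
      (Filter.Eventually.of_forall fun x => sq_nonneg _) (intg (mu ρ) hball _ (hcont.pow 2))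
      ((4 * Real.sqrt s) ^ 2)
    have h3 : (mu ρ).real {x : V (Fin n) | 4 * Real.sqrt s < (∑ j, |x j|) / n} ≤
        (mu ρ).real {x : V (Fin n) | (4 * Real.sqrt s) ^ 2 ≤ ((∑ j, |x j|) / n) ^ 2} := by
      refine measureReal_mono fun x hx => ?_
      have hx' : 4 * Real.sqrt s < (∑ j, |x j|) / n := hx
      show (4 * Real.sqrt s) ^ 2 ≤ ((∑ j, |x j|) / n) ^ 2
      exact pow_le_pow_left₀ (by positivity) hx'.le 2
    have h4 : (4 * Real.sqrt s) ^ 2 *
        (mu ρ).real {x : V (Fin n) | 4 * Real.sqrt s < (∑ j, |x j|) / n} ≤ s :=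
      (mul_le_mul_of_nonneg_left h3 (sq_nonneg _)).trans (h2.trans hI)
    have h5 : (4 * Real.sqrt s) ^ 2 = 16 * s := by
      rw [mul_pow, Real.sq_sqrt hs.le]
      ring
    rw [h5] at h4
    have h6 : (mu ρ).real {x : V (Fin n) | 4 * Real.sqrt s < (∑ j, |x j|) / n} ≤ 1 / 16 := by
      nlinarith
    have hms : MeasurableSet {x : V (Fin n) | (∑ j, |x j|) / n ≤ 4 * Real.sqrt s} :=
      (isClosed_le hcont continuous_const).measurableSet
    have h7 := probReal_compl_eq_one_sub (μ := mu ρ) hms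
    have h8 : {x : V (Fin n) | (∑ j, |x j|) / n ≤ 4 * Real.sqrt s}ᶜ =
        {x : V (Fin n) | 4 * Real.sqrt s < (∑ j, |x j|) / n} := by
      ext x; simp
    rw [h8] at h7
    linarith

/-- from the local Poincare property to Lipschitz functions -/
theorem lpp_sc {κ : Type} [Fintype κ] {G : Set (V κ ≃ₗᵢ[ℝ] V κ)} {D B : ℝ} {N : V κ → ℝ}
    (h : LPP G D B N) (hD : 0 < D) (hB : 0 < B) : SC G (40000 * (D * (B ^ 2 + 2))) := by
  intro ρ hρ hbd h1 s hs hmom f hf hf1
  have hprob : IsProbabilityMeasure (mu ρ) := ⟨h1⟩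
  have hball := ball_of hρ.meas hbd
  have hss : 0 < Real.sqrt s := Real.sqrt_pos.2 hs
  have h34 := h.tail ρ hρ hbd h1 s hs hmom
  have hbound : ∀ t : ℝ, 1 ≤ t → (mu ρ).real {x | N x ≤ t * (B * Real.sqrt s)}ᶜ ≤
      Real.exp (-(t / 2)) := by
    intro t ht
    have h3 : {x | N x ≤ t * (B * Real.sqrt s)}ᶜ = {x | t * (B * Real.sqrt s) < N x} := by
      ext x; simp
    rcases eq_or_lt_of_le ht with h4 | h4
    · rw [← h4, one_mul, probReal_compl_eq_one_sub (h.closed _).measurableSet]
      have h2 : (1 / 4 : ℝ) ≤ Real.exp (-(1 / 2)) := by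
        have := Real.add_one_le_exp (-(1 / 2) : ℝ)
        linarith
      linarith
    · rw [h3]
      have h2 := Pool.Agent.W380.SX.borell ρ hρ.nonneg hρ.meas hρ.logc h1 N (meas h) h.add h.smul
        (B * Real.sqrt s) h34 t h4
      exact h2.trans (Real.exp_le_exp.2 (by linarith))
  have hmain := Pool.Agent.TH594.KP.Mul.multi0 (mu ρ) hball
    (fun t => {x | N x ≤ t * (B * Real.sqrt s)})
    (fun t => (h.closed _).measurableSet)
    (fun t t' htt x hx => by
      have hx' : N x ≤ t * (B * Real.sqrt s) := hx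
      exact hx'.trans (mul_le_mul_of_nonneg_right htt (by positivity)))
    (fun t ht => by
      rw [← ENNReal.ofReal_toReal (measure_ne_top (mu ρ) _)]
      exact ENNReal.ofReal_le_ofReal (hbound t ht))
    (D * (B ^ 2 + 2) * s) (by positivity)
    (fun t ht g hg => by
      have ht1 : 1 ≤ t := by linarith
      obtain ⟨a, ha⟩ : ∃ a : ℝ, a = t * (B * Real.sqrt s) := ⟨_, rfl⟩
      have ha0 : 0 < a := by rw [ha]; positivity
      have hta := hbound t ht1
      rw [← ha] at hta ⊢
      obtain ⟨U, hU⟩ : ∃ U : Set (V κ), U = {x | N x ≤ a} := ⟨_, rfl⟩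
      have hUm : MeasurableSet U := by rw [hU]; exact (h.closed _).measurableSet
      rw [← hU] at hta ⊢
      have hhalf : 1 / 2 ≤ (mu ρ U).toReal := by
        rw [probReal_compl_eq_one_sub hUm] at hta
        have h4 : Real.exp (-(t / 2)) ≤ 1 / 2 := by
          rw [Real.exp_neg, inv_le_comm₀ (Real.exp_pos _) (by norm_num)]
          have := Real.add_one_le_exp (t / 2)
          linarith
        rw [← measureReal_def]
        linarith
      have hDg : GD G (U.indicator ρ) := by
        refine gd_indicator hρ U ?_ hUm fun g hg x => ?_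
        · rw [hU]
          exact convex h a
        · rw [hU]
          show N (g x) ≤ a ↔ N x ≤ a
          rw [h.inv g hg]
      have hres : mu (U.indicator ρ) = (mu ρ).restrict U := mu_indicator ρ U hUm
      have hle : ∀ x, U.indicator ρ x ≤ ρ x :=
        fun x => Set.indicator_le_self' (fun _ _ => hρ.nonneg _) x
      have hbU : Bdd (U.indicator ρ) := by
        obtain ⟨R, hR⟩ := hbd
        refine ⟨R, fun x hx => le_antisymm ?_ (hDg.nonneg x)⟩
        rw [← hR x hx]
        exact hle x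
      have hfinU : mu (U.indicator ρ) univ ≠ ⊤ := by
        have := (mu_mono ρ (U.indicator ρ) hle univ).trans_eq h1
        exact ne_top_of_le_ne_top ENNReal.one_ne_top this
      have hneU : mu (U.indicator ρ) ≠ 0 := by
        intro h0
        rw [hres] at h0
        have h2 : mu ρ U = 0 := by
          rw [← Measure.restrict_apply_univ, h0]
          simp
        rw [h2] at hhalf
        norm_num at hhalf
      have hLC : LC (U.indicator ρ) := ⟨hDg.nonneg, hDg.meas, hDg.logc, hbU, hfinU, hneU⟩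
      obtain ⟨c₀, hc₀⟩ := h.poi (U.indicator ρ) hDg hLC a (2 * s) ha0 (by positivity)
        (by
          intro θ
          rw [hres, Measure.restrict_apply_univ]
          have h2 : ∫ x in U, ⟪θ, x⟫_ℝ ^ 2 ∂(mu ρ) ≤ ∫ x, ⟪θ, x⟫_ℝ ^ 2 ∂(mu ρ) :=
            setIntegral_le_integral (intg (mu ρ) hball _ (by fun_prop))
              (ae_of_all _ fun x => by positivity)
          refine h2.trans ((hmom θ).trans ?_)
          have h5 : s * ‖θ‖ ^ 2 * 1 ≤ s * ‖θ‖ ^ 2 * (2 * (mu ρ U).toReal) :=
            mul_le_mul_of_nonneg_left (by linarith) (by positivity)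
          linarith)
        (fun x hx => by
          by_contra hc
          refine hx ?_
          have : x ∉ U := by rw [hU]; exact hc
          rw [Set.indicator_of_notMem this])
        g hg
      rw [hres] at hc₀
      refine ⟨c₀, hc₀.trans (mul_le_mul_of_nonneg_right ?_ (integral_nonneg fun x => by positivity))⟩
      have e1 : a ^ 2 = B ^ 2 * s * t ^ 2 := by
        rw [ha, mul_pow, mul_pow, Real.sq_sqrt hs.le]
        ring
      have e2 : 2 * s ≤ 2 * s * t ^ 2 := by
        have h2 : 1 ≤ t ^ 2 := one_le_pow₀ ht1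
        nlinarith
      calc D * (a ^ 2 + 2 * s) ≤ D * (B ^ 2 * s * t ^ 2 + 2 * s * t ^ 2) :=
            mul_le_mul_of_nonneg_left (by linarith) hD.le
        _ = D * (B ^ 2 + 2) * s * t ^ 2 := by ring)
    f hf hf1
  refine hmain.trans (le_of_eq ?_)
  ring

end Tr

end Pool.Agent.TH597.HX
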