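import Pool.Agent.TH597.HX.Tr1

/-!
# Trees: leaves, automorphisms, the induction on the depth
-/

set_option autoImplicit false

namespace Pool.Agent.TH597.HX

open MeasureTheory Set Filter
open scoped ENNReal InnerProductSpace Topology
open Pool.Agent.H212R2.KLS (mu Bdd)
open Pool.Agent.TH594.KP (V GD GG swp SC)
open Lpp Step Arr Wr

namespace Tr

/-- the leaves of the rooted tree where the nodes of level `j` have `m j` children -/
abbrev Leaf {k : ℕ} (m : Fin k → ℕ) : Type := ∀ j : Fin k, Fin (m j)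

/-- automorphisms of the tree, as permutations of the leaves: for every level `l`, two leaves have
the same ancestor of level `l` iff their images do -/
def IsAut {k : ℕ} (m : Fin k → ℕ) (ψ : Equiv.Perm (Leaf m)) : Prop :=
  ∀ (l : ℕ) (x y : Leaf m), (∀ j : Fin k, j.val < l → x j = y j) ↔
    (∀ j : Fin k, j.val < l → ψ x j = ψ y j)

theorem aut_symm {k : ℕ} {m : Fin k → ℕ} {ψ : Equiv.Perm (Leaf m)} (h : IsAut m ψ) :
    IsAut m ψ.symm := by
  intro l x y
  have h1 := h l (ψ.symm x) (ψ.symm y)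
  rw [Equiv.apply_symm_apply, Equiv.apply_symm_apply] at h1
  exact h1.symm

theorem aut_one {k : ℕ} (m : Fin k → ℕ) : IsAut m 1 := fun _ _ _ => Iff.rfl

section succ

variable {k : ℕ} {m : Fin (k + 1) → ℕ}

/-- the tree without the last level -/
def tl (m : Fin (k + 1) → ℕ) : Fin k → ℕ := fun j => m j.castSucc

/-- the parent of a leaf -/
def par (x : Leaf m) : Leaf (tl m) := fun j => x j.castSucc

theorem lev_iff {l : ℕ} (hl : l ≤ k) (x y : Leaf m) :
    (∀ j : Fin (k + 1), j.val < l → x j = y j) ↔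
      (∀ j : Fin k, j.val < l → par x j = par y j) := by
  constructor
  · intro h j hj
    exact h j.castSucc hj
  · intro h j hj
    have hj' : j.val < k := by omega
    have e : j = (⟨j.val, hj'⟩ : Fin k).castSucc := rfl
    rw [e]
    exact h ⟨j.val, hj'⟩ hj

theorem aut_of (ψ : Equiv.Perm (Leaf m)) (π : Equiv.Perm (Leaf (tl m))) (h₀ : IsAut (tl m) π)
    (h : ∀ x, par (ψ x) = π (par x)) : IsAut m ψ := by
  intro l x y
  by_cases hl : l ≤ k
  · rw [lev_iff hl, lev_iff hl, h, h]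
    exact h₀ l (par x) (par y)
  · have h1 : ∀ x y : Leaf m, (∀ j : Fin (k + 1), j.val < l → x j = y j) ↔ x = y := by
      intro x y
      constructor
      · intro h2
        funext j
        exact h2 j (by have := j.isLt; omega)
      · intro h2 j _
        rw [h2]
    rw [h1, h1]
    exact ψ.injective.eq_iff.symm

/-- leaves of the tree as pairs (parent, number) -/
def phi {q : ℕ} (e : Leaf (tl m) ≃ Fin q) : (Fin q × Fin (m (Fin.last k))) × Fin 1 ≃ Leaf m :=
  (Equiv.prodUnique (Fin q × Fin (m (Fin.last k))) (Fin 1)).trans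
    ((Equiv.prodComm _ _).trans (((Equiv.refl _).prodCongr e.symm).trans
      (Fin.snocEquiv (fun i => Fin (m i)))))

theorem par_phi {q : ℕ} (e : Leaf (tl m) ≃ Fin q) (y : (Fin q × Fin (m (Fin.last k))) × Fin 1) :
    par (phi e y) = e.symm y.1.1 := by
  funext j
  exact Fin.snoc_castSucc (α := fun i => Fin (m i)) _ _ _

theorem phi_symm {q : ℕ} (e : Leaf (tl m) ≃ Fin q) (x : Leaf m) :
    ((phi e).symm x).1.1 = e (par x) := by
  have h := par_phi e ((phi e).symm x)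
  rw [Equiv.apply_symm_apply] at h
  rw [h, Equiv.apply_symm_apply]

end succ

/-! ### permutations -/

/-- the local Poincare property of a set of permutations of the coordinates -/
def LPQ {κ : Type} [Fintype κ] (Q : Set (Equiv.Perm κ)) (D B : ℝ) : Prop :=
  ∃ N : V κ → ℝ, LPP (pm '' Q) D B N

theorem LPQ.mono {κ : Type} [Fintype κ] {Q : Set (Equiv.Perm κ)} {D B D' B' : ℝ}
    (h : LPQ Q D B) (hD : D ≤ D') (hB : B ≤ B') : LPQ Q D' B' := by
  obtain ⟨N, h⟩ := h
  exact ⟨N, Tr.mono h hD hB⟩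

theorem LPQ.map {κ κ' : Type} [Fintype κ] [Fintype κ'] (φ : κ ≃ κ') {Q : Set (Equiv.Perm κ)}
    {D B : ℝ} (h : LPQ Q D B) : LPQ (φ.permCongr '' Q) D B := by
  obtain ⟨N, h⟩ := h
  obtain ⟨T, hT⟩ : ∃ T : V κ ≃ₗᵢ[ℝ] V κ', T = LinearIsometryEquiv.piLpCongrLeft 2 ℝ ℝ φ :=
    ⟨_, rfl⟩
  have hTa : ∀ (x : V κ) (j : κ'), T x j = x (φ.symm j) := by
    intro x j
    rw [hT, LinearIsometryEquiv.piLpCongrLeft_apply]
    rfl
  have hTs : ∀ (x : V κ') (j : κ), T.symm x j = x (φ j) := by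
    intro x j
    have h1 := hTa (T.symm x) (φ j)
    rw [T.apply_symm_apply, Equiv.symm_apply_apply] at h1
    exact h1.symm
  have he : (fun g => T.symm.trans (g.trans T)) '' (pm '' Q) = pm '' (φ.permCongr '' Q) := by
    rw [image_image, image_image]
    refine image_congr fun ψ _ => ?_
    ext x j
    simp only [LinearIsometryEquiv.trans_apply]
    rw [hTa, pm_apply, hTs, pm_apply]
    rfl
  refine ⟨fun x => N (T.symm x), ?_⟩
  rw [← he]
  exact iso T h

/-- the permutations of the wreath product -/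
def QW {q : ℕ} (m : ℕ) (P : Set (Equiv.Perm (Fin q))) :
    Set (Equiv.Perm ((Fin q × Fin m) × Fin 1)) :=
  {ψ | ∃ k l : Fin q × Fin m, bl q m k = bl q m l ∧
    ψ = (Equiv.swap k l).prodCongr (Equiv.refl (Fin 1))} ∪
  (fun π : Equiv.Perm (Fin q) => (π.prodCongr (Equiv.refl (Fin m))).prodCongr (Equiv.refl (Fin 1)))
    '' P

theorem gp_eq {q : ℕ} (m : ℕ) (P : Set (Equiv.Perm (Fin q))) : GP m P = pm '' QW m P := by
  unfold GP QW
  rw [image_union, image_image]
  congr 1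
  ext g
  constructor
  · rintro ⟨k, l, hkl, rfl⟩
    exact ⟨_, ⟨k, l, hkl, rfl⟩, rfl⟩
  · rintro ⟨_, ⟨k, l, hkl, rfl⟩, rfl⟩
    exact ⟨k, l, hkl, rfl⟩

/-! ### the induction -/

/-- the factor -/
noncomputable def F {k : ℕ} (m : Fin k → ℕ) : ℝ :=
  ∏ j, (1 + Real.log (∏ i ∈ Finset.univ.filter (fun i => i < j), (m i : ℝ)) / m j) ^ 2

theorem log_prod_nonneg {k : ℕ} {m : Fin k → ℕ} (hm : ∀ j, 1 ≤ m j) (S : Finset (Fin k)) :
    0 ≤ Real.log (∏ i ∈ S, (m i : ℝ)) := by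
  refine Real.log_nonneg ?_
  refine Finset.prod_induction _ (fun x : ℝ => 1 ≤ x)
    (fun a b ha hb => one_le_mul_of_one_le_of_one_le ha hb) le_rfl fun i _ => ?_
  exact_mod_cast hm i

theorem F_one {k : ℕ} {m : Fin k → ℕ} (hm : ∀ j, 1 ≤ m j) : 1 ≤ F m := by
  unfold F
  refine Finset.prod_induction _ (fun x : ℝ => 1 ≤ x)
    (fun a b ha hb => one_le_mul_of_one_le_of_one_le ha hb) le_rfl fun j _ => ?_
  refine one_le_pow₀ ?_
  have h1 := log_prod_nonneg hm (Finset.univ.filter (fun i => i < j))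
  have h2 : 0 ≤ Real.log (∏ i ∈ Finset.univ.filter (fun i => i < j), (m i : ℝ)) / m j :=
    div_nonneg h1 (Nat.cast_nonneg _)
  linarith

theorem F_succ {k : ℕ} (m : Fin (k + 1) → ℕ) :
    F m = F (tl m) * (1 + Real.log (Fintype.card (Leaf (tl m))) / m (Fin.last k)) ^ 2 := by
  unfold F
  rw [Fin.prod_univ_castSucc]
  congr 1
  · refine Finset.prod_congr rfl fun j _ => ?_
    have h1 : ∏ i ∈ Finset.univ.filter (fun i => i < j.castSucc), (m i : ℝ) =
        ∏ i ∈ Finset.univ.filter (fun i => i < j), (tl m i : ℝ) := by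
      rw [Finset.prod_filter, Fin.prod_univ_castSucc, Finset.prod_filter,
        if_neg (not_lt.2 (Fin.le_last _)), mul_one]
      refine Finset.prod_congr rfl fun i _ => ?_
      simp only [Fin.castSucc_lt_castSucc_iff]
      rfl
    rw [h1]
    rfl
  · have h1 : ∏ i ∈ Finset.univ.filter (fun i => i < Fin.last k), (m i : ℝ) =
        (Fintype.card (Leaf (tl m)) : ℝ) := by
      rw [Finset.prod_filter, Fin.prod_univ_castSucc, if_neg (lt_irrefl _), mul_one,
        Fintype.card_pi, Nat.cast_prod]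
      refine Finset.prod_congr rfl fun i _ => ?_
      rw [if_pos (Fin.castSucc_lt_last i), Fintype.card_fin]
      rfl
    rw [h1]

theorem tree {C₁ C₂ : ℝ} (hC₁ : 0 < C₁) (hin : In C₁) (hC₂ : 0 < C₂) (hT : Core.T0 C₂) :
    ∃ C : ℝ, 1 ≤ C ∧ ∀ (k : ℕ) (m : Fin k → ℕ), (∀ j, 1 ≤ m j) →
      ∃ Q : Set (Equiv.Perm (Leaf m)), (∀ ψ ∈ Q, IsAut m ψ) ∧
        LPQ Q (C ^ ((k + 1) ^ 2) * F m) (C ^ (k + 1)) := by
  obtain ⟨D₀, hD₀, hbase⟩ := base
  obtain ⟨C, hC⟩ : ∃ C : ℝ, C = D₀ + 28 + 2010 * (9 * C₁ * C₂ ^ 2 + 1) := ⟨_, rfl⟩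
  have hpos : 0 < C₁ * C₂ ^ 2 := by positivity
  have hC28 : 28 ≤ C := by rw [hC]; linarith
  have hCD : D₀ ≤ C := by rw [hC]; linarith
  have hCc : 2010 * (9 * C₁ * C₂ ^ 2 + 1) ≤ C := by rw [hC]; linarith
  have hC1 : 1 ≤ C := by linarith
  have hC0 : 0 < C := by linarith
  refine ⟨C, hC1, ?_⟩
  intro k
  induction k with
  | zero =>
    intro m hm
    have hu : Unique (Leaf m) := inferInstance
    refine ⟨(Equiv.ofUnique (Fin 1) (Leaf m)).permCongr '' univ, ?_, ?_⟩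
    · intro ψ _ l x y
      exact ⟨fun _ j => j.elim0, fun _ j => j.elim0⟩
    · have h1 : LPQ (univ : Set (Equiv.Perm (Fin 1))) D₀ 4 := ⟨_, hbase 1 le_rfl⟩
      refine (h1.map (Equiv.ofUnique (Fin 1) (Leaf m))).mono ?_ ?_
      · have h2 : F m = 1 := by
          unfold F
          rw [Finset.univ_eq_empty, Finset.prod_empty]
        rw [h2, mul_one]
        simpa using hCD
      · have h2 : (4 : ℝ) ≤ C := by linarith
        simpa using h2
  | succ k ih =>
    intro m hm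
    obtain ⟨Q₀, hQ₀, hL⟩ := ih (tl m) fun j => hm _
    obtain ⟨q, hq⟩ : ∃ q : ℕ, q = Fintype.card (Leaf (tl m)) := ⟨_, rfl⟩
    have hne : Nonempty (Leaf (tl m)) := ⟨fun j => ⟨0, hm _⟩⟩
    have hq1 : 1 ≤ q := by rw [hq]; exact Fintype.card_pos
    obtain ⟨e⟩ : Nonempty (Leaf (tl m) ≃ Fin q) := by rw [hq]; exact ⟨Fintype.equivFin _⟩
    have hml := hm (Fin.last k)
    obtain ⟨n, hn⟩ : ∃ n : ℕ, n = m (Fin.last k) := ⟨_, rfl⟩
    obtain ⟨N, hN⟩ := hL.map e
    have hFt := F_one (m := tl m) fun j => hm _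
    obtain ⟨D, hD⟩ : ∃ D : ℝ, D = C ^ ((k + 1) ^ 2) * F (tl m) := ⟨_, rfl⟩
    obtain ⟨B, hB⟩ : ∃ B : ℝ, B = C ^ (k + 1) := ⟨_, rfl⟩
    rw [← hD, ← hB] at hN
    have hB1 : 1 ≤ B := by rw [hB]; exact one_le_pow₀ hC1
    have hD1 : 1 ≤ D := by
      rw [hD]
      exact one_le_mul_of_one_le_of_one_le (one_le_pow₀ hC1) hFt
    have hstep := step hC₁ hin hC₂ hT hN (by linarith) hB1 hq1 (m := m (Fin.last k)) hml rfl
    rw [gp_eq] at hstep
    have hLQ : LPQ (QW (m (Fin.last k)) (e.permCongr '' Q₀)) _ _ := ⟨_, hstep⟩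
    refine ⟨(phi e).permCongr '' QW (m (Fin.last k)) (e.permCongr '' Q₀), ?_,
      (hLQ.map (phi e)).mono ?_ ?_⟩
    · rintro ψ ⟨ζ, hζ, rfl⟩
      rcases hζ with ⟨a, b, hab, rfl⟩ | ⟨π, ⟨π₀, hπ₀, rfl⟩, rfl⟩
      · refine aut_of _ 1 (aut_one _) fun x => ?_
        rw [Equiv.permCongr_apply, par_phi]
        have h1 : ∀ y : (Fin q × Fin (m (Fin.last k))) × Fin 1,
            (((Equiv.swap a b).prodCongr (Equiv.refl (Fin 1))) y).1.1 = y.1.1 := by
          intro y
          show (Equiv.swap a b y.1).1 = y.1.1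
          by_cases h2 : y.1 = a
          · rw [h2, Equiv.swap_apply_left]
            exact hab.symm
          · by_cases h3 : y.1 = b
            · rw [h3, Equiv.swap_apply_right]
              exact hab
            · rw [Equiv.swap_apply_of_ne_of_ne h2 h3]
        rw [h1, phi_symm, Equiv.symm_apply_apply]
        rfl
      · refine aut_of _ π₀ (hQ₀ π₀ hπ₀) fun x => ?_
        rw [Equiv.permCongr_apply, par_phi]
        show e.symm ((e.permCongr π₀) (((phi e).symm x).1.1)) = _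
        rw [phi_symm, Equiv.permCongr_apply, Equiv.symm_apply_apply, Equiv.symm_apply_apply]
    · -- the constant
      obtain ⟨Λ, hΛ⟩ : ∃ Λ : ℝ, Λ = 1 + Real.log q / m (Fin.last k) := ⟨_, rfl⟩
      have hq1' : (1 : ℝ) ≤ q := by exact_mod_cast hq1
      have hlog : 0 ≤ Real.log q := Real.log_nonneg hq1'
      have hm0 : (0 : ℝ) < m (Fin.last k) := by exact_mod_cast hml
      have hΛ1 : 1 ≤ Λ := by
        rw [hΛ]
        have : 0 ≤ Real.log q / m (Fin.last k) := by positivity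
        linarith
      have hFm : F m = F (tl m) * Λ ^ 2 := by rw [F_succ, ← hq, hΛ]
      rw [hFm]
      have e1 : C₁ * (C₂ * (3 + Real.log q / m (Fin.last k))) ^ 2 + 1 ≤
          (9 * C₁ * C₂ ^ 2 + 1) * Λ ^ 2 := by
        have h1 : C₂ * (3 + Real.log q / m (Fin.last k)) ≤ 3 * C₂ * Λ := by
          rw [hΛ]
          have : 0 ≤ Real.log q / m (Fin.last k) := by positivity
          nlinarith
        have h2 : 0 ≤ C₂ * (3 + Real.log q / m (Fin.last k)) := by positivity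
        have h3 := pow_le_pow_left₀ h2 h1 2
        have h4 := mul_le_mul_of_nonneg_left h3 hC₁.le
        have h5 : 1 ≤ Λ ^ 2 := one_le_pow₀ hΛ1
        calc C₁ * (C₂ * (3 + Real.log q / m (Fin.last k))) ^ 2 + 1
            ≤ C₁ * (3 * C₂ * Λ) ^ 2 + Λ ^ 2 := add_le_add h4 h5
          _ = (9 * C₁ * C₂ ^ 2 + 1) * Λ ^ 2 := by ring
      have e2 : 10 + 50 * D * (36 * B ^ 2 + 4) ≤ 2010 * (D * B ^ 2) := by
        have h1 : 1 ≤ B ^ 2 := one_le_pow₀ hB1
        have h2 : D ≤ D * B ^ 2 := by nlinarith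
        nlinarith
      have hDB : 0 ≤ D * B ^ 2 := by positivity
      have e3 : (10 + 50 * D * (36 * B ^ 2 + 4)) *
          (C₁ * (C₂ * (3 + Real.log q / m (Fin.last k))) ^ 2 + 1) ≤
          2010 * (D * B ^ 2) * ((9 * C₁ * C₂ ^ 2 + 1) * Λ ^ 2) :=
        mul_le_mul e2 e1 (by positivity) (by positivity)
      refine e3.trans ?_
      have e4 : 2010 * (D * B ^ 2) * ((9 * C₁ * C₂ ^ 2 + 1) * Λ ^ 2) =
          (2010 * (9 * C₁ * C₂ ^ 2 + 1)) * (D * B ^ 2 * Λ ^ 2) := by ring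
      rw [e4]
      have e5 : 0 ≤ D * B ^ 2 * Λ ^ 2 := by positivity
      refine (mul_le_mul_of_nonneg_right hCc e5).trans (le_of_eq ?_)
      rw [hD, hB]
      ring
    · rw [hB]
      have h1 : 0 ≤ C ^ (k + 1) := by positivity
      calc 28 * C ^ (k + 1) ≤ C * C ^ (k + 1) := mul_le_mul_of_nonneg_right hC28 h1
        _ = C ^ (k + 1 + 1) := by ring

end Tr

end Pool.Agent.TH597.HX
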