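import Pool.Agent.TH597.HX.Stm
import Pool.Agent.H888R2.KT.V5

/-!
# Removing a Gaussian tilt, with a Poincare inequality for the law of the centre

Adapted from `H888R2.KT.V5` of the starting files.
-/

set_option autoImplicit false

namespace Pool.Agent.TH597.HX

open MeasureTheory Set
open scoped ENNReal InnerProductSpace
open Pool.Agent.H212R2.KLS (mu Bdd)
open Pool.Agent.H888R2.KT (LC St tw tw_deriv tw_fub)
open Pool.Agent.H888R2.KT.V5x (tw_pos tw_cont intg cs expand norm_comb inner_comb int3)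
open Pool.Agent.TH594.KP (V)

namespace Unt

variable {κ : Type} [Fintype κ] {q : ℕ}

/-- Fubini on a set of centres -/
theorem fubU (μ : Measure (V κ)) [IsFiniteMeasure μ]
    (hb : ∃ R, μ (Metric.closedBall 0 R)ᶜ = 0) (e : Fin q → V κ) (K : ℝ) (hK : 0 < K)
    (g : V κ → ℝ) (hg : Continuous g) (U : Set (V (Fin q))) :
    ∫ τ in U, ∫ x, g x * tw e K τ x ∂μ = ∫ x, g x * (∫ τ in U, tw e K τ x) ∂μ := by
  have hcont : Continuous (fun p : V (Fin q) × V κ => g p.2 * tw e K p.1 p.2) := by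
    refine (hg.comp continuous_snd).mul ?_
    unfold tw
    refine Real.continuous_exp.comp (Continuous.neg (Continuous.div_const ?_ _))
    refine continuous_finsetSum _ fun j _ => ?_
    have h1 : Continuous fun p : V (Fin q) × V κ =>
        ⟪e j, p.2⟫_ℝ := continuous_const.inner continuous_snd
    have h2 : Continuous fun p : V (Fin q) × V κ => p.1 j := by
      fun_prop
    exact (h1.sub h2).pow 2
  have hw : ∀ x : V κ, (Integrable fun τ : V (Fin q) => tw e K τ x) ∧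
      ∫ τ, tw e K τ x = Real.sqrt (2 * Real.pi * K) ^ q := by
    intro x
    obtain ⟨h1, h2⟩ := Pool.Agent.H888R2.KT.V4bx.w1 K hK (fun j => ⟪e j, x⟫_ℝ)
    simp only [one_mul] at h1 h2
    exact ⟨h1, h2⟩
  have hint : Integrable (fun p : V (Fin q) × V κ => g p.2 * tw e K p.1 p.2)
      ((volume : Measure (V (Fin q))).prod μ) := by
    rw [integrable_prod_iff' hcont.aestronglyMeasurable]
    constructor
    · exact ae_of_all _ fun x => (hw x).1.const_mul (g x)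
    · have h1 : ∀ x : V κ, ∫ τ : V (Fin q), ‖g x * tw e K τ x‖ =
          |g x| * Real.sqrt (2 * Real.pi * K) ^ q := by
        intro x
        rw [← (hw x).2, ← integral_const_mul]
        congr 1
        ext τ
        rw [norm_mul, Real.norm_eq_abs, Real.norm_eq_abs, abs_of_nonneg (tw_pos e K τ x).le]
      simp only [h1]
      exact intg μ hb _ (hg.abs.mul continuous_const)
  have hint' : Integrable (fun p : V (Fin q) × V κ => g p.2 * tw e K p.1 p.2)
      (((volume : Measure (V (Fin q))).restrict U).prod μ) := by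
    have h1 : ((volume : Measure (V (Fin q))).restrict U).prod μ =
        ((volume : Measure (V (Fin q))).prod μ).restrict (U ×ˢ univ) := by
      rw [← Measure.prod_restrict, Measure.restrict_univ]
    rw [h1]
    exact hint.restrict
  rw [integral_integral_swap hint']
  refine integral_congr_ae (Filter.Eventually.of_forall fun x => ?_)
  show ∫ τ in U, g x * tw e K τ x = _
  rw [integral_const_mul]

theorem unt (μ : Measure (V κ)) [IsFiniteMeasure μ] [NeZero μ]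
    (hb : ∃ R, μ (Metric.closedBall 0 R)ᶜ = 0)
    (e : Fin q → V κ) (he : Orthonormal ℝ e) (K : ℝ) (hK : 0 < K)
    (U : Set (V (Fin q))) (hU : MeasurableSet U) (D₀ : ℝ) (hD₀ : 0 ≤ D₀)
    (hZU : ∀ M : V (Fin q) → ℝ, ContDiff ℝ 1 M → ∃ c : ℝ,
      ∫ τ in U, (M τ - c) ^ 2 * (∫ x, tw e K τ x ∂μ) ≤
        D₀ * ∫ τ in U, ‖fderiv ℝ M τ‖ ^ 2 * (∫ x, tw e K τ x ∂μ))
    (hmass : ∀ᵐ x ∂μ, Real.sqrt (2 * Real.pi * K) ^ q / 2 ≤ ∫ τ in U, tw e K τ x)
    (hloc : ∀ (τ : V (Fin q)) (f : V κ → ℝ), ContDiff ℝ 1 f →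
      ∃ c : ℝ, ∫ x, (f x - c) ^ 2 * tw e K τ x ∂μ ≤
        5 * K * ∫ x, ‖fderiv ℝ f x‖ ^ 2 * tw e K τ x ∂μ)
    (f : V κ → ℝ) (hf : ContDiff ℝ 1 f) :
    ∃ c : ℝ, ∫ x, (f x - c) ^ 2 ∂μ ≤ 2 * (5 * K + 25 * D₀) * ∫ x, ‖fderiv ℝ f x‖ ^ 2 ∂μ := by
  have hfc : Continuous f := hf.continuous
  have hdc : Continuous fun x => ‖fderiv ℝ f x‖ ^ 2 :=
    ((hf.continuous_fderiv (by norm_num)).norm).pow 2
  have hWc := tw_cont e K
  set Z : EuclideanSpace ℝ (Fin q) → ℝ := fun τ => ∫ x, tw e K τ x ∂μ with hZdef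
  set A : EuclideanSpace ℝ (Fin q) → ℝ := fun τ => ∫ x, f x * tw e K τ x ∂μ with hAdef
  set D : EuclideanSpace ℝ (Fin q) → ℝ :=
    fun τ => ∫ x, ‖fderiv ℝ f x‖ ^ 2 * tw e K τ x ∂μ with hDdef
  have hZpos : ∀ τ, 0 < Z τ := fun τ =>
    integral_exp_pos (intg μ hb (tw e K τ) (hWc τ))
  obtain ⟨hZ1, hZd⟩ := tw_deriv μ hb e K hK (fun _ => (1 : ℝ)) continuous_const
  simp only [one_mul] at hZ1 hZd
  have hZ1 : ContDiff ℝ 1 Z := hZ1
  obtain ⟨hA1, hAd⟩ := tw_deriv μ hb e K hK f hfc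
  have hA1 : ContDiff ℝ 1 A := hA1
  have hZc : Continuous Z := hZ1.continuous
  have hAc : Continuous A := hA1.continuous
  obtain ⟨hZi, hZI, hZ2i, hZ2I⟩ := tw_fub μ hb e K hK (fun _ => (1 : ℝ)) continuous_const
  simp only [one_mul] at hZi hZI
  have hZi : Integrable Z := hZi
  obtain ⟨hDi, hDI, -, -⟩ := tw_fub μ hb e K hK (fun x => ‖fderiv ℝ f x‖ ^ 2) hdc
  have hDi : Integrable D := hDi
  set G : ℝ := Real.sqrt (2 * Real.pi * K) ^ q with hG
  have hGpos : 0 < G := pow_pos (Real.sqrt_pos.2 (by positivity)) _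
  set J : ℝ := ∫ x, ‖fderiv ℝ f x‖ ^ 2 ∂μ with hJ
  have hJ0 : 0 ≤ J := integral_nonneg fun x => by positivity
  have hDI : ∫ τ, D τ = G * J := hDI
  -- the mean
  set M : EuclideanSpace ℝ (Fin q) → ℝ := fun τ => A τ / Z τ with hMdef
  have hMm : ∀ τ, ∫ x, f x * tw e K τ x ∂μ = M τ * ∫ x, tw e K τ x ∂μ := fun τ => by
    show A τ = A τ / Z τ * Z τ
    rw [div_mul_cancel₀ _ (hZpos τ).ne']
  have hMc1 : ContDiff ℝ 1 M := hA1.div hZ1 fun τ => (hZpos τ).ne'
  have hMc : Continuous M := hMc1.continuous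
  have hM'c : Continuous (fderiv ℝ M) := hMc1.continuous_fderiv (by norm_num)
  have hMd : ∀ τ a, fderiv ℝ M τ a * Z τ = fderiv ℝ A τ a - M τ * fderiv ℝ Z τ a := by
    intro τ a
    have h1 : A = fun τ => M τ * Z τ := by
      funext τ
      show A τ = A τ / Z τ * Z τ
      rw [div_mul_cancel₀ _ (hZpos τ).ne']
    have h2 : HasFDerivAt (fun τ => M τ * Z τ) (M τ • fderiv ℝ Z τ + Z τ • fderiv ℝ M τ) τ :=
      ((hMc1.differentiable (by norm_num) τ).hasFDerivAt).mul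
        ((hZ1.differentiable (by norm_num) τ).hasFDerivAt)
    have h3 : fderiv ℝ A τ = M τ • fderiv ℝ Z τ + Z τ • fderiv ℝ M τ := by
      rw [h1]
      exact h2.fderiv
    rw [h3]
    simp only [ContinuousLinearMap.add_apply, ContinuousLinearMap.smul_apply, smul_eq_mul]
    ring
  -- variance bounds
  have hvar : ∀ (g : EuclideanSpace ℝ κ → ℝ) (_ : ContDiff ℝ 1 g)
      (τ : EuclideanSpace ℝ (Fin q)) (m : ℝ),
      ∫ x, g x * tw e K τ x ∂μ = m * ∫ x, tw e K τ x ∂μ →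
      ∫ x, (g x - m) ^ 2 * tw e K τ x ∂μ ≤
        5 * K * ∫ x, ‖fderiv ℝ g x‖ ^ 2 * tw e K τ x ∂μ := by
    intro g hg τ m hm
    obtain ⟨c, hc⟩ := hloc τ g hg
    have h1 := expand μ hb g (tw e K τ) hg.continuous (hWc τ) m hm c
    have h2 : 0 ≤ (m - c) ^ 2 * ∫ x, tw e K τ x ∂μ := mul_nonneg (sq_nonneg _) (hZpos τ).le
    linarith
  -- the derivative of the mean
  have hM'a : ∀ τ a, (fderiv ℝ M τ a) ^ 2 * Z τ ≤ 25 * ‖a‖ ^ 2 * D τ := by
    intro τ a
    set v : EuclideanSpace ℝ κ := ∑ j, a j • e j with hv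
    have hvn : ‖v‖ ^ 2 = ‖a‖ ^ 2 := norm_comb e he a
    have hvi : ∀ x, ∑ j, a j * (⟪e j, x⟫_ℝ - τ j) = ⟪v, x⟫_ℝ - ∑ j, a j * τ j := by
      intro x
      rw [hv, inner_comb, ← Finset.sum_sub_distrib]
      refine Finset.sum_congr rfl fun j _ => ?_
      ring
    set s : ℝ := ∑ j, a j * τ j with hs
    set T : ℝ := (∫ x, ⟪v, x⟫_ℝ * tw e K τ x ∂μ) / Z τ with hT
    have hTm : ∫ x, ⟪v, x⟫_ℝ * tw e K τ x ∂μ = T * ∫ x, tw e K τ x ∂μ := by
      show _ = (∫ x, ⟪v, x⟫_ℝ * tw e K τ x ∂μ) / Z τ * Z τ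
      rw [div_mul_cancel₀ _ (hZpos τ).ne']
    have hlC : ContDiff ℝ 1 fun x : EuclideanSpace ℝ κ => ⟪v, x⟫_ℝ := (innerSL ℝ v).contDiff
    have v1 := hvar f hf τ (M τ) (hMm τ)
    have v2 := hvar (fun x => ⟪v, x⟫_ℝ) hlC τ T hTm
    have hfd : ∀ x : EuclideanSpace ℝ κ, ‖fderiv ℝ (fun x => ⟪v, x⟫_ℝ) x‖ ^ 2 = ‖a‖ ^ 2 := by
      intro x
      have h1 : fderiv ℝ (fun x : EuclideanSpace ℝ κ => ⟪v, x⟫_ℝ) x = innerSL ℝ v :=
        (innerSL ℝ v).hasFDerivAt.fderiv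
      rw [h1, innerSL_apply_norm, hvn]
    have v3 : ∫ x, ‖fderiv ℝ (fun x : EuclideanSpace ℝ κ => ⟪v, x⟫_ℝ) x‖ ^ 2 * tw e K τ x ∂μ =
        ‖a‖ ^ 2 * Z τ := by
      simp only [hfd]
      rw [integral_const_mul]
    have hcs := cs μ hb (fun x => f x - M τ) (fun x => ⟪v, x⟫_ℝ - T) (tw e K τ)
      (by fun_prop) (by fun_prop) (hWc τ) (fun x => (tw_pos e K τ x).le)
    have i1 := intg μ hb (fun x => f x * tw e K τ x) (hfc.mul (hWc τ))
    have i2 := intg μ hb (fun x => tw e K τ x) (hWc τ)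
    have i3 := intg μ hb (fun x => (f x - M τ) * (⟪v, x⟫_ℝ - T) * tw e K τ x)
      (Continuous.mul (by fun_prop) (hWc τ))
    -- `M' Z = K⁻¹ ∫ (f - M) (ℓ - T) W`
    have hkey : fderiv ℝ M τ a * Z τ =
        K⁻¹ * ∫ x, (f x - M τ) * (⟪v, x⟫_ℝ - T) * tw e K τ x ∂μ := by
      have i4 := intg μ hb (fun x => f x * ((⟪v, x⟫_ℝ - s) / K) * tw e K τ x)
        (Continuous.mul (by fun_prop) (hWc τ))
      have i5 := intg μ hb (fun x => ((⟪v, x⟫_ℝ - s) / K) * tw e K τ x)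
        (Continuous.mul (by fun_prop) (hWc τ))
      have hZd' : fderiv ℝ Z τ a = ∫ x, ((⟪v, x⟫_ℝ - s) / K) * tw e K τ x ∂μ := by
        rw [hZd τ a]
        simp only [hvi]
      have hAd' : fderiv ℝ A τ a = ∫ x, f x * ((⟪v, x⟫_ℝ - s) / K) * tw e K τ x ∂μ := by
        rw [hAd τ a]
        simp only [hvi]
      have h2 : fderiv ℝ A τ a - M τ * fderiv ℝ Z τ a =
          ∫ x, (f x * ((⟪v, x⟫_ℝ - s) / K) * tw e K τ x -
            M τ * (((⟪v, x⟫_ℝ - s) / K) * tw e K τ x)) ∂μ := by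
        rw [integral_sub i4 (i5.const_mul _), integral_const_mul, hZd', hAd']
      have h3 : (fun x => f x * ((⟪v, x⟫_ℝ - s) / K) * tw e K τ x -
          M τ * (((⟪v, x⟫_ℝ - s) / K) * tw e K τ x)) = fun x =>
          (K⁻¹ * ((f x - M τ) * (⟪v, x⟫_ℝ - T) * tw e K τ x) +
            (K⁻¹ * (T - s)) * (f x * tw e K τ x)) + (-(K⁻¹ * (T - s) * M τ)) * tw e K τ x := by
        funext x
        field_simp
        ring
      rw [hMd τ a, h2, h3, int3 μ (fun x => (f x - M τ) * (⟪v, x⟫_ℝ - T) * tw e K τ x)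
        (fun x => f x * tw e K τ x) (fun x => tw e K τ x) K⁻¹ (K⁻¹ * (T - s))
        (-(K⁻¹ * (T - s) * M τ)) i3 i1 i2, hMm τ]
      ring
    set X := ∫ x, (f x - M τ) * (⟪v, x⟫_ℝ - T) * tw e K τ x ∂μ with hX
    have hD0 : 0 ≤ D τ := integral_nonneg fun x => mul_nonneg (by positivity) (tw_pos e K τ x).le
    have hXle : X ^ 2 ≤ (5 * K * D τ) * (5 * K * (‖a‖ ^ 2 * Z τ)) := by
      refine hcs.trans (mul_le_mul v1 (v2.trans (le_of_eq ?_)) ?_ (by positivity))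
      · rw [v3]
      · exact integral_nonneg fun x => mul_nonneg (sq_nonneg _) (tw_pos e K τ x).le
    have h5 : (fderiv ℝ M τ a * Z τ) ^ 2 ≤ 25 * ‖a‖ ^ 2 * D τ * Z τ := by
      rw [hkey, mul_pow]
      have h6 : (K⁻¹) ^ 2 * ((5 * K * D τ) * (5 * K * (‖a‖ ^ 2 * Z τ))) =
          25 * ‖a‖ ^ 2 * D τ * Z τ := by
        field_simp
        ring
      rw [← h6]
      exact mul_le_mul_of_nonneg_left hXle (by positivity)
    have h7 : ((fderiv ℝ M τ a) ^ 2 * Z τ) * Z τ ≤ (25 * ‖a‖ ^ 2 * D τ) * Z τ := by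
      calc ((fderiv ℝ M τ a) ^ 2 * Z τ) * Z τ = (fderiv ℝ M τ a * Z τ) ^ 2 := by ring
        _ ≤ _ := h5
    exact le_of_mul_le_mul_right h7 (hZpos τ)
  have hM'Z : ∀ τ, ‖fderiv ℝ M τ‖ ^ 2 * Z τ ≤ 25 * D τ := by
    intro τ
    have hD0 : 0 ≤ D τ := integral_nonneg fun x => mul_nonneg (by positivity) (tw_pos e K τ x).le
    have h1 : ‖fderiv ℝ M τ‖ ≤ Real.sqrt (25 * D τ / Z τ) := by
      refine ContinuousLinearMap.opNorm_le_bound _ (Real.sqrt_nonneg _) fun a => ?_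
      rw [Real.norm_eq_abs]
      refine abs_le_of_sq_le_sq ?_ (by positivity)
      rw [mul_pow, Real.sq_sqrt (div_nonneg (by positivity) (hZpos τ).le)]
      have h2 := hM'a τ a
      rw [div_mul_eq_mul_div, le_div_iff₀ (hZpos τ)]
      calc (fderiv ℝ M τ a) ^ 2 * Z τ ≤ 25 * ‖a‖ ^ 2 * D τ := h2
        _ = 25 * D τ * ‖a‖ ^ 2 := by ring
    have h2 : ‖fderiv ℝ M τ‖ ^ 2 ≤ 25 * D τ / Z τ := by
      have h3 := pow_le_pow_left₀ (norm_nonneg _) h1 2
      rwa [Real.sq_sqrt (div_nonneg (by positivity) (hZpos τ).le)] at h3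
    rwa [le_div_iff₀ (hZpos τ)] at h2
  -- boundedness of the mean
  have hMb : ∃ B, ∀ τ, |M τ| ≤ B := by
    obtain ⟨R, hR⟩ := hb
    obtain ⟨C, hC⟩ := (isCompact_closedBall (0 : EuclideanSpace ℝ κ) R).exists_bound_of_continuousOn
      hfc.continuousOn
    refine ⟨C, fun τ => ?_⟩
    have hae : ∀ᵐ x ∂μ, x ∈ Metric.closedBall (0 : EuclideanSpace ℝ κ) R := by
      rw [ae_iff]
      exact hR
    have h1 : |A τ| ≤ C * Z τ := by
      have h2 : |A τ| ≤ ∫ x, C * tw e K τ x ∂μ := by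
        rw [← Real.norm_eq_abs]
        refine norm_integral_le_of_norm_le ((intg μ ⟨R, hR⟩ _ (hWc τ)).const_mul C) ?_
        filter_upwards [hae] with x hx
        rw [norm_mul, Real.norm_of_nonneg (tw_pos e K τ x).le]
        exact mul_le_mul_of_nonneg_right (hC x hx) (tw_pos e K τ x).le
      rwa [integral_const_mul] at h2
    show |A τ / Z τ| ≤ C
    rw [abs_div, abs_of_pos (hZpos τ), div_le_iff₀ (hZpos τ)]
    exact h1
  have hM'i : Integrable fun τ => ‖fderiv ℝ M τ‖ ^ 2 * Z τ := by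
    refine Integrable.mono' (hDi.const_mul 25) ((hM'c.norm.pow 2).mul hZc).aestronglyMeasurable
      (Filter.Eventually.of_forall fun τ => ?_)
    rw [Real.norm_of_nonneg (mul_nonneg (sq_nonneg _) (hZpos τ).le)]
    exact hM'Z τ
  have hDnn : ∀ τ, 0 ≤ D τ := fun τ =>
    integral_nonneg fun x => mul_nonneg (by positivity) (tw_pos e K τ x).le
  obtain ⟨c, hc⟩ := hZU M hMc1
  refine ⟨c, ?_⟩
  obtain ⟨hFi, hFI, -, -⟩ := tw_fub μ hb e K hK (fun x => (f x - c) ^ 2) (by fun_prop)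
  obtain ⟨B, hB⟩ := hMb
  have hMi : Integrable fun τ => (M τ - c) ^ 2 * Z τ := by
    refine Integrable.mono' (hZi.const_mul ((B + |c|) ^ 2))
      (((hMc.sub continuous_const).pow 2).mul hZc).aestronglyMeasurable
      (Filter.Eventually.of_forall fun τ => ?_)
    rw [Real.norm_of_nonneg (mul_nonneg (sq_nonneg _) (hZpos τ).le)]
    refine mul_le_mul_of_nonneg_right ?_ (hZpos τ).le
    rw [← sq_abs]
    refine pow_le_pow_left₀ (abs_nonneg _) ?_ 2
    exact (abs_sub _ _).trans (add_le_add (hB τ) le_rfl)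
  have hpt : ∀ τ, ∫ x, (f x - c) ^ 2 * tw e K τ x ∂μ ≤ 5 * K * D τ + (M τ - c) ^ 2 * Z τ := by
    intro τ
    rw [expand μ hb f (tw e K τ) hfc (hWc τ) (M τ) (hMm τ) c]
    exact add_le_add (hvar f hf τ (M τ) (hMm τ)) le_rfl
  have hDU : ∫ τ in U, D τ ≤ G * J := by
    rw [← hDI]
    exact setIntegral_le_integral hDi (Filter.Eventually.of_forall hDnn)
  have hfin : ∫ τ in U, ‖fderiv ℝ M τ‖ ^ 2 * Z τ ≤ 25 * (G * J) := by
    calc ∫ τ in U, ‖fderiv ℝ M τ‖ ^ 2 * Z τ ≤ ∫ τ in U, 25 * D τ :=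
          setIntegral_mono hM'i.integrableOn (hDi.const_mul 25).integrableOn hM'Z
      _ = 25 * ∫ τ in U, D τ := by rw [integral_const_mul]
      _ ≤ 25 * (G * J) := mul_le_mul_of_nonneg_left hDU (by norm_num)
  have hFU := fubU μ hb e K hK (fun x => (f x - c) ^ 2) (by fun_prop) U
  have hup : ∫ τ in U, ∫ x, (f x - c) ^ 2 * tw e K τ x ∂μ ≤
      5 * K * (G * J) + D₀ * (25 * (G * J)) := by
    calc ∫ τ in U, ∫ x, (f x - c) ^ 2 * tw e K τ x ∂μ
        ≤ ∫ τ in U, (5 * K * D τ + (M τ - c) ^ 2 * Z τ) :=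
          setIntegral_mono hFi.integrableOn ((hDi.const_mul _).add hMi).integrableOn hpt
      _ = 5 * K * (∫ τ in U, D τ) + ∫ τ in U, (M τ - c) ^ 2 * Z τ := by
        rw [integral_add (hDi.const_mul _).integrableOn hMi.integrableOn, integral_const_mul]
      _ ≤ 5 * K * (G * J) + D₀ * (25 * (G * J)) := by
        refine add_le_add (mul_le_mul_of_nonneg_left hDU (by positivity)) (hc.trans ?_)
        exact mul_le_mul_of_nonneg_left hfin hD₀
  have hwi : ∀ x : V κ, (Integrable fun τ : V (Fin q) => tw e K τ x) ∧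
      ∫ τ, tw e K τ x = Real.sqrt (2 * Real.pi * K) ^ q := by
    intro x
    obtain ⟨h1, h2⟩ := Pool.Agent.H888R2.KT.V4bx.w1 K hK (fun j => ⟪e j, x⟫_ℝ)
    simp only [one_mul] at h1 h2
    exact ⟨h1, h2⟩
  have hUx : ∀ x : V κ, 0 ≤ ∫ τ in U, tw e K τ x ∧ ∫ τ in U, tw e K τ x ≤ G := by
    intro x
    refine ⟨integral_nonneg fun τ => (tw_pos e K τ x).le, ?_⟩
    rw [hG, ← (hwi x).2]
    exact setIntegral_le_integral (hwi x).1 (Filter.Eventually.of_forall fun τ => (tw_pos e K τ x).le)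
  have hlow : G / 2 * ∫ x, (f x - c) ^ 2 ∂μ ≤ ∫ x, (f x - c) ^ 2 * (∫ τ in U, tw e K τ x) ∂μ := by
    rw [← integral_const_mul]
    have hmeas : AEStronglyMeasurable (fun x => ∫ τ in U, tw e K τ x) μ := by
      have hcont : Continuous (fun p : V κ × V (Fin q) => tw e K p.2 p.1) := by
        unfold tw
        refine Real.continuous_exp.comp (Continuous.neg (Continuous.div_const ?_ _))
        refine continuous_finsetSum _ fun j _ => ?_
        have h1 : Continuous fun p : V κ × V (Fin q) =>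
            ⟪e j, p.1⟫_ℝ := continuous_const.inner continuous_fst
        have h2 : Continuous fun p : V κ × V (Fin q) => p.2 j := by
          fun_prop
        exact (h1.sub h2).pow 2
      exact (hcont.stronglyMeasurable.integral_prod_right'
        (ν := (volume : Measure (V (Fin q))).restrict U)).aestronglyMeasurable
    refine integral_mono_ae ((intg μ hb _ (by fun_prop)).const_mul _) ?_ ?_
    · have h1 : Integrable (fun x => (f x - c) ^ 2) μ := intg μ hb _ (by fun_prop)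
      refine Integrable.mono' (h1.const_mul G) (h1.aestronglyMeasurable.mul hmeas)
        (Filter.Eventually.of_forall fun x => ?_)
      rw [norm_mul, Real.norm_of_nonneg (sq_nonneg _), Real.norm_of_nonneg (hUx x).1, mul_comm]
      exact mul_le_mul_of_nonneg_right (hUx x).2 (sq_nonneg _)
    · filter_upwards [hmass] with x hx
      show G / 2 * (f x - c) ^ 2 ≤ (f x - c) ^ 2 * ∫ τ in U, tw e K τ x
      rw [mul_comm]
      exact mul_le_mul_of_nonneg_left hx (sq_nonneg _)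
  have h9 : G * ∫ x, (f x - c) ^ 2 ∂μ ≤ G * (2 * (5 * K + 25 * D₀) * J) := by
    have h10 := hlow.trans ((le_of_eq hFU.symm).trans hup)
    nlinarith
  exact le_of_mul_le_mul_left h9 hGpos

end Unt

theorem untU : S_UNT := fun μ _ _ hb e he K hK U hU D hD h1 h2 h3 f hf =>
  Unt.unt μ hb e he K hK U hU D hD h1 h2 h3 f hf

end Pool.Agent.TH597.HX
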