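import Pool.Agent.TH597.HX.Step
import Pool.Agent.TH597.HX.Core

/-!
# The local Poincare property is stable under wreath products with symmetric groups
-/

set_option autoImplicit false

namespace Pool.Agent.TH597.HX

open MeasureTheory Set Filter
open scoped ENNReal InnerProductSpace Topology
open Pool.Agent.H212R2.KLS (mu Bdd)
open Pool.Agent.H888R2.KT (LC St tw)
open Pool.Agent.H888R2.KT.V5x (tw_pos tw_cont)
open Pool.Agent.H888R2.KT.V4bx (w)
open Pool.Agent.H888R2.KT.G2x (mu_indicator integral_mu_mul mu_mono intg)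
open Pool.Agent.TH594.KP (V GD GG swp Bs mem_Bs gd_indicator gd_ball gd_smul SC)
open Out Lpp Step Arr
open Loc (ee)

namespace Wr

/-- permutation of the coordinates -/
noncomputable def pm {J : Type} [Fintype J] (π : Equiv.Perm J) : V J ≃ₗᵢ[ℝ] V J :=
  LinearIsometryEquiv.piLpCongrLeft 2 ℝ ℝ π

theorem pm_apply {J : Type} [Fintype J] (π : Equiv.Perm J) (x : V J) (j : J) :
    pm π x j = x (π.symm j) := by
  unfold pm
  rw [LinearIsometryEquiv.piLpCongrLeft_apply]
  rfl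

variable {q m : ℕ}

/-- the normalised block sums -/
noncomputable def pj (x : W q m) : V (Fin q) := WithLp.toLp 2 fun j => ⟪ee (bl q m) j, x⟫_ℝ

theorem pj_apply (x : W q m) (j : Fin q) : pj x j = ⟪ee (bl q m) j, x⟫_ℝ := rfl

theorem pj_add (x y : W q m) : pj (x + y) = pj x + pj y := by
  ext j
  simp only [pj_apply, PiLp.add_apply, inner_add_right]

theorem pj_smul (c : ℝ) (x : W q m) : pj (c • x) = c • pj x := by
  ext j
  simp only [pj_apply, PiLp.smul_apply, real_inner_smul_right, smul_eq_mul]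

theorem pj_cont : Continuous (pj (q := q) (m := m)) := by
  unfold pj
  fun_prop

theorem pj_swp (k l : I q m) (hkl : bl q m k = bl q m l) (x : W q m) : pj (swp k l x) = pj x := by
  ext j
  rw [pj_apply, pj_apply]
  have h1 := (swp (δ := Fin 1) k l).inner_map_map (ee (bl q m) j) x
  have h2 : swp k l (ee (bl q m) j) = ee (bl q m) j :=
    Pool.Agent.TH594.KP.swp_ev (bl q m) _ k l hkl
  rw [h2] at h1
  exact h1

theorem pj_bp (π : Equiv.Perm (Fin q)) (x : W q m) : pj (bp π x) = pm π (pj x) := by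
  ext j
  rw [pm_apply, pj_apply, pj_apply]
  have h1 := (bp π).inner_map_map (ee (bl q m) (π.symm j)) x
  rw [bp_ee, Equiv.apply_symm_apply] at h1
  exact h1

/-- the norm of the wreath product -/
noncomputable def NN (N : V (Fin q) → ℝ) (A : ℝ) (x : W q m) : ℝ :=
  max (N (pj x)) (⨆ β, dev (bl q m) β x / A)

theorem NN_le (hq : 1 ≤ q) (N : V (Fin q) → ℝ) {A : ℝ} (hA : 0 < A) (x : W q m) (r : ℝ) :
    NN N A x ≤ r ↔ N (pj x) ≤ r ∧ ∀ β, dev (bl q m) β x ≤ r * A := by
  have : Nonempty (Fin q) := ⟨⟨0, hq⟩⟩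
  unfold NN
  rw [max_le_iff, ciSup_le_iff (Set.finite_range _).bddAbove]
  refine and_congr_right fun _ => forall_congr' fun β => ?_
  rw [div_le_iff₀ hA]

/-- the symmetries of the wreath product -/
def GP (m : ℕ) (P : Set (Equiv.Perm (Fin q))) : Set (W q m ≃ₗᵢ[ℝ] W q m) :=
  GG (Fin 1) (bl q m) ∪ bp '' P

theorem gp_gg {P : Set (Equiv.Perm (Fin q))} {ρ : W q m → ℝ} (h : GD (GP m P) ρ) :
    GD (GG (Fin 1) (bl q m)) ρ :=
  ⟨h.nonneg, h.meas, h.logc, fun g hg => h.inv g (Or.inl hg)⟩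

/-- the law of the centre has the symmetries -/
theorem exch1 {κ : Type} [Fintype κ] (ρ : V κ → ℝ) (hm : Measurable ρ) (e : Fin q → V κ) (K : ℝ)
    (σ : Equiv.Perm (Fin q)) (g : V κ ≃ₗᵢ[ℝ] V κ) (hg1 : ∀ x, ρ (g x) = ρ x)
    (hg2 : ∀ j, g (e j) = e (σ j)) (τ : V (Fin q)) :
    ∫ x, tw e K (pm σ τ) x ∂(mu ρ) = ∫ x, tw e K τ x ∂(mu ρ) := by
  rw [← Pool.Agent.H888R2.KT.N10x.int_comp hm g hg1 (fun x => tw e K (pm σ τ) x)]
  refine integral_congr_ae (Filter.Eventually.of_forall fun x => ?_)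
  show tw e K (pm σ τ) (g x) = tw e K τ x
  unfold tw
  congr 3
  rw [← Equiv.sum_comp σ fun j => (⟪e j, g x⟫_ℝ - (pm σ τ) j) ^ 2]
  refine Finset.sum_congr rfl fun j _ => ?_
  rw [pm_apply, Equiv.symm_apply_apply, ← hg2 j, g.inner_map_map]

section norm

variable {G : Set (V (Fin q) ≃ₗᵢ[ℝ] V (Fin q))} {D B : ℝ} {N : V (Fin q) → ℝ}

theorem NN_add (h : LPP G D B N) (hq : 1 ≤ q) {A : ℝ} (hA : 0 < A) (x y : W q m) :
    NN N A (x + y) ≤ NN N A x + NN N A y := by
  obtain ⟨h1, h2⟩ := (NN_le hq N hA x _).1 le_rfl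
  obtain ⟨h3, h4⟩ := (NN_le hq N hA y _).1 le_rfl
  refine (NN_le hq N hA _ _).2 ⟨?_, fun β => ?_⟩
  · rw [pj_add]
    exact (h.add _ _).trans (add_le_add h1 h3)
  · rw [add_mul]
    exact (dev_add _ β x y).trans (add_le_add (h2 β) (h4 β))

theorem NN_nonneg (h : LPP G D B N) (hq : 1 ≤ q) {A : ℝ} (hA : 0 < A) (x : W q m) :
    0 ≤ NN N A x := by
  obtain ⟨h1, -⟩ := (NN_le hq N hA x _).1 le_rfl
  exact (Lpp.nonneg h _).trans h1

theorem NN_smul_le (h : LPP G D B N) (hq : 1 ≤ q) {A : ℝ} (hA : 0 < A) (c : ℝ) (x : W q m) :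
    NN N A (c • x) ≤ |c| * NN N A x := by
  obtain ⟨h1, h2⟩ := (NN_le hq N hA x _).1 le_rfl
  refine (NN_le hq N hA _ _).2 ⟨?_, fun β => ?_⟩
  · rw [pj_smul, h.smul]
    exact mul_le_mul_of_nonneg_left h1 (abs_nonneg _)
  · rw [dev_smul, mul_assoc]
    exact mul_le_mul_of_nonneg_left (h2 β) (abs_nonneg _)

theorem NN_smul (h : LPP G D B N) (hq : 1 ≤ q) {A : ℝ} (hA : 0 < A) (c : ℝ) (x : W q m) :
    NN N A (c • x) = |c| * NN N A x := by
  refine le_antisymm (NN_smul_le h hq hA c x) ?_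
  by_cases hc : c = 0
  · rw [hc, abs_zero, zero_mul]
    exact NN_nonneg h hq hA _
  · have h1 := NN_smul_le h hq hA c⁻¹ (c • x)
    rw [smul_smul, inv_mul_cancel₀ hc, one_smul] at h1
    have h2 := mul_le_mul_of_nonneg_left h1 (abs_nonneg c)
    rwa [← mul_assoc, ← abs_mul, mul_inv_cancel₀ hc, abs_one, one_mul] at h2

theorem NN_closed (h : LPP G D B N) (hq : 1 ≤ q) {A : ℝ} (hA : 0 < A) (r : ℝ) :
    IsClosed {x : W q m | NN N A x ≤ r} := by
  have h1 : {x : W q m | NN N A x ≤ r} =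
      {x | N (pj x) ≤ r} ∩ ⋂ β, {x | dev (bl q m) β x ≤ r * A} := by
    ext x
    rw [mem_inter_iff, mem_iInter]
    exact NN_le hq N hA x r
  rw [h1]
  exact ((h.closed r).preimage pj_cont).inter
    (isClosed_iInter fun β => isClosed_le (dev_cont _ β) continuous_const)

theorem NN_inv {P : Set (Equiv.Perm (Fin q))} (h : LPP (pm '' P) D B N) (hq : 1 ≤ q) {A : ℝ}
    (hA : 0 < A) : ∀ g ∈ GP m P, ∀ x : W q m, NN N A (g x) = NN N A x := by
  have key : ∀ g ∈ GP m P, ∀ (x : W q m) (r : ℝ), NN N A (g x) ≤ r ↔ NN N A x ≤ r := by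
    intro g hg x r
    rw [NN_le hq N hA, NN_le hq N hA]
    rcases hg with ⟨k, l, hkl, rfl⟩ | ⟨π, hπ, rfl⟩
    · rw [pj_swp k l hkl]
      refine and_congr_right fun _ => forall_congr' fun β => ?_
      rw [dev_swp _ β k l hkl]
    · rw [pj_bp, h.inv _ ⟨π, hπ, rfl⟩]
      refine and_congr_right fun _ => ?_
      constructor
      · intro h1 β
        have h2 := h1 (π β)
        rw [dev_bp, Equiv.symm_apply_apply] at h2
        exact h2
      · intro h1 β
        rw [dev_bp]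
        exact h1 _
  intro g hg x
  exact le_antisymm ((key g hg x _).2 le_rfl) ((key g hg x _).1 le_rfl)

theorem NN_bdd (h : LPP G D B N) (hq : 1 ≤ q) (hm : 1 ≤ m) {A : ℝ} (hA : 0 < A) :
    ∃ R : ℝ, ∀ x : W q m, ‖x‖ ≤ R * NN N A x := by
  obtain ⟨R, hR⟩ := h.bdd
  refine ⟨Fintype.card (I q m × Fin 1) * (A + |R|), fun x => ?_⟩
  obtain ⟨h1, h2⟩ := (NN_le hq N hA x _).1 le_rfl
  have hN := NN_nonneg h hq hA x
  have hcoord : ∀ p : I q m × Fin 1, |x p| ≤ (A + |R|) * NN N A x := by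
    rintro ⟨⟨β, i⟩, c⟩
    have hc : c = 0 := Subsingleton.elim _ _
    subst hc
    have hm1 : (1 : ℝ) ≤ m := by exact_mod_cast hm
    have hm0 : (0 : ℝ) < m := by linarith
    have e1 : (m : ℝ) * x ((β, i), 0) =
        ∑ j : Fin m, (x ((β, i), 0) - x ((β, j), 0)) + ∑ j : Fin m, x ((β, j), 0) := by
      rw [← Finset.sum_add_distrib]
      simp
    have e2 : ∑ j : Fin m, x ((β, j), 0) = Real.sqrt m * pj x β := by
      rw [pj_apply]
      unfold ee
      rw [Pool.Agent.TH594.KP.inner_ev, card_Bs, sum_Bs β fun p => x (p, 0)]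
      have h3 : Real.sqrt m ≠ 0 := (Real.sqrt_pos.2 hm0).ne'
      field_simp
    have e3 : |∑ j : Fin m, (x ((β, i), 0) - x ((β, j), 0))| ≤ dev (bl q m) β x := by
      refine (Finset.abs_sum_le_sum_abs _ _).trans ?_
      rw [dev_eq]
      exact Finset.single_le_sum (f := fun i : Fin m => ∑ j : Fin m, |x ((β, i), 0) - x ((β, j), 0)|)
        (fun _ _ => Finset.sum_nonneg fun _ _ => abs_nonneg _) (Finset.mem_univ i)
    have e4 : |pj x β| ≤ |R| * NN N A x := by
      have h3 : |pj x β| ≤ ‖pj x‖ := by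
        have := PiLp.norm_apply_le (pj x) β
        rwa [Real.norm_eq_abs] at this
      refine h3.trans ((hR _).trans ?_)
      have h4 : R * N (pj x) ≤ |R| * N (pj x) :=
        mul_le_mul_of_nonneg_right (le_abs_self R) (Lpp.nonneg h _)
      exact h4.trans (mul_le_mul_of_nonneg_left h1 (abs_nonneg R))
    have hsm : Real.sqrt m ≤ m := by
      rw [Real.sqrt_le_left (by linarith)]
      nlinarith
    have e5 : (m : ℝ) * |x ((β, i), 0)| ≤ m * ((A + |R|) * NN N A x) := by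
      have h5 : (m : ℝ) * |x ((β, i), 0)| = |(m : ℝ) * x ((β, i), 0)| := by
        rw [abs_mul, abs_of_pos hm0]
      rw [h5, e1, e2]
      refine (abs_add_le _ _).trans ?_
      have h6 : |Real.sqrt m * pj x β| ≤ m * (|R| * NN N A x) := by
        rw [abs_mul, abs_of_nonneg (Real.sqrt_nonneg _)]
        exact mul_le_mul hsm e4 (abs_nonneg _) hm0.le
      have h7 : dev (bl q m) β x ≤ m * (A * NN N A x) := by
        refine (h2 β).trans ?_
        have : 0 ≤ NN N A x * A := mul_nonneg hN hA.le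
        nlinarith
      calc |∑ j : Fin m, (x ((β, i), 0) - x ((β, j), 0))| + |Real.sqrt m * pj x β|
          ≤ m * (A * NN N A x) + m * (|R| * NN N A x) := add_le_add (e3.trans h7) h6
        _ = _ := by ring
    exact le_of_mul_le_mul_left e5 hm0
  have h3 : ‖x‖ ≤ ∑ p, |x p| := by
    have h4 : ‖x‖ ^ 2 ≤ (∑ p, |x p|) ^ 2 := by
      rw [EuclideanSpace.real_norm_sq_eq]
      have h5 := Finset.sum_sq_le_sq_sum_of_nonneg (s := (Finset.univ : Finset (I q m × Fin 1)))
        (f := fun p => |x p|) (fun p _ => abs_nonneg _)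
      simpa only [sq_abs] using h5
    exact (abs_le_of_sq_le_sq' h4 (Finset.sum_nonneg fun p _ => abs_nonneg _)).2
  refine h3.trans ((Finset.sum_le_sum fun p _ => hcoord p).trans (le_of_eq ?_))
  rw [Finset.sum_const, Finset.card_univ, nsmul_eq_mul]
  ring

end norm

end Wr

end Pool.Agent.TH597.HX
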