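import Pool.Agent.TH597.HX.Wr

/-!
# The local Poincare property is stable under wreath products with symmetric groups (proof)
-/

set_option autoImplicit false

namespace Pool.Agent.TH597.HX

open MeasureTheory Set Filter
open scoped ENNReal InnerProductSpace Topology
open Pool.Agent.H212R2.KLS (mu Bdd)
open Pool.Agent.H888R2.KT (LC St tw)
open Pool.Agent.H888R2.KT.V5x (tw_pos tw_cont)
open Pool.Agent.H888R2.KT.V4bx (w)
open Pool.Agent.H888R2.KT.G2x (mu_indicator integral_mu_mul mu_mono intg)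
open Pool.Agent.TH594.KP (V GD GG swp Bs mem_Bs gd_indicator gd_ball gd_smul SC)
open Out Lpp Step Arr Wr
open Loc (ee)

namespace Wr

variable {q m : ℕ} {D B : ℝ} {N : V (Fin q) → ℝ}

/-- the statement of `Loc.inner` with the constant `C` -/
def In (C : ℝ) : Prop :=
    ∀ {ι : Type} [Fintype ι] [DecidableEq ι] {n : ℕ} {b : ι → Fin n}, Function.Surjective b →
    ∀ ρ : V (ι × Fin 1) → ℝ, GD (GG (Fin 1) b) ρ → LC ρ → ∀ a : ℝ, 0 < a →
    (∀ x, ρ x ≠ 0 → ∀ s, dev b s x ≤ a * ((Bs b s).card : ℝ) ^ 2) →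
    ∀ K : ℝ, 0 < K → C * a ^ 2 ≤ K → ∀ (τ : V (Fin n)) (f : V (ι × Fin 1) → ℝ),
    ContDiff ℝ 1 f → ∃ c : ℝ, ∫ x, (f x - c) ^ 2 * tw (ee b) K τ x ∂(mu ρ) ≤
      5 * K * ∫ x, ‖fderiv ℝ f x‖ ^ 2 * tw (ee b) K τ x ∂(mu ρ)

/-- the centre of the tilt -/
theorem inv_bp {P : Set (Equiv.Perm (Fin q))} (ρ : W q m → ℝ) (hρ : GD (GP m P) ρ) (K : ℝ) :
    ∀ g ∈ pm '' P, ∀ τ, ∫ x, tw (ee (bl q m)) K (g τ) x ∂(mu ρ) =
      ∫ x, tw (ee (bl q m)) K τ x ∂(mu ρ) := by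
  rintro g ⟨π, hπ, rfl⟩ τ
  exact exch1 ρ hρ.meas (ee (bl q m)) K π (bp π) (hρ.inv _ (Or.inr ⟨π, hπ, rfl⟩)) (bp_ee π) τ

/-- the Poincare inequality -/
theorem poi {C : ℝ} (hC : 0 < C) (hin : In C) {P : Set (Equiv.Perm (Fin q))}
    (h : LPP (pm '' P) D B N) (hD : 0 < D) (hB : 0 < B)
    (hq : 1 ≤ q) (hm : 1 ≤ m) {A : ℝ} (hA : 0 < A) (ρ : W q m → ℝ) (hρ : GD (GP m P) ρ)
    (hLC : LC ρ) (a s : ℝ) (ha : 0 < a) (hs : 0 < s)
    (hmom : ∀ θ : W q m, ∫ x, ⟪θ, x⟫_ℝ ^ 2 ∂(mu ρ) ≤ s * ‖θ‖ ^ 2 * (mu ρ univ).toReal)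
    (hsupp : ∀ x, ρ x ≠ 0 → NN N (A * (m : ℝ) ^ 2) x ≤ a) (f : W q m → ℝ)
    (hf : ContDiff ℝ 1 f) :
    ∃ c : ℝ, ∫ x, (f x - c) ^ 2 ∂(mu ρ) ≤
      (10 + 50 * D * (36 * B ^ 2 + 4)) * (C * A ^ 2 + 1) * (a ^ 2 + s) *
        ∫ x, ‖fderiv ℝ f x‖ ^ 2 ∂(mu ρ) := by
  have hm1 : (1 : ℝ) ≤ m := by exact_mod_cast hm
  have hm0 : (0 : ℝ) < m := by linarith
  have hA' : 0 < A * (m : ℝ) ^ 2 := by positivity
  have hne : NeZero (mu ρ) := ⟨hLC.ne⟩
  have hfi : IsFiniteMeasure (mu ρ) := ⟨lt_top_iff_ne_top.2 hLC.fin⟩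
  have hbd := ball_of hLC.meas hLC.bdd
  have horth := Loc.orth_ee (bl_surj (n := q) hm)
  obtain ⟨K, hK⟩ : ∃ K : ℝ, K = C * (A * a) ^ 2 + s := ⟨_, rfl⟩
  have hK0 : 0 < K := by rw [hK]; positivity
  obtain ⟨c, hc⟩ : ∃ c : ℝ, c = a + 3 * (B * Real.sqrt (2 * K)) := ⟨_, rfl⟩
  have hsq : Real.sqrt (2 * K) ^ 2 = 2 * K := Real.sq_sqrt (by positivity)
  have hsq0 : 0 ≤ Real.sqrt (2 * K) := Real.sqrt_nonneg _
  have hc0 : 0 < c := by rw [hc]; positivity
  have hs1 : ∀ x, ρ x ≠ 0 → N (pj x) ≤ a ∧ ∀ β, dev (bl q m) β x ≤ a * (A * (m : ℝ) ^ 2) :=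
    fun x hx => (NN_le hq N hA' x a).1 (hsupp x hx)
  have hGG := GG_pos q hK0
  have hlow : ∀ x, ρ x ≠ 0 → GG q K / 2 ≤
      ∫ τ in {τ : V (Fin q) | N τ ≤ c}, tw (ee (bl q m)) K τ x := by
    intro x hx
    have h1 := lowN h K hK0 (fun j => ⟪ee (bl q m) j, x⟫_ℝ) a (hs1 x hx).1
    rw [← hc] at h1
    have h2 : GG q K / 2 ≤ 3 / 4 * GG q K := by linarith
    exact h2.trans h1
  have hUm : MeasurableSet {τ : V (Fin q) | N τ ≤ c} := (h.closed c).measurableSet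
  obtain ⟨c₀, hc₀⟩ := Unt.unt (mu ρ) hbd (ee (bl q m)) horth K hK0 {τ : V (Fin q) | N τ ≤ c} hUm
    (D * (c ^ 2 + 2 * (s + K))) (by positivity)
    (fun M hM => outN h ρ hLC (ee (bl q m)) horth K s c hK0 hs hc0 hmom (inv_bp ρ hρ K) hlow M hM)
    (by filter_upwards [ae_ne hLC.meas] with x hx; exact hlow x hx)
    (fun τ f hf => hin (bl_surj hm) ρ (gp_gg hρ) hLC (A * a) (by positivity)
      (fun x hx β => by
        rw [card_Bs]
        refine ((hs1 x hx).2 β).trans (le_of_eq (by ring))) K hK0 (by rw [hK]; linarith) τ f hf)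
    f hf
  refine ⟨c₀, hc₀.trans (mul_le_mul_of_nonneg_right ?_ (integral_nonneg fun x => by positivity))⟩
  obtain ⟨Q, hQ⟩ : ∃ Q : ℝ, Q = a ^ 2 + s := ⟨_, rfl⟩
  obtain ⟨k, hk⟩ : ∃ k : ℝ, k = C * A ^ 2 + 1 := ⟨_, rfl⟩
  have hQ0 : 0 < Q := by rw [hQ]; positivity
  have hk1 : 1 ≤ k := by
    rw [hk]
    have : 0 < C * A ^ 2 := by positivity
    linarith
  rw [← hQ, ← hk]
  have e1 : K ≤ k * Q := by
    rw [hK, hk, hQ]
    have : 0 ≤ C * A ^ 2 * s := by positivity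
    nlinarith [sq_nonneg a]
  have e2 : c ^ 2 ≤ 2 * a ^ 2 + 36 * B ^ 2 * K := by
    rw [hc]
    have h3 : (3 * (B * Real.sqrt (2 * K))) ^ 2 = 18 * B ^ 2 * K := by
      calc (3 * (B * Real.sqrt (2 * K))) ^ 2 = 9 * B ^ 2 * Real.sqrt (2 * K) ^ 2 := by ring
        _ = _ := by rw [hsq]; ring
    nlinarith [sq_nonneg (a - 3 * (B * Real.sqrt (2 * K)))]
  have e3 : c ^ 2 + 2 * (s + K) ≤ (36 * B ^ 2 + 4) * (k * Q) := by
    have h4 : c ^ 2 + 2 * (s + K) ≤ 2 * Q + (36 * B ^ 2 + 2) * K := by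
      rw [hQ]
      linarith
    have h5 : (36 * B ^ 2 + 2) * K ≤ (36 * B ^ 2 + 2) * (k * Q) :=
      mul_le_mul_of_nonneg_left e1 (by positivity)
    have h6 : Q ≤ k * Q := by nlinarith
    linarith
  have e4 : D * (c ^ 2 + 2 * (s + K)) ≤ D * ((36 * B ^ 2 + 4) * (k * Q)) :=
    mul_le_mul_of_nonneg_left e3 hD.le
  calc 2 * (5 * K + 25 * (D * (c ^ 2 + 2 * (s + K))))
      ≤ 2 * (5 * (k * Q) + 25 * (D * ((36 * B ^ 2 + 4) * (k * Q)))) := by linarith
    _ = (10 + 50 * D * (36 * B ^ 2 + 4)) * k * Q := by ring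

/-- the bound for the norm of the block sums -/
theorem tail_pj {P : Set (Equiv.Perm (Fin q))}
    (h : LPP (pm '' P) D B N) (hB : 0 < B) (hm : 1 ≤ m) (ρ : W q m → ℝ)
    (hρ : GD (GP m P) ρ) (hbd : Bdd ρ) (h1 : mu ρ univ = 1) (s : ℝ) (hs : 0 < s)
    (hmom : ∀ θ : W q m, ∫ x, ⟪θ, x⟫_ℝ ^ 2 ∂(mu ρ) ≤ s * ‖θ‖ ^ 2) :
    (mu ρ).real {x : W q m | 28 * B * Real.sqrt s < N (pj x)} ≤ 1 / 8 := by
  have hprob : IsProbabilityMeasure (mu ρ) := ⟨h1⟩
  have hLC : LC ρ := ⟨hρ.nonneg, hρ.meas, hρ.logc, hbd, by rw [h1]; exact ENNReal.one_ne_top,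
    fun h0 => by rw [h0] at h1; simp at h1⟩
  have hball := ball_of hLC.meas hLC.bdd
  have horth := Loc.orth_ee (bl_surj (n := q) hm)
  have hmom' : ∀ θ : W q m, ∫ x, ⟪θ, x⟫_ℝ ^ 2 ∂(mu ρ) ≤ s * ‖θ‖ ^ 2 * (mu ρ univ).toReal := by
    intro θ
    rw [h1, ENNReal.toReal_one, mul_one]
    exact hmom θ
  obtain ⟨hZpos, hZG, hZc, hZi, hZI, hZ2i, hZ2⟩ := zfacts (G := pm '' P) ρ hLC (ee (bl q m)) horth
    s s hs hmom' (inv_bp ρ hρ s)
  rw [h1, ENNReal.toReal_one, mul_one] at hZI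
  simp only [h1, ENNReal.toReal_one, mul_one] at hZ2
  have hGG : 0 < GG q s := GG_pos q hs
  have hzt := ztail h (fun τ : V (Fin q) => ∫ x, tw (ee (bl q m)) s τ x ∂(mu ρ)) hZG hZi (GG q s) hZI hGG
    (s + s) (by positivity) hZ2i hZ2 7 (by norm_num)
  obtain ⟨T, hT⟩ : ∃ T : ℝ, T = 14 * B * Real.sqrt s := ⟨_, rfl⟩
  have e1 : 7 * (B * Real.sqrt (2 * (s + s))) = T := by
    have h2 : Real.sqrt (2 * (s + s)) = 2 * Real.sqrt s := by
      have h3 : 2 * (s + s) = 2 ^ 2 * s := by ring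
      rw [h3, Real.sqrt_mul (by norm_num), Real.sqrt_sq (by norm_num)]
    rw [h2, hT]
    ring
  rw [e1] at hzt
  have e2 : 28 * B * Real.sqrt s = 2 * T := by rw [hT]; ring
  rw [e2]
  have hexp : Real.exp (-(7 + 1) / 2) ≤ 1 / 16 := by
    have h3 := exp_two 4
    have e : (-(7 + 1) / 2 : ℝ) = -((4 : ℕ) : ℝ) := by norm_num
    rw [e]
    refine h3.trans (le_of_eq (by norm_num))
  have hET : MeasurableSet {τ : V (Fin q) | T < N τ} := measurableSet_lt measurable_const (meas h)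
  have hEm : MeasurableSet {x : W q m | 2 * T < N (pj x)} :=
    measurableSet_lt measurable_const ((meas h).comp pj_cont.measurable)
  have hfub := Unt.fubU (mu ρ) hball (ee (bl q m)) s hs (fun _ => (1 : ℝ)) continuous_const
    {τ : V (Fin q) | T < N τ}
  simp only [one_mul] at hfub
  rw [hfub] at hzt
  -- lower bound
  have hcont : Continuous (fun p : W q m × V (Fin q) => tw (ee (bl q m)) s p.2 p.1) := by
    unfold tw
    refine Real.continuous_exp.comp (Continuous.neg (Continuous.div_const ?_ _))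
    refine continuous_finsetSum _ fun j _ => ?_
    have h1 : Continuous fun p : W q m × V (Fin q) =>
        ⟪ee (bl q m) j, p.1⟫_ℝ := continuous_const.inner continuous_fst
    have h2 : Continuous fun p : W q m × V (Fin q) => p.2 j := by
      fun_prop
    exact (h1.sub h2).pow 2
  have hmeas : AEStronglyMeasurable (fun x => ∫ τ in {τ : V (Fin q) | T < N τ},
      tw (ee (bl q m)) s τ x) (mu ρ) :=
    (hcont.stronglyMeasurable.integral_prod_right'
      (ν := (volume : Measure (V (Fin q))).restrict {τ : V (Fin q) | T < N τ})).aestronglyMeasurable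
  have hi : Integrable (fun x => ∫ τ in {τ : V (Fin q) | T < N τ}, tw (ee (bl q m)) s τ x)
      (mu ρ) := by
    refine Integrable.of_bound hmeas (GG q s) (Filter.Eventually.of_forall fun x => ?_)
    obtain ⟨h3, h4⟩ := n1 (n := q) s hs fun j => ⟪ee (bl q m) j, x⟫_ℝ
    rw [Real.norm_of_nonneg (integral_nonneg fun τ => (tw_pos (ee (bl q m)) s τ x).le), ← h4]
    exact setIntegral_le_integral h3
      (Filter.Eventually.of_forall fun τ => (tw_pos (ee (bl q m)) s τ x).le)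
  have hlow : 3 / 4 * GG q s * (mu ρ).real {x : W q m | 2 * T < N (pj x)} ≤
      ∫ x, (∫ τ in {τ : V (Fin q) | T < N τ}, tw (ee (bl q m)) s τ x) ∂(mu ρ) := by
    have h2 : ∫ x, ({x : W q m | 2 * T < N (pj x)}).indicator (fun _ => 3 / 4 * GG q s) x ∂(mu ρ) =
        3 / 4 * GG q s * (mu ρ).real {x : W q m | 2 * T < N (pj x)} := by
      rw [integral_indicator_const _ hEm, smul_eq_mul, mul_comm]
    rw [← h2]
    refine integral_mono ((integrable_const _).indicator hEm) hi fun x => ?_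
    show indicator _ (fun _ => 3 / 4 * GG q s) x ≤ _
    by_cases hx : x ∈ {x : W q m | 2 * T < N (pj x)}
    · rw [indicator_of_mem hx]
      have hx' : 2 * T < N (pj x) := hx
      refine lowE h s hs (fun j => ⟪ee (bl q m) j, x⟫_ℝ) {τ : V (Fin q) | T < N τ} hET
        fun τ hτ => ?_
      show T < N (τ + pj x)
      have h3 : N τ ≤ T := by
        refine hτ.trans ?_
        have h4 : Real.sqrt (2 * s) ≤ 2 * Real.sqrt s := by
          rw [Real.sqrt_mul (by norm_num)]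
          have h5 : Real.sqrt 2 ≤ 2 := by
            rw [Real.sqrt_le_left (by norm_num)]
            norm_num
          exact mul_le_mul_of_nonneg_right h5 (Real.sqrt_nonneg _)
        rw [hT]
        have h5 : B * Real.sqrt (2 * s) ≤ B * (2 * Real.sqrt s) :=
          mul_le_mul_of_nonneg_left h4 hB.le
        have h6 : 0 ≤ B * Real.sqrt s := mul_nonneg hB.le (Real.sqrt_nonneg _)
        nlinarith
      have h4 := h.add (τ + pj x) (-τ)
      rw [Lpp.neg h, add_neg_cancel_comm] at h4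
      linarith
    · rw [indicator_of_notMem hx]
      exact integral_nonneg fun τ => (tw_pos (ee (bl q m)) s τ x).le
  have h2 := hlow.trans hzt
  have h3 : Real.exp (-(7 + 1) / 2) * GG q s ≤ 1 / 16 * GG q s :=
    mul_le_mul_of_nonneg_right hexp hGG.le
  have h4 : GG q s * (3 / 4 * (mu ρ).real {x : W q m | 2 * T < N (pj x)}) ≤ GG q s * (1 / 16) := by
    linarith
  have h5 := le_of_mul_le_mul_left h4 hGG
  linarith

/-- **The step.** -/
theorem step {C C₂ : ℝ} (hC : 0 < C) (hin : In C) (hC₂ : 0 < C₂) (hT : Core.T0 C₂)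
    {P : Set (Equiv.Perm (Fin q))}
    (h : LPP (pm '' P) D B N) (hD : 0 < D) (hB : 1 ≤ B) (hq : 1 ≤ q) (hm : 1 ≤ m) {A : ℝ}
    (hA : A = C₂ * (3 + Real.log q / m)) :
    LPP (GP m P) ((10 + 50 * D * (36 * B ^ 2 + 4)) * (C * A ^ 2 + 1)) (28 * B)
      (NN N (A * (m : ℝ) ^ 2)) := by
  have hm1 : (1 : ℝ) ≤ m := by exact_mod_cast hm
  have hm0 : (0 : ℝ) < m := by linarith
  have hq1 : (1 : ℝ) ≤ q := by exact_mod_cast hq
  have hq0 : (0 : ℝ) < q := by linarith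
  have hlog : 0 ≤ Real.log q := Real.log_nonneg hq1
  have hB0 : 0 < B := by linarith
  have hA0 : 0 < A := by rw [hA]; positivity
  have hA' : 0 < A * (m : ℝ) ^ 2 := by positivity
  refine ⟨NN_add h hq hA', NN_smul h hq hA', NN_closed h hq hA', NN_bdd h hq hm hA',
    NN_inv h hq hA', ?_, ?_⟩
  · intro ρ hρ hLC a s ha hs hmom hsupp f hf
    exact poi hC hin h hD hB0 hq hm hA0 ρ hρ hLC a s ha hs hmom hsupp f hf
  · intro ρ hρ hbd h1 s hs hmom
    have hprob : IsProbabilityMeasure (mu ρ) := ⟨h1⟩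
    have hss : 0 < Real.sqrt s := Real.sqrt_pos.2 hs
    obtain ⟨l, hl⟩ : ∃ l : ℝ, l = 3 + Real.log q / m := ⟨_, rfl⟩
    have hl1 : 1 ≤ l := by
      rw [hl]
      have : 0 ≤ Real.log q / m := by positivity
      linarith
    have hms : MeasurableSet {x : W q m | NN N (A * (m : ℝ) ^ 2) x ≤ 28 * B * Real.sqrt s} :=
      (NN_closed h hq hA' _).measurableSet
    have hcompl := probReal_compl_eq_one_sub (μ := mu ρ) hms
    have hsub : {x : W q m | NN N (A * (m : ℝ) ^ 2) x ≤ 28 * B * Real.sqrt s}ᶜ ⊆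
        {x : W q m | 28 * B * Real.sqrt s < N (pj x)} ∪ ⋃ β ∈ (Finset.univ : Finset (Fin q)),
          {x : W q m | l * (C₂ * Real.sqrt s) * (m : ℝ) ^ 2 < dev (bl q m) β x} := by
      intro x hx
      by_contra hc
      refine hx ((NN_le hq N hA' x _).2 ⟨?_, fun β => ?_⟩)
      · by_contra h2
        exact hc (Or.inl (not_le.1 h2))
      · by_contra h2
        refine hc (Or.inr ?_)
        simp only [mem_iUnion]
        refine ⟨β, Finset.mem_univ _, ?_⟩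
        show l * (C₂ * Real.sqrt s) * (m : ℝ) ^ 2 < dev (bl q m) β x
        refine lt_of_le_of_lt ?_ (not_le.1 h2)
        have h3 : l * (C₂ * Real.sqrt s) * (m : ℝ) ^ 2 = 1 * (Real.sqrt s * (A * (m : ℝ) ^ 2)) := by
          rw [hA, hl]
          ring
        rw [h3]
        have h4 : 28 * B * Real.sqrt s * (A * (m : ℝ) ^ 2) =
            28 * B * (Real.sqrt s * (A * (m : ℝ) ^ 2)) := by ring
        rw [h4]
        exact mul_le_mul_of_nonneg_right (by linarith) (by positivity)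
    have hdev : (mu ρ).real (⋃ β ∈ (Finset.univ : Finset (Fin q)),
          {x : W q m | l * (C₂ * Real.sqrt s) * (m : ℝ) ^ 2 < dev (bl q m) β x}) ≤ 1 / 8 := by
      refine (measureReal_biUnion_finset_le _ _).trans ?_
      have h3 : ∀ β ∈ (Finset.univ : Finset (Fin q)),
          (mu ρ).real {x : W q m | l * (C₂ * Real.sqrt s) * (m : ℝ) ^ 2 < dev (bl q m) β x} ≤
            Real.exp (-(m * l)) := fun β _ =>
        Core.tail1 hT ρ (gp_gg hρ) hbd h1 s hs hmom β l hl1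
      refine (Finset.sum_le_sum h3).trans ?_
      rw [Finset.sum_const, Finset.card_univ, Fintype.card_fin, nsmul_eq_mul]
      have e1 : -(m * l) = -(3 * m) - Real.log q := by
        rw [hl]
        field_simp
        ring
      rw [e1, Real.exp_sub, Real.exp_log hq0, mul_div_cancel₀ _ hq0.ne']
      have h4 : Real.exp (-(3 * (m : ℝ))) ≤ Real.exp (-((3 : ℕ) : ℝ)) :=
        Real.exp_le_exp.2 (by push_cast; linarith)
      refine h4.trans ((exp_two 3).trans (le_of_eq (by norm_num)))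
    have hpj := tail_pj h hB0 hm ρ hρ hbd h1 s hs hmom
    have h2 := (measureReal_mono hsub).trans (measureReal_union_le (μ := mu ρ) _ _)
    linarith

end Wr

end Pool.Agent.TH597.HX
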